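import Pool.Agent.Lib.MP_1a91b9_ntH.R.Euler

/-!
# MP_1a91b9_nt (cubic twists), part R: Euler products of complex multiplicative functions on `ℤ[w]`
by sieving
-/

set_option autoImplicit false

namespace Pool.Agent.Lib.MP_1a91b9_ntK

open NumberField Finset Pool.Agent.Lib.MP_1a91b9_ntT Pool.Agent.Lib.MP_1a91b9_ntH

noncomputable section

/-- A system of normalised primes of `ℤ[w]`, together with the set of the normalised elements. -/
structure Prm (ι : Type) [PS ι] where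
  e : ι → 𝓞 K
  P : 𝓞 K → Prop
  prime : ∀ q, Prime (e q)
  N_eq : ∀ q, PS.N q = Nz (e q)
  ndvd : ∀ p q, p ≠ q → ¬ e p ∣ e q
  memP : ∀ q, P (e q)
  one : P 1
  mul_iff : ∀ q y, P (e q * y) ↔ P y
  ex : ∀ x, P x → x ≠ 1 → ∃ q, e q ∣ x

variable {ι : Type} [PS ι]

/-- A complex function on the normalised elements which is multiplicative. -/
structure MulC (D : Prm ι) (F : 𝓞 K → ℂ) : Prop where
  one : F 1 = 1
  mul : ∀ q y, D.P y → F (D.e q * y) = F (D.e q) * F y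
  zero : ∀ x, ¬ D.P x → F x = 0
  le : ∀ x, ‖F x‖ ≤ 1

theorem Prm.e_inj (D : Prm ι) : Function.Injective D.e := by
  intro p q h
  by_contra hne
  exact D.ndvd p q hne (by rw [h])

theorem termC_le {F : 𝓞 K → ℂ} (hF : ∀ x, ‖F x‖ ≤ 1) (σ : ℝ) (x : 𝓞 K) :
    ‖F x * (((Nz x : ℝ) ^ (-σ) : ℝ) : ℂ)‖ ≤ (Nz x : ℝ) ^ (-σ) := by
  rw [norm_mul, Complex.norm_real, Real.norm_eq_abs, abs_of_nonneg (Nz_nonneg_rpow x σ)]
  exact mul_le_of_le_one_left (Nz_nonneg_rpow x σ) (hF x)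

/-- Not divisible by the primes of `s`. -/
def Prm.NoDiv (D : Prm ι) (s : Finset ι) (x : 𝓞 K) : Prop := ∀ q ∈ s, ¬ D.e q ∣ x

theorem Prm.noDiv_insert [DecidableEq ι] (D : Prm ι) {q : ι} {s : Finset ι} {x : 𝓞 K} :
    D.NoDiv (insert q s) x ↔ ¬ D.e q ∣ x ∧ D.NoDiv s x := by
  unfold Prm.NoDiv
  exact forall_mem_insert _ _ _

theorem Prm.noDiv_one (D : Prm ι) (s : Finset ι) : D.NoDiv s 1 := by
  intro q _ hq
  exact (D.prime q).not_isUnit (isUnit_of_dvd_one hq)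

theorem termC_ite_le {F : 𝓞 K → ℂ} (hF : ∀ x, ‖F x‖ ≤ 1) (σ : ℝ) (p : 𝓞 K → Prop)
    [DecidablePred p] (x : 𝓞 K) :
    ‖if p x then F x * (((Nz x : ℝ) ^ (-σ) : ℝ) : ℂ) else 0‖ ≤ (Nz x : ℝ) ^ (-σ) := by
  split_ifs
  · exact termC_le hF σ x
  · rw [norm_zero]
    exact Nz_nonneg_rpow x σ

theorem summableC_ite {F : 𝓞 K → ℂ} (hF : ∀ x, ‖F x‖ ≤ 1) (σ : ℝ) (h : 1 < σ)
    (p : 𝓞 K → Prop) [DecidablePred p] :
    Summable fun x => if p x then F x * (((Nz x : ℝ) ^ (-σ) : ℝ) : ℂ) else 0 :=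
  Summable.of_norm_bounded (summable_Nz σ h) (termC_ite_le hF σ p)

theorem summableC_F {F : 𝓞 K → ℂ} (hF : ∀ x, ‖F x‖ ≤ 1) (σ : ℝ) (h : 1 < σ) :
    Summable fun x => F x * (((Nz x : ℝ) ^ (-σ) : ℝ) : ℂ) :=
  Summable.of_norm_bounded (summable_Nz σ h) (termC_le hF σ)

open Classical in
theorem sieveC (D : Prm ι) {F : 𝓞 K → ℂ} (hF : MulC D F) (σ : ℝ) (h : 1 < σ) (s : Finset ι) :
    (∑' x, F x * (((Nz x : ℝ) ^ (-σ) : ℝ) : ℂ)) *
      ∏ q ∈ s, (1 - F (D.e q) * (((Nz (D.e q) : ℝ) ^ (-σ) : ℝ) : ℂ)) =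
      ∑' x, if D.NoDiv s x then F x * (((Nz x : ℝ) ^ (-σ) : ℝ) : ℂ) else 0 := by
  induction s using Finset.induction_on with
  | empty =>
    rw [prod_empty, mul_one]
    apply tsum_congr
    intro x
    have h2 : D.NoDiv ∅ x := fun q hq => absurd hq (notMem_empty q)
    rw [if_pos h2]
  | insert q s hq ih =>
    have h1 : ∑' x, (if D.NoDiv s x then F x * (((Nz x : ℝ) ^ (-σ) : ℝ) : ℂ) else 0) =
        ∑' x, (if D.NoDiv (insert q s) x then F x * (((Nz x : ℝ) ^ (-σ) : ℝ) : ℂ) else 0) +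
        ∑' x, (if D.NoDiv s x ∧ D.e q ∣ x then F x * (((Nz x : ℝ) ^ (-σ) : ℝ) : ℂ) else 0) := by
      rw [← (summableC_ite hF.le σ h (fun x => D.NoDiv (insert q s) x)).tsum_add
        (summableC_ite hF.le σ h (fun x => D.NoDiv s x ∧ D.e q ∣ x))]
      apply tsum_congr
      intro x
      by_cases h2 : D.NoDiv s x
      · by_cases h3 : D.e q ∣ x
        · rw [if_pos h2, if_neg (by rw [D.noDiv_insert]; tauto), if_pos ⟨h2, h3⟩, zero_add]
        · rw [if_pos h2, if_pos (D.noDiv_insert.2 ⟨h3, h2⟩), if_neg (by tauto), add_zero]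
      · rw [if_neg h2, if_neg (by rw [D.noDiv_insert]; tauto), if_neg (by tauto), add_zero]
    have h2 : ∑' x, (if D.NoDiv s x ∧ D.e q ∣ x then F x * (((Nz x : ℝ) ^ (-σ) : ℝ) : ℂ) else 0) =
        (F (D.e q) * (((Nz (D.e q) : ℝ) ^ (-σ) : ℝ) : ℂ)) *
          ∑' x, (if D.NoDiv s x then F x * (((Nz x : ℝ) ^ (-σ) : ℝ) : ℂ) else 0) := by
      rw [← (mul_right_injective₀ (D.prime q).ne_zero).tsum_eq, ← tsum_mul_left]
      · apply tsum_congr
        intro y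
        by_cases hy : D.P y
        · have h3 : (D.NoDiv s (D.e q * y) ∧ D.e q ∣ D.e q * y) ↔ D.NoDiv s y := by
            constructor
            · intro h4 p hp hpy
              exact h4.1 p hp (hpy.mul_left _)
            · intro h4
              refine ⟨fun p hp hpy => ?_, dvd_mul_right _ _⟩
              rcases (D.prime p).dvd_or_dvd hpy with h5 | h5
              · exact D.ndvd p q (fun e : p = q => hq (by rw [← e]; exact hp)) h5
              · exact h4 p hp h5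
          rw [if_congr h3 rfl rfl]
          split_ifs
          · rw [hF.mul _ _ hy, Nz_mul, Nat.cast_mul,
              Real.mul_rpow (Nat.cast_nonneg _) (Nat.cast_nonneg _)]
            push_cast
            ring
          · rw [mul_zero]
        · have h3 : ¬ D.P (D.e q * y) := fun h4 => hy ((D.mul_iff q y).1 h4)
          rw [hF.zero _ h3, hF.zero _ hy]
          simp
      · intro x hx
        rw [Function.mem_support] at hx
        have h3 : D.e q ∣ x := by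
          by_contra h4
          apply hx
          rw [if_neg (by tauto)]
        obtain ⟨y, hy⟩ := h3
        exact ⟨y, hy.symm⟩
    rw [prod_insert hq]
    have h3 : (∑' x, F x * (((Nz x : ℝ) ^ (-σ) : ℝ) : ℂ)) *
        ((1 - F (D.e q) * (((Nz (D.e q) : ℝ) ^ (-σ) : ℝ) : ℂ)) *
          ∏ q ∈ s, (1 - F (D.e q) * (((Nz (D.e q) : ℝ) ^ (-σ) : ℝ) : ℂ))) =
        ((∑' x, F x * (((Nz x : ℝ) ^ (-σ) : ℝ) : ℂ)) *
          ∏ q ∈ s, (1 - F (D.e q) * (((Nz (D.e q) : ℝ) ^ (-σ) : ℝ) : ℂ))) *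
          (1 - F (D.e q) * (((Nz (D.e q) : ℝ) ^ (-σ) : ℝ) : ℂ)) := by ring
    rw [h3, ih]
    rw [h2] at h1
    linear_combination h1

open Classical in
/-- The indicator function of the normalised elements. -/
def Prm.ind (D : Prm ι) (x : 𝓞 K) : ℂ := if D.P x then 1 else 0

theorem Prm.ind_mulC (D : Prm ι) : MulC D D.ind where
  one := if_pos D.one
  mul q y hy := by
    unfold Prm.ind
    rw [if_pos hy, if_pos (D.memP q), if_pos ((D.mul_iff q y).2 hy), one_mul]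
  zero x hx := if_neg hx
  le x := by
    unfold Prm.ind
    split_ifs <;> simp

theorem Prm.two_le (D : Prm ι) (q : ι) : 2 ≤ Nz (D.e q) := by
  rw [← D.N_eq]
  exact PS.two_le q

theorem Prm.rpow_le_half (D : Prm ι) (σ : ℝ) (h : 1 < σ) (q : ι) :
    (Nz (D.e q) : ℝ) ^ (-σ) ≤ 1 / 2 := by
  have h2 : (2 : ℝ) ≤ Nz (D.e q) := by exact_mod_cast D.two_le q
  calc (Nz (D.e q) : ℝ) ^ (-σ) ≤ (2 : ℝ) ^ (-σ) :=
        Real.rpow_le_rpow_of_nonpos (by norm_num) h2 (by linarith)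
    _ ≤ (2 : ℝ) ^ (-1 : ℝ) := Real.rpow_le_rpow_of_exponent_le (by norm_num) (by linarith)
    _ = 1 / 2 := by
        rw [Real.rpow_neg_one]
        norm_num

theorem Prm.zt (D : Prm ι) : ∃ C, Zt ι C := by
  classical
  obtain ⟨C, hC⟩ := tsum_Nz_le
  refine ⟨C, fun σ x h1 h3 => ?_⟩
  have h4 := sieveC D D.ind_mulC σ h1 (pr ι x)
  have h5 : ‖∑' x, D.ind x * (((Nz x : ℝ) ^ (-σ) : ℝ) : ℂ)‖ ≤ C / (σ - 1) := by
    refine le_trans ?_ (hC σ h1 h3)
    exact tsum_of_norm_bounded (summable_Nz σ h1).hasSum (termC_le D.ind_mulC.le σ)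
  have h6 : (1 : ℝ) ≤ ‖∑' y, if D.NoDiv (pr ι x) y then
      D.ind y * (((Nz y : ℝ) ^ (-σ) : ℝ) : ℂ) else 0‖ := by
    have e1 : ∀ y : 𝓞 K, (if D.NoDiv (pr ι x) y then
        D.ind y * (((Nz y : ℝ) ^ (-σ) : ℝ) : ℂ) else 0) =
        (((if D.NoDiv (pr ι x) y ∧ D.P y then (Nz y : ℝ) ^ (-σ) else 0) : ℝ) : ℂ) := by
      intro y
      unfold Prm.ind
      by_cases ha : D.NoDiv (pr ι x) y
      · by_cases hb : D.P y
        · rw [if_pos ha, if_pos hb, if_pos ⟨ha, hb⟩, one_mul]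
        · rw [if_pos ha, if_neg hb, if_neg (fun h => hb h.2), zero_mul, Complex.ofReal_zero]
      · rw [if_neg ha, if_neg (fun h => ha h.1), Complex.ofReal_zero]
    have e2 : Summable fun y : 𝓞 K =>
        (if D.NoDiv (pr ι x) y ∧ D.P y then (Nz y : ℝ) ^ (-σ) else 0) := by
      refine Summable.of_norm_bounded (summable_Nz σ h1) fun y => ?_
      split_ifs
      · rw [Real.norm_eq_abs, abs_of_nonneg (Nz_nonneg_rpow y σ)]
      · rw [norm_zero]
        exact Nz_nonneg_rpow y σ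
    rw [tsum_congr e1, ← Complex.ofReal_tsum, Complex.norm_real]
    have h7 := e2.le_tsum (1 : 𝓞 K) (fun y _ => by
        split_ifs
        · exact Nz_nonneg_rpow y σ
        · exact le_rfl)
    rw [if_pos ⟨D.noDiv_one _, D.one⟩, Nz_one, Nat.cast_one, Real.one_rpow] at h7
    exact h7.trans (le_abs_self _)
  have h7 : ‖∏ q ∈ pr ι x, (1 - D.ind (D.e q) * (((Nz (D.e q) : ℝ) ^ (-σ) : ℝ) : ℂ))‖ =
      ∏ q ∈ pr ι x, (1 - (PS.N q : ℝ) ^ (-σ)) := by
    rw [norm_prod]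
    apply prod_congr rfl
    intro q _
    unfold Prm.ind
    rw [if_pos (D.memP q), one_mul, ← Complex.ofReal_one, ← Complex.ofReal_sub,
      Complex.norm_real, Real.norm_eq_abs, D.N_eq]
    apply abs_of_nonneg
    have := D.rpow_le_half σ h1 q
    linarith
  have h8 : 0 < ∏ q ∈ pr ι x, (1 - (PS.N q : ℝ) ^ (-σ)) := by
    refine prod_pos fun q _ => ?_
    have := D.rpow_le_half σ h1 q
    rw [D.N_eq]
    linarith
  rw [← h4, norm_mul, h7] at h6
  rw [prod_inv_distrib, inv_le_iff_one_le_mul₀ h8]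
  exact h6.trans (mul_le_mul_of_nonneg_right h5 h8.le)

theorem abelC (F : 𝓞 K → ℂ) (σ : ℝ) (h1 : 1 < σ) (n : ℕ) :
    ∑ x ∈ discE (𝓞 K) n, F x * (((Nz x : ℝ) ^ (-σ) : ℝ) : ℂ) =
      ∑ k ∈ Ioc 0 n, (∑ x ∈ discE (𝓞 K) k, F x) *
        (((k : ℝ) ^ (-σ) - ((k + 1 : ℕ) : ℝ) ^ (-σ) : ℝ) : ℂ) +
      (∑ x ∈ discE (𝓞 K) n, F x) * ((((n + 1 : ℕ) : ℝ) ^ (-σ) : ℝ) : ℂ) -
        ∑ x ∈ discE (𝓞 K) 0, F x := by
  classical
  induction n with
  | zero =>
    have h2 : ∑ x ∈ discE (𝓞 K) 0, F x * (((Nz x : ℝ) ^ (-σ) : ℝ) : ℂ) = 0 := by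
      apply sum_eq_zero
      intro x hx
      rw [mem_disc, Nat.le_zero] at hx
      rw [hx, Nat.cast_zero, Real.zero_rpow (by linarith), Complex.ofReal_zero, mul_zero]
    rw [h2]
    simp
  | succ n ih =>
    have hsub : discE (𝓞 K) n ⊆ discE (𝓞 K) (n + 1) := by
      intro x hx
      rw [mem_disc] at hx ⊢
      omega
    have h2 : ∀ x ∈ discE (𝓞 K) (n + 1) \ discE (𝓞 K) n, Nz x = n + 1 := by
      intro x hx
      rw [mem_sdiff, mem_disc, mem_disc] at hx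
      omega
    have h3 : ∑ x ∈ discE (𝓞 K) (n + 1) \ discE (𝓞 K) n, F x * (((Nz x : ℝ) ^ (-σ) : ℝ) : ℂ) =
        (∑ x ∈ discE (𝓞 K) (n + 1) \ discE (𝓞 K) n, F x) *
          ((((n + 1 : ℕ) : ℝ) ^ (-σ) : ℝ) : ℂ) := by
      rw [sum_mul]
      apply sum_congr rfl
      intro x hx
      rw [h2 x hx]
    rw [← sum_sdiff hsub, h3, ih, Ioc_succ_eq (by omega), sum_insert (by simp)]
    have h4 := sum_sdiff (f := F) hsub
    rw [Complex.ofReal_sub]
    linear_combination ((((n + 1 : ℕ) : ℝ) ^ (-σ) : ℝ) : ℂ) * h4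

/-- Partial summation. -/
theorem tsumC_le_log (B : ℝ) (hB : 0 ≤ B) : ∃ C : ℝ, 1 ≤ C ∧ ∀ (F : 𝓞 K → ℂ) (M : ℕ),
    (∀ x, ‖F x‖ ≤ 1) → 1 ≤ M →
    (∀ X : ℕ, 1 ≤ X → ‖∑ x ∈ discE (𝓞 K) X, F x‖ ≤ B * Real.sqrt (M * X)) →
    ∀ σ : ℝ, 1 < σ → σ ≤ 3 →
      ‖∑' x, F x * (((Nz x : ℝ) ^ (-σ) : ℝ) : ℂ)‖ ≤ C * (1 + Real.log M) := by
  refine ⟨126 + 6 * B, by linarith, fun F M hF hM hX σ h1 h3 => ?_⟩
  have hlog : 0 ≤ Real.log M := Real.log_nonneg (by exact_mod_cast hM)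
  have hA : ∀ k : ℕ, 1 ≤ k → ‖∑ x ∈ discE (𝓞 K) k, F x‖ ≤ 25 * k := by
    intro k hk
    calc ‖∑ x ∈ discE (𝓞 K) k, F x‖ ≤ ∑ x ∈ discE (𝓞 K) k, ‖F x‖ := norm_sum_le _ _
      _ ≤ ∑ x ∈ discE (𝓞 K) k, (1 : ℝ) := sum_le_sum fun x _ => hF x
      _ = ((discE (𝓞 K) k).card : ℝ) := by simp
      _ ≤ 25 * k := by exact_mod_cast card_discE_le' (R := 𝓞 K) k hk
  have hA0 : ‖∑ x ∈ discE (𝓞 K) 0, F x‖ ≤ 25 := by
    have h4 : discE (𝓞 K) 0 ⊆ discE (𝓞 K) 1 := by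
      intro x hx
      rw [mem_disc] at hx ⊢
      omega
    calc ‖∑ x ∈ discE (𝓞 K) 0, F x‖ ≤ ∑ x ∈ discE (𝓞 K) 0, ‖F x‖ := norm_sum_le _ _
      _ ≤ ∑ x ∈ discE (𝓞 K) 0, (1 : ℝ) := sum_le_sum fun x _ => hF x
      _ = ((discE (𝓞 K) 0).card : ℝ) := by simp
      _ ≤ ((discE (𝓞 K) 1).card : ℝ) := by exact_mod_cast card_le_card h4
      _ ≤ 25 := by exact_mod_cast card_discE_le' (R := 𝓞 K) 1 le_rfl
  have key : ∀ n : ℕ, ‖∑ x ∈ discE (𝓞 K) n, F x * (((Nz x : ℝ) ^ (-σ) : ℝ) : ℂ)‖ ≤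
      (126 + 6 * B) * (1 + Real.log M) := by
    intro n
    rw [abelC F σ h1 n]
    have h4 : ‖(∑ x ∈ discE (𝓞 K) n, F x) * ((((n + 1 : ℕ) : ℝ) ^ (-σ) : ℝ) : ℂ)‖ ≤ 25 := by
      rw [norm_mul, Complex.norm_real, Real.norm_eq_abs,
        abs_of_nonneg (show (0 : ℝ) ≤ ((n + 1 : ℕ) : ℝ) ^ (-σ) by positivity)]
      have h5 : ((n + 1 : ℕ) : ℝ) ^ (-σ) ≤ 1 / ((n + 1 : ℕ) : ℝ) := by
        rw [one_div, ← Real.rpow_neg_one]
        apply Real.rpow_le_rpow_of_exponent_le _ (by linarith)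
        have : 1 ≤ n + 1 := by omega
        exact_mod_cast this
      rcases Nat.eq_zero_or_pos n with h0 | h0
      · subst h0
        calc ‖∑ x ∈ discE (𝓞 K) 0, F x‖ * ((0 + 1 : ℕ) : ℝ) ^ (-σ)
            ≤ 25 * ((0 + 1 : ℕ) : ℝ) ^ (-σ) := by
              apply mul_le_mul_of_nonneg_right hA0
              positivity
          _ ≤ 25 := by simp
      · calc ‖∑ x ∈ discE (𝓞 K) n, F x‖ * ((n + 1 : ℕ) : ℝ) ^ (-σ)
            ≤ (25 * n) * (1 / ((n + 1 : ℕ) : ℝ)) := by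
              apply mul_le_mul (hA n h0) h5 (by positivity) (by positivity)
          _ ≤ 25 := by
              rw [mul_one_div, div_le_iff₀ (by positivity)]
              push_cast
              linarith
    have h5 : ‖∑ k ∈ Ioc 0 n, (∑ x ∈ discE (𝓞 K) k, F x) *
        (((k : ℝ) ^ (-σ) - ((k + 1 : ℕ) : ℝ) ^ (-σ) : ℝ) : ℂ)‖ ≤
          75 * (1 + Real.log M) + 6 * B := by
      have h6 : ∀ k ∈ Ioc 0 n, ‖(∑ x ∈ discE (𝓞 K) k, F x) *
          (((k : ℝ) ^ (-σ) - ((k + 1 : ℕ) : ℝ) ^ (-σ) : ℝ) : ℂ)‖ ≤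
          (if k ≤ M then 75 * (1 / (k : ℝ)) else 0) +
          (if M < k then 3 * B * Real.sqrt M * (Real.sqrt k / (k : ℝ) ^ 2) else 0) := by
        intro k hk
        rw [mem_Ioc] at hk
        have hk1 : 1 ≤ k := hk.1
        have hk0 : (0 : ℝ) < k := by exact_mod_cast hk1
        obtain ⟨hd0, hd⟩ := u_diff σ h1 h3 k hk1
        rw [norm_mul, Complex.norm_real, Real.norm_eq_abs, abs_of_nonneg hd0]
        by_cases hkM : k ≤ M
        · rw [if_pos hkM, if_neg (by omega), add_zero]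
          calc ‖∑ x ∈ discE (𝓞 K) k, F x‖ * ((k : ℝ) ^ (-σ) - ((k + 1 : ℕ) : ℝ) ^ (-σ))
              ≤ (25 * k) * (3 / (k : ℝ) ^ 2) := mul_le_mul (hA k hk1) hd hd0 (by positivity)
            _ = 75 * (1 / (k : ℝ)) := by
                field_simp
                norm_num
        · rw [if_neg hkM, if_pos (by omega), zero_add]
          calc ‖∑ x ∈ discE (𝓞 K) k, F x‖ * ((k : ℝ) ^ (-σ) - ((k + 1 : ℕ) : ℝ) ^ (-σ))
              ≤ (B * Real.sqrt (M * k)) * (3 / (k : ℝ) ^ 2) :=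
                mul_le_mul (hX k hk1) hd hd0 (by positivity)
            _ = 3 * B * Real.sqrt M * (Real.sqrt k / (k : ℝ) ^ 2) := by
                rw [Real.sqrt_mul (Nat.cast_nonneg _)]
                ring
      have h7 := (norm_sum_le (Ioc 0 n) (fun k : ℕ => (∑ x ∈ discE (𝓞 K) k, F x) *
        (((k : ℝ) ^ (-σ) - ((k + 1 : ℕ) : ℝ) ^ (-σ) : ℝ) : ℂ))).trans (sum_le_sum h6)
      refine h7.trans ?_
      rw [sum_add_distrib, ← sum_filter, ← sum_filter, ← mul_sum, ← mul_sum]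
      have h8 : ∑ k ∈ (Ioc 0 n).filter (fun k => k ≤ M), 1 / (k : ℝ) ≤ 1 + Real.log M := by
        calc ∑ k ∈ (Ioc 0 n).filter (fun k => k ≤ M), 1 / (k : ℝ)
            ≤ ∑ k ∈ Icc 1 M, 1 / (k : ℝ) := by
              apply sum_le_sum_of_subset_of_nonneg
              · intro k hk
                rw [mem_filter, mem_Ioc] at hk
                rw [mem_Icc]
                omega
              · intro k _ _
                positivity
          _ ≤ 1 + Real.log M := by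
              have h9 := harmonic_le_one_add_log M
              rw [harmonic_eq_sum_Icc] at h9
              push_cast at h9
              simpa [one_div] using h9
      have h9 : ∑ k ∈ (Ioc 0 n).filter (fun k => M < k), Real.sqrt k / (k : ℝ) ^ 2 ≤
          2 / Real.sqrt M := by
        refine le_trans (le_of_eq ?_) (sum_tail M n hM)
        apply sum_congr _ fun _ _ => rfl
        ext k
        rw [mem_filter, mem_Ioc, mem_Ioc]
        omega
      have hs : 0 < Real.sqrt M := Real.sqrt_pos.2 (by exact_mod_cast hM)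
      have h10 : 3 * B * Real.sqrt M *
          ∑ k ∈ (Ioc 0 n).filter (fun k => M < k), Real.sqrt k / (k : ℝ) ^ 2 ≤ 6 * B := by
        calc 3 * B * Real.sqrt M *
          ∑ k ∈ (Ioc 0 n).filter (fun k => M < k), Real.sqrt k / (k : ℝ) ^ 2
            ≤ 3 * B * Real.sqrt M * (2 / Real.sqrt M) :=
              mul_le_mul_of_nonneg_left h9 (by positivity)
          _ = 6 * B := by
              field_simp
              ring
      linarith
    have h6 := norm_add₃_le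
      (a := ∑ k ∈ Ioc 0 n, (∑ x ∈ discE (𝓞 K) k, F x) *
        (((k : ℝ) ^ (-σ) - ((k + 1 : ℕ) : ℝ) ^ (-σ) : ℝ) : ℂ))
      (b := (∑ x ∈ discE (𝓞 K) n, F x) * ((((n + 1 : ℕ) : ℝ) ^ (-σ) : ℝ) : ℂ))
      (c := -(∑ x ∈ discE (𝓞 K) 0, F x))
    rw [norm_neg, ← sub_eq_add_neg] at h6
    have h7 : 0 ≤ B * Real.log M := mul_nonneg hB hlog
    nlinarith
  have h4 : Filter.Tendsto (fun n : ℕ => ∑ x ∈ discE (𝓞 K) n, F x *
      (((Nz x : ℝ) ^ (-σ) : ℝ) : ℂ))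
      Filter.atTop (nhds (∑' x, F x * (((Nz x : ℝ) ^ (-σ) : ℝ) : ℂ))) := by
    refine (summableC_F hF σ h1).hasSum.comp (Filter.tendsto_atTop_finset_of_monotone ?_ ?_)
    · intro m n hmn x hx
      rw [mem_disc] at hx ⊢
      exact hx.trans hmn
    · intro x
      exact ⟨Nz x, mem_disc.2 le_rfl⟩
  exact le_of_tendsto h4.norm (Filter.Eventually.of_forall key)

/-- The Euler factor of the real part. -/
theorem norm_factor_le {z : ℂ} {t : ℝ} (hz : ‖z‖ ≤ 1) (h0 : 0 ≤ t) (ht : t ≤ 1 / 2) :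
    ‖1 - z * (t : ℂ)‖ ≤ (1 - z.re * t) * Real.exp (2 * t ^ 2) := by
  have hre := abs_le.1 ((Complex.abs_re_le_norm z).trans hz)
  have h1 : 1 / 2 ≤ 1 - z.re * t := by nlinarith
  have hsq : z.re ^ 2 + z.im ^ 2 ≤ 1 := by
    have h2 : ‖z‖ ^ 2 = z.re * z.re + z.im * z.im := by
      rw [← Complex.normSq_eq_norm_sq, Complex.normSq_apply]
    have h3 : ‖z‖ ^ 2 ≤ 1 := pow_le_one₀ (norm_nonneg _) hz
    nlinarith
  have h2 : ‖1 - z * (t : ℂ)‖ ^ 2 = (1 - z.re * t) ^ 2 + (z.im * t) ^ 2 := by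
    rw [← Complex.normSq_eq_norm_sq, Complex.normSq_apply]
    simp
    ring
  have h3 : 1 + 2 * t ^ 2 ≤ Real.exp (2 * t ^ 2) := by
    have := Real.add_one_le_exp (2 * t ^ 2)
    linarith
  have h4 : (z.im * t) ^ 2 ≤ t ^ 2 := by
    have : z.im ^ 2 ≤ 1 := by nlinarith [sq_nonneg z.re]
    nlinarith [sq_nonneg t]
  have h5 : ‖1 - z * (t : ℂ)‖ ≤ (1 - z.re * t) * (1 + 2 * t ^ 2) := by
    apply abs_le_of_sq_le_sq' _ (by positivity) |>.2
    rw [h2]
    have h6 : (1 / 4 : ℝ) ≤ (1 - z.re * t) ^ 2 := by nlinarith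
    have h7 : (1 + 4 * t ^ 2) ≤ (1 + 2 * t ^ 2) ^ 2 := by nlinarith [sq_nonneg (t ^ 2)]
    calc (1 - z.re * t) ^ 2 + (z.im * t) ^ 2 ≤ (1 - z.re * t) ^ 2 * (1 + 4 * t ^ 2) := by
          nlinarith [sq_nonneg t]
      _ ≤ (1 - z.re * t) ^ 2 * (1 + 2 * t ^ 2) ^ 2 :=
          mul_le_mul_of_nonneg_left h7 (sq_nonneg _)
      _ = ((1 - z.re * t) * (1 + 2 * t ^ 2)) ^ 2 := by ring
  exact h5.trans (mul_le_mul_of_nonneg_left h3 (by linarith))

theorem Prm.sum_inv_sq (D : Prm ι) : ∃ C : ℝ, 0 ≤ C ∧ ∀ (σ : ℝ) (s : Finset ι), 1 < σ →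
    ∑ q ∈ s, ((Nz (D.e q) : ℝ) ^ (-σ)) ^ 2 ≤ C := by
  classical
  refine ⟨∑' x : 𝓞 K, (Nz x : ℝ) ^ (-(2 : ℝ)), tsum_nonneg fun x => Nz_nonneg_rpow x 2,
    fun σ s h1 => ?_⟩
  have h2 : ∀ q ∈ s, ((Nz (D.e q) : ℝ) ^ (-σ)) ^ 2 ≤ (Nz (D.e q) : ℝ) ^ (-(2 : ℝ)) := by
    intro q _
    have h3 : (1 : ℝ) ≤ Nz (D.e q) := by
      have : 1 ≤ Nz (D.e q) := (D.two_le q).trans' (by norm_num)
      exact_mod_cast this
    rw [← Real.rpow_natCast, ← Real.rpow_mul (by positivity)]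
    apply Real.rpow_le_rpow_of_exponent_le h3
    push_cast
    linarith
  refine (sum_le_sum h2).trans ?_
  rw [← sum_image (s := s) (g := D.e) (f := fun x : 𝓞 K => (Nz x : ℝ) ^ (-(2 : ℝ)))
    (fun x _ y _ h => D.e_inj h)]
  exact (summable_Nz 2 (by norm_num)).sum_le_tsum _ fun x _ => Nz_nonneg_rpow x 2

/-- The Euler product of the real part of a complex character is bounded by the partial sums. -/
theorem Prm.charB_of (D : Prm ι) (B : ℝ) (hB : 0 ≤ B) : ∃ C : ℝ, 1 ≤ C ∧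
    ∀ (F : 𝓞 K → ℂ) (M : ℕ), MulC D F → 1 ≤ M →
    (∀ X : ℕ, 1 ≤ X → ‖∑ x ∈ discE (𝓞 K) X, F x‖ ≤ B * Real.sqrt (M * X)) →
    CharB (fun q : ι => (F (D.e q)).re) (C * (1 + Real.log M)) := by
  classical
  obtain ⟨C, hC1, hC⟩ := tsumC_le_log B hB
  obtain ⟨C2, hC20, hC2⟩ := D.sum_inv_sq
  have hexp : 1 ≤ Real.exp (2 * C2) := Real.one_le_exp (by positivity)
  refine ⟨2 * C * Real.exp (2 * C2), by nlinarith, fun F M hF hM hX =>
    ⟨fun q => (Complex.abs_re_le_norm _).trans (hF.le _), ?_, ?_⟩⟩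
  · have hlog : 0 ≤ Real.log M := Real.log_nonneg (by exact_mod_cast hM)
    have h1 : 1 ≤ 2 * C * Real.exp (2 * C2) := by nlinarith
    nlinarith
  · intro σ h1 h3
    have hL := hC F M hF.le hM hX σ h1 h3
    have h4 : Filter.Tendsto (fun n : ℕ => ∑' x, if D.NoDiv (pr ι n) x then
        F x * (((Nz x : ℝ) ^ (-σ) : ℝ) : ℂ) else 0) Filter.atTop
        (nhds (∑' x : 𝓞 K, if x = 1 then (1 : ℂ) else 0)) := by
      refine tendsto_tsum_of_dominated_convergence (summable_Nz σ h1) ?_ ?_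
      · intro x
        apply tendsto_const_nhds.congr'
        by_cases hx : x = 1
        · refine Filter.Eventually.of_forall fun n => ?_
          have h5 : (if D.NoDiv (pr ι n) x then F x * (((Nz x : ℝ) ^ (-σ) : ℝ) : ℂ) else 0) =
              1 := by
            rw [hx, if_pos (D.noDiv_one _), hF.one, Nz_one]
            simp
          rw [if_pos hx]
          exact h5.symm
        · rw [if_neg hx]
          by_cases hP : D.P x
          · obtain ⟨q, hq⟩ := D.ex x hP hx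
            filter_upwards [Filter.eventually_ge_atTop (Nz (D.e q))] with n hn
            have h5 : (if D.NoDiv (pr ι n) x then F x * (((Nz x : ℝ) ^ (-σ) : ℝ) : ℂ) else 0) =
                0 := by
              rw [if_neg]
              intro h5
              exact h5 q (mem_pr.2 (by rw [D.N_eq]; exact hn)) hq
            exact h5.symm
          · refine Filter.Eventually.of_forall fun n => ?_
            have h5 : (if D.NoDiv (pr ι n) x then F x * (((Nz x : ℝ) ^ (-σ) : ℝ) : ℂ) else 0) =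
                0 := by
              rw [hF.zero x hP, zero_mul]
              simp
            exact h5.symm
      · exact Filter.Eventually.of_forall fun n x =>
          termC_ite_le hF.le σ (fun x => D.NoDiv (pr ι n) x) x
    rw [tsum_ite_eq] at h4
    have h4' := h4.norm
    rw [norm_one] at h4'
    have h5 : ∀ᶠ n : ℕ in Filter.atTop, (1 / 2 : ℝ) ≤ ‖∑' x, if D.NoDiv (pr ι n) x then
        F x * (((Nz x : ℝ) ^ (-σ) : ℝ) : ℂ) else 0‖ := by
      filter_upwards [h4'.eventually (eventually_gt_nhds (by norm_num : (1 / 2 : ℝ) < 1))]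
        with n hn
      exact hn.le
    filter_upwards [h5] with n hn
    rw [← sieveC D hF σ h1, norm_mul, norm_prod] at hn
    have ht0 : ∀ q, 0 ≤ (Nz (D.e q) : ℝ) ^ (-σ) := fun q => Nz_nonneg_rpow _ σ
    have hpos : ∀ q, 0 < 1 - (F (D.e q)).re * (Nz (D.e q) : ℝ) ^ (-σ) := by
      intro q
      have hre := abs_le.1 ((Complex.abs_re_le_norm (F (D.e q))).trans (hF.le _))
      have := D.rpow_le_half σ h1 q
      have := ht0 q
      nlinarith
    have h6 : 0 < ∏ q ∈ pr ι n, (1 - (F (D.e q)).re * (Nz (D.e q) : ℝ) ^ (-σ)) :=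
      prod_pos fun q _ => hpos q
    have h7 : ∏ q ∈ pr ι n, (1 - (F (D.e q)).re * (PS.N q : ℝ) ^ (-σ))⁻¹ =
        (∏ q ∈ pr ι n, (1 - (F (D.e q)).re * (Nz (D.e q) : ℝ) ^ (-σ)))⁻¹ := by
      rw [← prod_inv_distrib]
      apply prod_congr rfl
      intro q _
      rw [D.N_eq]
    rw [h7, inv_le_iff_one_le_mul₀ h6]
    have h8 : ∏ q ∈ pr ι n, ‖1 - F (D.e q) * (((Nz (D.e q) : ℝ) ^ (-σ) : ℝ) : ℂ)‖ ≤
        (∏ q ∈ pr ι n, (1 - (F (D.e q)).re * (Nz (D.e q) : ℝ) ^ (-σ))) * Real.exp (2 * C2) := by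
      calc ∏ q ∈ pr ι n, ‖1 - F (D.e q) * (((Nz (D.e q) : ℝ) ^ (-σ) : ℝ) : ℂ)‖
          ≤ ∏ q ∈ pr ι n, ((1 - (F (D.e q)).re * (Nz (D.e q) : ℝ) ^ (-σ)) *
              Real.exp (2 * ((Nz (D.e q) : ℝ) ^ (-σ)) ^ 2)) :=
            prod_le_prod (fun q _ => norm_nonneg _) fun q _ =>
              norm_factor_le (hF.le _) (ht0 q) (D.rpow_le_half σ h1 q)
        _ = (∏ q ∈ pr ι n, (1 - (F (D.e q)).re * (Nz (D.e q) : ℝ) ^ (-σ))) *
              Real.exp (2 * ∑ q ∈ pr ι n, ((Nz (D.e q) : ℝ) ^ (-σ)) ^ 2) := by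
            rw [prod_mul_distrib, mul_sum, Real.exp_sum]
        _ ≤ _ := by
            apply mul_le_mul_of_nonneg_left _ h6.le
            apply Real.exp_le_exp.2
            have := hC2 σ (pr ι n) h1
            linarith
    have h9 : ‖∑' x, F x * (((Nz x : ℝ) ^ (-σ) : ℝ) : ℂ)‖ *
        ∏ q ∈ pr ι n, ‖1 - F (D.e q) * (((Nz (D.e q) : ℝ) ^ (-σ) : ℝ) : ℂ)‖ ≤
        (C * (1 + Real.log M)) *
          ((∏ q ∈ pr ι n, (1 - (F (D.e q)).re * (Nz (D.e q) : ℝ) ^ (-σ))) *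
            Real.exp (2 * C2)) :=
      mul_le_mul hL h8 (prod_nonneg fun q _ => norm_nonneg _) ((norm_nonneg _).trans hL)
    have h10 := hn.trans h9
    calc (1 : ℝ) = 2 * (1 / 2) := by norm_num
      _ ≤ 2 * ((C * (1 + Real.log M)) *
          ((∏ q ∈ pr ι n, (1 - (F (D.e q)).re * (Nz (D.e q) : ℝ) ^ (-σ))) *
            Real.exp (2 * C2))) := by linarith
      _ = _ := by ring

end

end Pool.Agent.Lib.MP_1a91b9_ntK
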