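import Pool.Agent.Lib.MP_1a91b9_ntX.R.Th
import Pool.Agent.Lib.MP_1a91b9_ntH.R.Bij

/-!
# MP_1a91b9_nt (cubic twists), part R: the cubic residue symbol

The symbol is `cs P x : ZMod 3` of `MP_1a91b9_ntX.R.Cs`: `w3 (cs P x) = x ^ ((N P - 1) / 3)` modulo `P`.
Cubic reciprocity for all pairs of different primes congruent to `1` modulo `3`, the supplementary laws for
`w` and `√-3`, the kernel of the symbol and its surjectivity.
-/

set_option autoImplicit false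

namespace Pool.Agent.Lib.MP_1a91b9_ntK

open NumberField Pool.Agent.Lib.MP_1a91b9_ntT
open Pool.Agent.Lib.MP_1a91b9_ntX.R
open Pool.Agent.Lib.MP_1a91b9_ntT.S4 (omO omO_eq)
open Pool.Agent.Lib.MP_1a91b9_ntH (wO s3 Nz cp wO_quad s3_sq prime_s3 isEis isUnit_iff_Nz)

theorem omO_eq_wO : omO = wO := rfl

theorem s3_dvd_three : s3 ∣ (3 : 𝓞 K) := ⟨-s3, by linear_combination s3_sq⟩

theorem three_eq : (3 : 𝓞 K) = s3 * -s3 := by linear_combination s3_sq

/-- Two associated primes divide each other. -/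
theorem dvd_symm' {p q : 𝓞 K} (hp : Prime p) (hq : Prime q) (h : p ∣ q) : q ∣ p :=
  (hp.irreducible.dvd_symm hq.irreducible) h

/-- A prime which is not associated with `√-3`. -/
theorem g3_of {p : 𝓞 K} (hp : Prime p) (h : ¬ s3 ∣ p) : G3 (Ideal.span {p}) := by
  refine ⟨(Ideal.span_singleton_prime hp.ne_zero).2 hp, ?_, ?_⟩
  · intro h0
    exact hp.ne_zero (Ideal.span_singleton_eq_bot.1 h0)
  · intro h3
    have h4 := Ideal.mem_span_singleton.1 h3
    rw [three_eq] at h4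
    have h5 : p ∣ s3 := by
      rcases hp.dvd_or_dvd h4 with h6 | h6
      · exact h6
      · exact (dvd_neg).1 h6
    exact h (dvd_symm' hp prime_s3 h5)

theorem not_s3_dvd {p : 𝓞 K} (h : (3 : 𝓞 K) ∣ p - 1) : ¬ s3 ∣ p := by
  intro h1
  have h2 := dvd_sub h1 (s3_dvd_three.trans h)
  rw [sub_sub_cancel] at h2
  exact prime_s3.not_unit (isUnit_of_dvd_one h2)

theorem g3 {p : 𝓞 K} (hp : Prime p) (h : (3 : 𝓞 K) ∣ p - 1) : G3 (Ideal.span {p}) :=
  g3_of hp (not_s3_dvd h)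

/-- A unit which is `1` modulo `3` is `1`. -/
theorem unit3 {u : 𝓞 K} (hu : IsUnit u) (h : (3 : 𝓞 K) ∣ u - 1) : u = 1 := by
  obtain ⟨p, rfl⟩ := Pool.Agent.Lib.MP_1a91b9_ntH.exists_coords u
  have h1 := (isEis.isUnit_iff p.1 p.2).1 hu
  obtain ⟨t, ht⟩ := h
  obtain ⟨q, rfl⟩ := Pool.Agent.Lib.MP_1a91b9_ntH.exists_coords t
  have h2 : ((p.1 - 1 : ℤ) : 𝓞 K) + ((p.2 : ℤ) : 𝓞 K) * wO =
      ((3 * q.1 : ℤ) : 𝓞 K) + ((3 * q.2 : ℤ) : 𝓞 K) * wO := by
    push_cast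
    linear_combination ht
  obtain ⟨e1, e2⟩ := isEis.eq_iff.1 h2
  unfold Pool.Agent.Lib.MP_1a91b9_ntH.R.nm at h1
  have h3 : (2 * p.1 - p.2) ^ 2 + 3 * p.2 ^ 2 = 4 := by linear_combination 4 * h1
  have h4 : p.2 ^ 2 ≤ 1 := by nlinarith [sq_nonneg (2 * p.1 - p.2)]
  have h5 : -1 ≤ p.2 ∧ p.2 ≤ 1 := by constructor <;> nlinarith
  have h6 : p.2 = 0 := by omega
  rw [h6] at h1
  have h7 : p.1 * p.1 = 1 := by linarith
  rcases Int.eq_one_or_neg_one_of_mul_eq_one h7 with h8 | h8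
  · rw [h8, h6]; simp
  · exfalso; omega

/-- Different primes congruent to `1` modulo `3` are not associated. -/
theorem not_dvd3 {p q : 𝓞 K} (hp : Prime p) (hq : Prime q) (h1 : (3 : 𝓞 K) ∣ p - 1)
    (h2 : (3 : 𝓞 K) ∣ q - 1) (hne : p ≠ q) : ¬ p ∣ q := by
  intro h
  obtain ⟨u, hu⟩ := (hp.irreducible.associated_of_dvd hq.irreducible h)
  apply hne
  have h3 : (3 : 𝓞 K) ∣ (u : 𝓞 K) - 1 := by
    obtain ⟨a, ha⟩ := h1
    obtain ⟨b, hb⟩ := h2
    exact ⟨b - a * u, by linear_combination hb - u * ha + hu⟩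
  rw [← hu, unit3 u.isUnit h3, mul_one]

theorem not_mem3 {p q : 𝓞 K} (hp : Prime p) (hq : Prime q) (h1 : (3 : 𝓞 K) ∣ p - 1)
    (h2 : (3 : 𝓞 K) ∣ q - 1) (hne : p ≠ q) : q ∉ Ideal.span {p} := fun h =>
  not_dvd3 hp hq h1 h2 hne (Ideal.mem_span_singleton.1 h)

theorem cjr_three {p : 𝓞 K} (h : (3 : 𝓞 K) ∣ p - 1) : (3 : 𝓞 K) ∣ cjr p - 1 := by
  obtain ⟨a, ha⟩ := h
  refine ⟨cjr a, ?_⟩
  have := congrArg cjr ha
  rwa [map_sub, map_one, map_mul, map_ofNat] at this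

theorem cjr_prime {p : 𝓞 K} (hp : Prime p) : Prime (cjr p) :=
  (MulEquiv.prime_iff (cjr : 𝓞 K ≃* 𝓞 K)).2 hp

private theorem aux2 : ∀ x : ZMod 3, x + x = 0 → x = 0 := by decide

/-- The symbol of a prime and its conjugate is trivial. -/
theorem cs_conj {p : 𝓞 K} (hp : Prime p) (h : (3 : 𝓞 K) ∣ p - 1) (hne : p ≠ cjr p) :
    cs (Ideal.span {p}) (cjr p) = 0 := by
  have hc := cjr_prime hp
  have hc3 := cjr_three h
  have hG := g3 hp h
  obtain ⟨a, b, hab⟩ := coord p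
  have hcj : cjr p = ((2 * a - b : ℤ) : 𝓞 K) - p := by
    rw [hab]
    simp only [map_add, map_mul, map_intCast, cjr_om]
    push_cast
    ring
  have hmem : cjr p ∉ Ideal.span {p} := not_mem3 hp hc h hc3 hne
  have htm : ((2 * a - b : ℤ) : 𝓞 K) ∉ Ideal.span {p} := by
    intro h0
    apply hmem
    rw [hcj]
    exact Ideal.sub_mem _ h0 (Ideal.mem_span_singleton_self p)
  -- the trace is not divisible by `3`
  have h3 : ¬ (3 : ℤ) ∣ 2 * a - b := by
    rintro ⟨c, hcc⟩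
    obtain ⟨x, hx⟩ := h
    obtain ⟨y, hy⟩ := hc3
    have h4 : (3 : 𝓞 K) * (x + y - c) = -2 := by
      have h5 : ((2 * a - b : ℤ) : 𝓞 K) = p + cjr p := by rw [hcj]; ring
      rw [hcc] at h5
      push_cast at h5
      linear_combination -hx - hy - h5
    have h6 : IsUnit (s3 : 𝓞 K) := by
      have h7 : s3 ∣ (1 : 𝓞 K) := by
        have h8 : s3 ∣ (3 : 𝓞 K) + 3 * (x + y - c) :=
          dvd_add s3_dvd_three (s3_dvd_three.mul_right _)
        rw [h4] at h8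
        have e : (3 : 𝓞 K) + -2 = 1 := by norm_num
        rwa [e] at h8
      exact isUnit_of_dvd_one h7
    exact prime_s3.not_unit h6
  have hcop : IsCoprime p ((2 * a - b : ℤ) : 𝓞 K) := coprime_of_not_mem hG htm
  have hcop2 : IsCoprime (cjr p) ((2 * a - b : ℤ) : 𝓞 K) := by
    have h1 := hcop.map (cjr : 𝓞 K →+* 𝓞 K)
    rw [map_intCast] at h1
    exact h1
  have e1 : cs (Ideal.span {p}) (cjr p) = cs (Ideal.span {p}) ((2 * a - b : ℤ) : 𝓞 K) := by
    refine cs_congr hG hmem ?_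
    rw [hcj]
    have e : ((2 * a - b : ℤ) : 𝓞 K) - p - ((2 * a - b : ℤ) : 𝓞 K) = -p := by ring
    rw [e]
    exact neg_mem (Ideal.mem_span_singleton_self p)
  rw [e1, cs_rat h hG _ h3 htm]
  -- the value of `X`
  have e2 : X ((2 * a - b : ℤ) : 𝓞 K) (p * cjr p) = 0 := by
    rw [mul_cjr]
    have := X_int h3 ((Ideal.absNorm (Ideal.span {p}) : ℕ) : ℤ) (by
      rw [Int.cast_natCast, ← mul_cjr]
      exact hcop.mul_left hcop2)
    rwa [Int.cast_natCast] at this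
  rw [X_mul h3 hcop hcop2] at e2
  have e3 : X ((2 * a - b : ℤ) : 𝓞 K) (cjr p) = X ((2 * a - b : ℤ) : 𝓞 K) p := by
    rw [← X_neg h3 hcop]
    refine X_congr h3 hcop2 ?_
    rw [hcj]
    exact ⟨1, by ring⟩
  rw [e3] at e2
  exact aux2 _ e2

private theorem aux3 : ∀ a b c d : ZMod 3, a + b + c = 0 → c + d + a = 0 → d = b := by decide

/-- Cubic reciprocity. -/
theorem cs_recip {p q : 𝓞 K} (hp : Prime p) (hq : Prime q) (h1 : (3 : 𝓞 K) ∣ p - 1)
    (h2 : (3 : 𝓞 K) ∣ q - 1) (hne : p ≠ q) :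
    cs (Ideal.span {p}) q = cs (Ideal.span {q}) p := by
  have hGp := g3 hp h1
  have hGq := g3 hq h2
  by_cases hc : q = cjr p
  · have hne2 : q ≠ cjr q := by
      intro h
      apply hne
      rw [hc, cjr_cjr] at h
      rw [hc]
      exact h.symm
    have h3 := cs_conj hp h1 (hc ▸ hne)
    have h4 := cs_conj hq h2 hne2
    have e : cjr q = p := by rw [hc, cjr_cjr]
    rw [e] at h4
    rw [h4, hc, h3]
  · -- `N p` is not divisible by `q`
    have hN : ∀ x y : 𝓞 K, Prime x → Prime y → (3 : 𝓞 K) ∣ x - 1 → (3 : 𝓞 K) ∣ y - 1 → x ≠ y →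
        y ≠ cjr x → ((Ideal.absNorm (Ideal.span {x}) : ℕ) : 𝓞 K) ∉ Ideal.span {y} := by
      intro x y hx hy h3 h4 h5 h6 h7
      rw [← mul_cjr, Ideal.mem_span_singleton] at h7
      rcases hy.dvd_or_dvd h7 with h8 | h8
      · exact not_dvd3 hy hx h4 h3 h5.symm h8
      · exact not_dvd3 hy (cjr_prime hx) h4 (cjr_three h3) h6 h8
    have hNp := hN p q hp hq h1 h2 hne hc
    have hNq := hN q p hq hp h2 h1 hne.symm (by
      intro h
      apply hc
      rw [h, cjr_cjr])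
    have g1 := gs h1 hGp hGq hNp
    have g2 := gs h2 hGq hGp hNq
    rw [cs_mul hGq hNp (not_mem3 hq hp h2 h1 hne.symm)] at g1
    rw [cs_mul hGp hNq (not_mem3 hp hq h1 h2 hne)] at g2
    exact aux3 _ _ _ _ g1 g2

theorem absNorm_eq_Nz (p : 𝓞 K) : Ideal.absNorm (Ideal.span {p}) = Nz p :=
  Ideal.absNorm_span_singleton p

/-- The supplementary law for `w`. -/
theorem cs_w {p : 𝓞 K} (hp : Prime p) (m n : ℤ) (h : p = 1 + 3 * ((m : 𝓞 K) + n * wO)) :
    cs (Ideal.span {p}) wO = -((m : ZMod 3) + n) := by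
  have h3 : (3 : 𝓞 K) ∣ p - 1 := ⟨(m : 𝓞 K) + n * wO, by rw [h]; ring⟩
  have hG := g3 hp h3
  rw [← omO_eq_wO, cs_om hG, absNorm_eq_Nz]
  have h1 := Pool.Agent.Lib.MP_1a91b9_ntH.Nz_coords (1 + 3 * m) (3 * n)
  have e : ((1 + 3 * m : ℤ) : 𝓞 K) + ((3 * n : ℤ) : 𝓞 K) * wO = p := by
    rw [h]; push_cast; ring
  rw [e] at h1
  have h2 : (Nz p : ℤ) = 3 * (2 * m - n + 3 * (m ^ 2 - m * n + n ^ 2)) + 1 := by
    rw [h1]; ring
  have h4 : (((Nz p - 1) / 3 : ℕ) : ℤ) = 2 * m - n + 3 * (m ^ 2 - m * n + n ^ 2) := by omega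
  have h5 := congrArg (Int.cast : ℤ → ZMod 3) h4
  rw [Int.cast_natCast] at h5
  rw [h5]
  push_cast
  have e3 : (3 : ZMod 3) = 0 := by decide
  have e2 : (2 : ZMod 3) = -1 := by decide
  rw [e3, e2]
  ring

private theorem aux4 : ∀ x n : ZMod 3, x + x = n → x = -n := by decide

/-- The supplementary law for `√-3`. -/
theorem cs_s3 {p : 𝓞 K} (hp : Prime p) (m n : ℤ) (h : p = 1 + 3 * ((m : 𝓞 K) + n * wO)) :
    cs (Ideal.span {p}) s3 = -(n : ZMod 3) := by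
  have h3 : (3 : 𝓞 K) ∣ p - 1 := ⟨(m : 𝓞 K) + n * wO, by rw [h]; ring⟩
  have hG := g3 hp h3
  have hs : s3 ∉ Ideal.span {p} := by
    intro h0
    have h1 := Ideal.mem_span_singleton.1 h0
    exact not_s3_dvd h3 (dvd_symm' hp prime_s3 h1)
  have h1 := cs_three h3 hG
  have e : p = ((1 + 3 * m : ℤ) : 𝓞 K) + ((3 * n : ℤ) : 𝓞 K) * omO := by
    rw [h, omO_eq_wO]; push_cast; ring
  rw [e, Y_eq, ← e] at h1
  have e2 : (3 : 𝓞 K) = -(s3 * s3) := by linear_combination s3_sq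
  have hss : s3 * s3 ∉ Ideal.span {p} := fun h0 => (hG.pr.mem_or_mem h0).elim hs hs
  rw [e2, cs_neg hG hss, cs_mul hG hs hs] at h1
  exact aux4 _ _ h1

section

variable {P : Ideal (𝓞 K)}

/-- The kernel of the symbol consists of the cubes. -/
theorem cs_eq_zero_iff (h : G3 P) {x : 𝓞 K} (hx : x ∉ P) :
    cs P x = 0 ↔ ∃ y : 𝓞 K, x - y ^ 3 ∈ P := by
  classical
  have i0 := h.pr
  have i1 : P.IsMaximal := Ideal.IsPrime.isMaximal h.pr h.ne
  let _ : Field (𝓞 K ⧸ P) := Ideal.Quotient.field _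
  have hfin : Finite (𝓞 K ⧸ P) := Ideal.finiteQuotientOfFreeOfNeBot P h.ne
  let _ : Fintype (𝓞 K ⧸ P) := Fintype.ofFinite _
  have hcard : Fintype.card (𝓞 K ⧸ P) = Ideal.absNorm P := by
    rw [Ideal.absNorm_apply, Submodule.cardQuot_apply, Nat.card_eq_fintype_card]
  constructor
  · intro h0
    have h1 := cs_spec h hx
    rw [h0, w3_zero, Units.val_one] at h1
    have hx' : (Ideal.Quotient.mk P x) ≠ 0 := fun h0 => hx (Ideal.Quotient.eq_zero_iff_mem.1 h0)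
    have h2 : (Ideal.Quotient.mk P x) ^ ((Ideal.absNorm P - 1) / 3) = 1 := by
      have := Ideal.Quotient.eq_zero_iff_mem.2 h1
      rw [map_sub, map_one, map_pow, sub_eq_zero] at this
      exact this.symm
    obtain ⟨g, hg⟩ := IsCyclic.exists_generator (α := (𝓞 K ⧸ P)ˣ)
    obtain ⟨k, hk⟩ := (mem_powers_iff_mem_zpowers.2 (hg (Units.mk0 _ hx')))
    have hk' : (g : 𝓞 K ⧸ P) ^ k = Ideal.Quotient.mk P x := by
      have := congrArg Units.val hk
      simpa using this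
    have ho : orderOf g = Ideal.absNorm P - 1 := by
      rw [orderOf_eq_card_of_forall_mem_zpowers hg, Nat.card_eq_fintype_card,
        Fintype.card_units, hcard]
    have h3 : g ^ (k * ((Ideal.absNorm P - 1) / 3)) = 1 := by
      apply Units.ext
      rw [Units.val_pow_eq_pow_val, pow_mul, hk', h2, Units.val_one]
    have h4 := orderOf_dvd_of_pow_eq_one h3
    rw [ho] at h4
    obtain ⟨N, hN⟩ := h.dvd
    have hlt := h.one_lt
    have hN0 : 0 < N := by omega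
    have h5 : (Ideal.absNorm P - 1) / 3 = N := by omega
    rw [h5, hN] at h4
    have h6 : 3 ∣ k := Nat.dvd_of_mul_dvd_mul_right hN0 h4
    obtain ⟨j, hj⟩ := h6
    obtain ⟨y, hy⟩ := Ideal.Quotient.mk_surjective ((g : 𝓞 K ⧸ P) ^ j)
    refine ⟨y, ?_⟩
    rw [← Ideal.Quotient.eq_zero_iff_mem, map_sub, map_pow, hy, ← pow_mul, mul_comm j 3, ← hj, hk',
      sub_self]
  · rintro ⟨y, hy⟩
    have hy0 : y ∉ P := by
      intro h0
      apply hx
      have h1 := Ideal.add_mem _ hy (Ideal.pow_mem_of_mem P h0 3 (by norm_num))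
      rwa [sub_add_cancel] at h1
    rw [cs_congr h hx hy, cs_pow h hy0]
    have e3 : ((3 : ℕ) : ZMod 3) = 0 := by decide
    rw [e3, zero_mul]

/-- The symbol takes every value. -/
theorem exists_cs (h : G3 P) (c : ZMod 3) : ∃ x : 𝓞 K, x ∉ P ∧ cs P x = c := by
  classical
  have i0 := h.pr
  have i1 : P.IsMaximal := Ideal.IsPrime.isMaximal h.pr h.ne
  let _ : Field (𝓞 K ⧸ P) := Ideal.Quotient.field _
  have hfin : Finite (𝓞 K ⧸ P) := Ideal.finiteQuotientOfFreeOfNeBot P h.ne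
  let _ : Fintype (𝓞 K ⧸ P) := Fintype.ofFinite _
  have hcard : Fintype.card (𝓞 K ⧸ P) = Ideal.absNorm P := by
    rw [Ideal.absNorm_apply, Submodule.cardQuot_apply, Nat.card_eq_fintype_card]
  obtain ⟨g, hg⟩ := IsCyclic.exists_generator (α := (𝓞 K ⧸ P)ˣ)
  have ho : orderOf g = Ideal.absNorm P - 1 := by
    rw [orderOf_eq_card_of_forall_mem_zpowers hg, Nat.card_eq_fintype_card,
      Fintype.card_units, hcard]
  obtain ⟨y, hy⟩ := Ideal.Quotient.mk_surjective (g : 𝓞 K ⧸ P)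
  have hy0 : y ∉ P := by
    intro h0
    rw [← Ideal.Quotient.eq_zero_iff_mem, hy] at h0
    exact g.ne_zero h0
  have hcs : cs P y ≠ 0 := by
    intro h0
    have h1 := cs_spec h hy0
    rw [h0, w3_zero, Units.val_one, ← Ideal.Quotient.eq_zero_iff_mem, map_sub, map_one, map_pow,
      hy, sub_eq_zero] at h1
    have h3 : g ^ ((Ideal.absNorm P - 1) / 3) = 1 := by
      apply Units.ext
      rw [Units.val_pow_eq_pow_val, ← h1, Units.val_one]
    have h4 := orderOf_dvd_of_pow_eq_one h3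
    rw [ho] at h4
    have hlt := h.one_lt
    obtain ⟨N, hN⟩ := h.dvd
    have h5 := Nat.le_of_dvd (by omega) h4
    omega
  have key : ∀ a c : ZMod 3, a ≠ 0 → ∃ k : Fin 3, ((k : ℕ) : ZMod 3) * a = c := by decide
  obtain ⟨k, hk⟩ := key _ c hcs
  refine ⟨y ^ (k : ℕ), fun h0 => hy0 (h.pr.mem_of_pow_mem _ h0), ?_⟩
  rw [cs_pow h hy0, hk]

end

end Pool.Agent.Lib.MP_1a91b9_ntK
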