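import Pool.Agent.Lib.MP_1a91b9_ntK.D.Defs
import Pool.Agent.Lib.MP_1a91b9_ntK.R.Sym3
import Pool.Agent.Lib.MP_1a91b9_ntH.R.Ring

/-!
# MP_1a91b9_nt (cubic twists), part R: the primes `≡ 1` modulo `3` of `O = ℤ[w]`, the cubic symbols,
the system of the symbols and classes
-/

set_option autoImplicit false

namespace Pool.Agent.Lib.MP_1a91b9_ntK

open NumberField Finset Pool.Agent.Lib.MP_1a91b9_ntT
open Pool.Agent.Lib.MP_1a91b9_ntX.R (cs)
open Pool.Agent.Lib.MP_1a91b9_ntH (wO s3 Nz Nz_two_le Nz_fin PS nm pr Sx)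

noncomputable section

/-- The primes `≡ 1` modulo `3`: every prime ideal prime to `3` has exactly one such generator. -/
def P3 : Type := {α : 𝓞 K // Prime α ∧ (3 : 𝓞 K) ∣ α - 1}

instance : DecidableEq P3 := Classical.decEq _

instance : PS P3 where
  N q := Nz q.1
  two_le q := Nz_two_le q.2.1
  fin n := by
    have h := (Nz_fin n).preimage (f := (Subtype.val : P3 → 𝓞 K)) Subtype.val_injective.injOn
    exact h

/-- The cubic symbol modulo the prime `p`. -/
def cq (p : P3) (x : 𝓞 K) : ZMod 3 := cs (Ideal.span {p.1}) x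

/-- The system of the cubic symbols and of the classes modulo `9` of the primes. -/
def d3 : Dat3 P3 where
  s q p := cq p q.1
  a q := cq q wO

/-- The elements `≡ 1` modulo `3`. -/
def In3 (x : 𝓞 K) : Prop := (3 : 𝓞 K) ∣ x - 1

/-- The element of a squarefree integer. -/
def DD3 (S : Finset P3) : 𝓞 K := ∏ q ∈ S, q.1

theorem PN_eq (q : P3) : PS.N q = Nz q.1 := rfl

end

end Pool.Agent.Lib.MP_1a91b9_ntK
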