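import Pool.Agent.Lib.MP_1a91b9_ntK.R.Defs
import Pool.Agent.Lib.MP_1a91b9_ntK.R.Eul

/-!
# MP_1a91b9_nt (cubic twists), part R: the elements `≡ 1` modulo `3`, factorisation, the class modulo `9`
-/

set_option autoImplicit false

namespace Pool.Agent.Lib.MP_1a91b9_ntK

open NumberField Finset Pool.Agent.Lib.MP_1a91b9_ntT
open Pool.Agent.Lib.MP_1a91b9_ntX.R (cs)
open Pool.Agent.Lib.MP_1a91b9_ntH (wO s3 Nz Nz_two_le Nz_fin PS nm pr Sx cp eq_cp cp_coords wO_quad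
  exists_coords Nz_coords Nz_mul Nz_one Nz_eq_zero isUnit_iff_Nz prime_s3 isEis s3_sq Zt mem_pr
  one_le_nm coords_inj)

noncomputable section

theorem in3_iff (x : 𝓞 K) : In3 x ↔ (cp x).1 % 3 = 1 ∧ (cp x).2 % 3 = 0 := by
  constructor
  · rintro ⟨t, ht⟩
    have h1 : x = ((1 + 3 * (cp t).1 : ℤ) : 𝓞 K) + ((3 * (cp t).2 : ℤ) : 𝓞 K) * wO := by
      have h2 := eq_cp t
      push_cast
      linear_combination ht + 3 * h2
    have h3 : cp x = (1 + 3 * (cp t).1, 3 * (cp t).2) := by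
      rw [h1]
      exact cp_coords _ _
    rw [h3]
    dsimp only
    omega
  · rintro ⟨h1, h2⟩
    obtain ⟨c, hc⟩ : ∃ c, (cp x).1 = 1 + 3 * c := ⟨((cp x).1 - 1) / 3, by omega⟩
    obtain ⟨d, hd⟩ : ∃ d, (cp x).2 = 3 * d := ⟨(cp x).2 / 3, by omega⟩
    refine ⟨(c : 𝓞 K) + d * wO, ?_⟩
    conv_lhs => rw [eq_cp x, hc, hd]
    push_cast
    ring

theorem in3_one : In3 1 := by
  unfold In3
  simp

theorem In3.mul {x y : 𝓞 K} (hx : In3 x) (hy : In3 y) : In3 (x * y) := by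
  obtain ⟨a, ha⟩ := hx
  obtain ⟨b, hb⟩ := hy
  exact ⟨a * y + b, by linear_combination y * ha + hb⟩

theorem In3.of_mul {x y : 𝓞 K} (hx : In3 x) (h : In3 (x * y)) : In3 y := by
  obtain ⟨a, ha⟩ := hx
  obtain ⟨b, hb⟩ := h
  exact ⟨b - a * y, by linear_combination hb - y * ha⟩

theorem in3_congr {x y : 𝓞 K} (h : (3 : 𝓞 K) ∣ x - y) : In3 x ↔ In3 y := by
  unfold In3
  constructor
  · intro hx
    have := dvd_sub hx h
    rwa [show x - 1 - (x - y) = y - 1 by ring] at this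
  · intro hy
    have := dvd_add hy h
    rwa [show y - 1 + (x - y) = x - 1 by ring] at this

theorem In3.Nz_mod {x : 𝓞 K} (hx : In3 x) : Nz x % 3 = 1 := by
  obtain ⟨h1, h2⟩ := (in3_iff x).1 hx
  have h4 := Nz_coords (cp x).1 (cp x).2
  rw [← eq_cp x] at h4
  obtain ⟨k, hk⟩ : ∃ k, (cp x).2 = 3 * k := ⟨(cp x).2 / 3, by omega⟩
  obtain ⟨l, hl⟩ : ∃ l, (cp x).1 = 1 + 3 * l := ⟨((cp x).1 - 1) / 3, by omega⟩
  rw [hl, hk] at h4
  have h5 : (Nz x : ℤ) = 1 + 3 * (2 * l + 3 * l ^ 2 - k - 3 * l * k + 3 * k ^ 2) := by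
    rw [h4]
    ring
  omega

theorem In3.ne_zero {x : 𝓞 K} (hx : In3 x) : x ≠ 0 := by
  intro h
  have h1 := hx.Nz_mod
  rw [Nz_eq_zero.2 h] at h1
  omega

theorem In3.not_s3 {x : 𝓞 K} (hx : In3 x) : ¬ s3 ∣ x := not_s3_dvd hx

theorem in3_coords {p q : ℤ} (h1 : p % 3 = 1) (h2 : q % 3 = 0) :
    In3 ((p : 𝓞 K) + q * wO) := by
  rw [in3_iff, cp_coords]
  exact ⟨h1, h2⟩

theorem exists_unit3 {x : 𝓞 K} (h3 : ¬ s3 ∣ x) : ∃ u : 𝓞 K, IsUnit u ∧ In3 (u * x) := by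
  obtain ⟨⟨p, q⟩, hx⟩ := exists_coords x
  dsimp only at hx
  have h5 : (p + q) % 3 ≠ 0 := by
    intro h
    apply h3
    obtain ⟨a, ha⟩ := Int.dvd_of_emod_eq_zero h
    refine ⟨-s3 * a + q * (1 + wO), ?_⟩
    have hp : (p : 𝓞 K) = 3 * a - q := by
      have : p = 3 * a - q := by omega
      rw [this]
      push_cast
      ring
    rw [hx, hp]
    have hs := s3_sq
    unfold s3 at hs ⊢
    linear_combination (a : 𝓞 K) * hs - 2 * (q : 𝓞 K) * wO_quad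
  have hw3 : wO * (wO * wO) = 1 := by linear_combination (wO - 1) * wO_quad
  have hw : IsUnit wO := IsUnit.of_mul_eq_one _ hw3
  obtain ⟨s, hs⟩ : ∃ s : ℤ, (s = 1 ∨ s = -1) ∧ (s * (p + q)) % 3 = 1 := by
    by_cases h : (p + q) % 3 = 1
    · exact ⟨1, Or.inl rfl, by omega⟩
    · exact ⟨-1, Or.inr rfl, by omega⟩
  have hsu : IsUnit (s : 𝓞 K) := by
    rcases hs.1 with h | h <;> rw [h] <;> simp
  have hq3 : (s * q) % 3 = 0 ∨ (s * q) % 3 = 1 ∨ (s * q) % 3 = 2 := by omega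
  have hsum : (s * p + s * q) % 3 = 1 := by
    have := hs.2
    rwa [mul_add] at this
  rcases hq3 with hq | hq | hq
  · refine ⟨s, hsu, ?_⟩
    have e : (s : 𝓞 K) * x = ((s * p : ℤ) : 𝓞 K) + ((s * q : ℤ) : 𝓞 K) * wO := by
      rw [hx]
      push_cast
      ring
    rw [e]
    exact in3_coords (by omega) hq
  · refine ⟨s * (wO * wO), hsu.mul (hw.mul hw), ?_⟩
    have e : (s : 𝓞 K) * (wO * wO) * x =
        ((s * q - s * p : ℤ) : 𝓞 K) + ((-(s * p) : ℤ) : 𝓞 K) * wO := by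
      rw [hx]
      push_cast
      linear_combination (s : 𝓞 K) * (p + q * (wO - 1)) * wO_quad
    rw [e]
    exact in3_coords (by omega) (by omega)
  · refine ⟨s * wO, hsu.mul hw, ?_⟩
    have e : (s : 𝓞 K) * wO * x =
        ((-(s * q) : ℤ) : 𝓞 K) + ((s * p - s * q : ℤ) : 𝓞 K) * wO := by
      rw [hx]
      push_cast
      linear_combination (s : 𝓞 K) * q * wO_quad
    rw [e]
    exact in3_coords (by omega) (by omega)

theorem eq_of_associated3 {x y : 𝓞 K} (hx : In3 x) (hy : In3 y) (h : Associated x y) : x = y := by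
  obtain ⟨u, hu⟩ := h
  have h1 : In3 (u : 𝓞 K) := In3.of_mul hx (hu ▸ hy)
  rw [unit3 u.isUnit h1, mul_one] at hu
  exact hu

theorem P3.prime (q : P3) : Prime q.1 := q.2.1

theorem P3.in3 (q : P3) : In3 q.1 := q.2.2

theorem P3.ne_zero (q : P3) : q.1 ≠ 0 := q.2.1.ne_zero

theorem P3.not_dvd {p q : P3} (h : p ≠ q) : ¬ p.1 ∣ q.1 :=
  not_dvd3 p.2.1 q.2.1 p.2.2 q.2.2 fun e => h (Subtype.ext e)

theorem P3.g3 (q : P3) : Pool.Agent.Lib.MP_1a91b9_ntX.R.G3 (Ideal.span {q.1}) :=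
  Pool.Agent.Lib.MP_1a91b9_ntK.g3 q.2.1 q.2.2

theorem P3.not_mem {p : P3} {x : 𝓞 K} : x ∉ Ideal.span {p.1} ↔ ¬ p.1 ∣ x := by
  rw [Ideal.mem_span_singleton]

theorem exists_prime_dvd3 {x : 𝓞 K} (hx : In3 x) (h1 : x ≠ 1) : ∃ q : P3, q.1 ∣ x := by
  have h2 : ¬ IsUnit x := fun h => h1 (unit3 h hx)
  obtain ⟨p, hp, hpx⟩ := WfDvdMonoid.exists_irreducible_factor h2 hx.ne_zero
  have h4 : ¬ s3 ∣ p := fun h => hx.not_s3 (h.trans hpx)
  obtain ⟨u, hu, hup⟩ := exists_unit3 h4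
  have h5 : Prime (u * p) := by
    have h6 : Associated p (u * p) := by
      obtain ⟨v, rfl⟩ := hu
      exact ⟨v, mul_comm _ _⟩
    exact h6.prime hp.prime
  exact ⟨⟨u * p, h5, hup⟩, (hu.mul_left_dvd).2 hpx⟩

theorem DD3_empty : DD3 ∅ = 1 := rfl

theorem DD3_insert {q : P3} {S : Finset P3} (h : q ∉ S) : DD3 (insert q S) = q.1 * DD3 S :=
  prod_insert h

theorem DD3_union {S T : Finset P3} (h : Disjoint S T) : DD3 (S ∪ T) = DD3 S * DD3 T :=
  prod_union h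

theorem DD3_in3 (S : Finset P3) : In3 (DD3 S) := by
  induction S using Finset.induction_on with
  | empty => exact in3_one
  | insert q S hq ih =>
    rw [DD3_insert hq]
    exact q.in3.mul ih

theorem Nz_DD3 (S : Finset P3) : Nz (DD3 S) = nm S := by
  induction S using Finset.induction_on with
  | empty => exact Nz_one
  | insert q S hq ih =>
    rw [DD3_insert hq, Nz_mul, ih, nm, nm, prod_insert hq]
    rfl

theorem dvd_DD3 {q : P3} {S : Finset P3} : q.1 ∣ DD3 S ↔ q ∈ S := by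
  constructor
  · intro h
    obtain ⟨p, hp, hqp⟩ := (q.prime.dvd_finsetProd_iff _).1 h
    by_contra hq
    exact P3.not_dvd (fun e : q = p => hq (by rw [e]; exact hp)) hqp
  · intro h
    exact dvd_prod_of_mem (fun q : P3 => q.1) h

theorem DD3_inj : Function.Injective DD3 := by
  intro S T h
  ext q
  rw [← dvd_DD3, ← dvd_DD3, h]

theorem DD3_squarefree (S : Finset P3) : Squarefree (DD3 S) := by
  rw [squarefree_iff_no_irreducibles (DD3_in3 S).ne_zero]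
  intro p hp hpp
  have hp' : Prime p := hp.prime
  have h1 : p ∣ DD3 S := (dvd_mul_right _ _).trans hpp
  obtain ⟨q, hq, hpq⟩ := (hp'.dvd_finsetProd_iff _).1 h1
  have h2 : Associated p q.1 := isEis.assoc_of_dvd hp' q.prime hpq
  have h3 : q.1 * q.1 ∣ DD3 S := (h2.symm.mul_mul h2.symm).dvd.trans hpp
  rw [← insert_erase hq, DD3_insert (notMem_erase q S)] at h3
  have h4 : q.1 ∣ DD3 (S.erase q) := (mul_dvd_mul_iff_left q.prime.ne_zero).1 h3
  exact notMem_erase q S (dvd_DD3.1 h4)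

theorem exists_DD3 {x : 𝓞 K} (hx : In3 x) (hs : Squarefree x) : ∃ S : Finset P3, DD3 S = x := by
  obtain ⟨n, hn⟩ : ∃ n, Nz x = n := ⟨_, rfl⟩
  induction n using Nat.strong_induction_on generalizing x with
  | _ n ih =>
    by_cases h1 : x = 1
    · exact ⟨∅, by rw [DD3_empty, h1]⟩
    · obtain ⟨q, y, hy⟩ := exists_prime_dvd3 hx h1
      have h2 : In3 y := In3.of_mul q.in3 (hy ▸ hx)
      have h3 : Squarefree y := hs.squarefree_of_dvd ⟨q.1, by rw [hy, mul_comm]⟩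
      have h4 : Nz y < n := by
        rw [← hn, hy, Nz_mul]
        have h5 := Nz_two_le q.prime
        have h6 : Nz y ≠ 0 := fun h => h2.ne_zero (Nz_eq_zero.1 h)
        nlinarith [Nat.pos_of_ne_zero h6]
      obtain ⟨S, hS⟩ := ih _ h4 h2 h3 rfl
      have h5 : q ∉ S := by
        intro hq
        have h6 : q.1 ∣ y := hS ▸ dvd_DD3.2 hq
        have h7 : q.1 * q.1 ∣ x := by
          rw [hy]
          exact mul_dvd_mul_left _ h6
        exact q.prime.not_isUnit (hs _ h7)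
      exact ⟨insert q S, by rw [DD3_insert h5, hS, hy]⟩

/-- The class modulo `9`: `cl3 (1 + 3 (m + n w)) = -(m + n)`. -/
def cl3 (x : 𝓞 K) : ZMod 3 := ((-(((cp x).1 - 1) / 3 + (cp x).2 / 3) : ℤ) : ZMod 3)

theorem cl3_of (m n : ℤ) : cl3 (1 + 3 * ((m : 𝓞 K) + n * wO)) = -((m : ZMod 3) + n) := by
  have e : (1 : 𝓞 K) + 3 * ((m : 𝓞 K) + n * wO) =
      ((1 + 3 * m : ℤ) : 𝓞 K) + ((3 * n : ℤ) : 𝓞 K) * wO := by
    push_cast
    ring
  have h : cp (1 + 3 * ((m : 𝓞 K) + n * wO)) = (1 + 3 * m, 3 * n) := by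
    rw [e]
    exact cp_coords _ _
  unfold cl3
  rw [h]
  dsimp only
  have h1 : (1 + 3 * m - 1) / 3 = m := by omega
  have h2 : 3 * n / 3 = n := by omega
  rw [h1, h2]
  push_cast
  rfl

theorem in3_form {x : 𝓞 K} (hx : In3 x) : ∃ m n : ℤ, x = 1 + 3 * ((m : 𝓞 K) + n * wO) := by
  obtain ⟨t, ht⟩ := hx
  refine ⟨(cp t).1, (cp t).2, ?_⟩
  have h := eq_cp t
  linear_combination ht + 3 * h

theorem cl3_one : cl3 1 = 0 := by
  have h := cl3_of 0 0
  simpa using h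

private theorem three_zmod : (3 : ZMod 3) = 0 := rfl

/-- The class of a product. -/
theorem cl3_mul {x y : 𝓞 K} (hx : In3 x) (hy : In3 y) : cl3 (x * y) = cl3 x + cl3 y := by
  obtain ⟨a, b, rfl⟩ := in3_form hx
  obtain ⟨c, d, rfl⟩ := in3_form hy
  have e : (1 + 3 * ((a : 𝓞 K) + b * wO)) * (1 + 3 * ((c : 𝓞 K) + d * wO)) =
      1 + 3 * (((a + c + 3 * (a * c - b * d) : ℤ) : 𝓞 K) +
        ((b + d + 3 * (a * d + b * c - b * d) : ℤ) : 𝓞 K) * wO) := by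
    push_cast
    linear_combination 9 * (b : 𝓞 K) * d * wO_quad
  rw [e, cl3_of, cl3_of, cl3_of]
  push_cast
  rw [three_zmod]
  ring

/-- The class only depends on the residue modulo `9`. -/
theorem cl3_congr {x y : 𝓞 K} (hx : In3 x) (h : (9 : 𝓞 K) ∣ x - y) : cl3 x = cl3 y := by
  obtain ⟨t, ht⟩ := h
  obtain ⟨a, b, rfl⟩ := in3_form hx
  have h1 : y = 1 + 3 * (((a - 3 * (cp t).1 : ℤ) : 𝓞 K) + ((b - 3 * (cp t).2 : ℤ) : 𝓞 K) * wO) := by
    have h2 := eq_cp t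
    push_cast
    linear_combination -ht - 9 * h2
  rw [h1, cl3_of, cl3_of]
  push_cast
  rw [three_zmod]
  ring

/-- The class of a prime is the symbol of `w`. -/
theorem cl3_q (q : P3) : cl3 q.1 = d3.a q := by
  obtain ⟨m, n, h⟩ := in3_form q.in3
  have h1 : cl3 q.1 = -((m : ZMod 3) + n) := by rw [h, cl3_of]
  rw [h1]
  exact (cs_w q.prime m n h).symm

theorem cl3_DD3 (S : Finset P3) : cl3 (DD3 S) = ∑ q ∈ S, d3.a q := by
  induction S using Finset.induction_on with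
  | empty =>
    rw [DD3_empty, cl3_one, sum_empty]
  | insert q S hq ih =>
    rw [DD3_insert hq, cl3_mul q.in3 (DD3_in3 S), ih, cl3_q, sum_insert hq]

/-- Every class is the class of an element of `1 + 3 ℤ`. -/
theorem cl3_surj (c : ZMod 3) : ∃ b : ℤ, cl3 (1 + 3 * (b : 𝓞 K)) = c := by
  refine ⟨-(ZMod.val c : ℤ), ?_⟩
  have h := cl3_of (-(ZMod.val c : ℤ)) 0
  rw [Int.cast_zero, zero_mul, add_zero] at h
  rw [h]
  push_cast
  rw [ZMod.natCast_zmod_val, add_zero, neg_neg]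

/-- The class is the norm modulo `9`. -/
theorem cl3_Nz {x : 𝓞 K} (hx : In3 x) : cl3 x = (((Nz x - 1) / 3 : ℕ) : ZMod 3) := by
  obtain ⟨m, n, rfl⟩ := in3_form hx
  have e : (1 : 𝓞 K) + 3 * ((m : 𝓞 K) + n * wO) =
      ((1 + 3 * m : ℤ) : 𝓞 K) + ((3 * n : ℤ) : 𝓞 K) * wO := by
    push_cast
    ring
  have h4 := Nz_coords (1 + 3 * m) (3 * n)
  rw [← e] at h4
  have h5 : (Nz (1 + 3 * ((m : 𝓞 K) + n * wO)) : ℤ) =
      1 + 3 * (2 * m - n + 3 * (m ^ 2 - m * n + n ^ 2)) := by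
    rw [h4]
    ring
  have h6 : (((Nz (1 + 3 * ((m : 𝓞 K) + n * wO)) - 1) / 3 : ℕ) : ℤ) =
      2 * m - n + 3 * (m ^ 2 - m * n + n ^ 2) := by
    omega
  have h7 := congrArg (Int.cast : ℤ → ZMod 3) h6
  rw [Int.cast_natCast] at h7
  rw [cl3_of, h7]
  push_cast
  have h2 : (2 : ZMod 3) = -1 := by decide
  rw [three_zmod, h2]
  ring

/-- The system of the primes `≡ 1` modulo `3`. -/
def prm3 : Prm P3 where
  e q := q.1
  P := In3
  prime := P3.prime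
  N_eq _ := rfl
  ndvd _ _ h := P3.not_dvd h
  memP := P3.in3
  one := in3_one
  mul_iff q _ := ⟨fun h => In3.of_mul q.in3 h, fun h => q.in3.mul h⟩
  ex _ hx h1 := exists_prime_dvd3 hx h1

theorem zt3 : ∃ C, Zt P3 C := prm3.zt

theorem d3_sym : d3.Sym := by
  intro p q h
  exact (cs_recip p.2.1 q.2.1 p.2.2 q.2.2 fun e => h (Subtype.ext e)).symm

end

end Pool.Agent.Lib.MP_1a91b9_ntK
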