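import Pool.Agent.Lib.MP_1a91b9_ntK.R.BHyp3
import Pool.Agent.Lib.MP_1a91b9_ntK.R.Defs

/-!
# MP_1a91b9_nt (cubic twists): the bilinear bound for the cubic symbols of `ℤ[w]`
-/

set_option autoImplicit false

namespace Pool.Agent.Lib.MP_1a91b9_ntK

open NumberField Finset Pool.Agent.Lib.MP_1a91b9_ntT
open Pool.Agent.Lib.MP_1a91b9_ntX.R
open Pool.Agent.Lib.MP_1a91b9_ntH (wO s3 Nz Nz_two_le Nz_fin PS nm pr Sx Nz_coords Nz_mul Nz_one
  exists_coords wO_quad nE_eq)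
open Pool.Agent.Lib.MP_1a91b9_ntH.B (Fib)

namespace B

theorem Nz_nat (p : ℕ) : Nz (p : 𝓞 K) = p ^ 2 := by
  have h := Nz_coords (p : ℤ) 0
  simp only [Int.cast_natCast, Int.cast_zero, zero_mul, add_zero, mul_zero, sub_zero] at h
  have h2 : (Nz (p : 𝓞 K) : ℤ) = ((p ^ 2 : ℕ) : ℤ) := by
    rw [h]
    push_cast
    ring
  exact_mod_cast h2

theorem dvd_NzL (x : 𝓞 K) : x ∣ (Nz x : 𝓞 K) := by
  obtain ⟨⟨a, b⟩, rfl⟩ := exists_coords x
  refine ⟨((a - b : ℤ) : 𝓞 K) - ((b : ℤ) : 𝓞 K) * wO, ?_⟩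
  have h1 := Nz_coords a b
  have h2 : (Nz ((a : 𝓞 K) + (b : 𝓞 K) * wO) : 𝓞 K) = ((a ^ 2 - a * b + b ^ 2 : ℤ) : 𝓞 K) := by
    rw [← h1]
    simp
  rw [h2]
  push_cast
  linear_combination (b : 𝓞 K) ^ 2 * wO_quad

/-- A prime lies over a rational prime and its norm is that prime or its square. -/
theorem Nz_cases {q : 𝓞 K} (hq : Prime q) :
    ∃ p : ℕ, p.Prime ∧ q ∣ (p : 𝓞 K) ∧ (Nz q = p ∨ Nz q = p ^ 2) := by
  have h2 := Nz_two_le hq
  have h0 : Nz q ≠ 0 := by omega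
  have h1 : q ∣ (((Nz q).primeFactorsList.map (Nat.cast : ℕ → 𝓞 K)).prod) := by
    rw [← Nat.cast_list_prod, Nat.prod_primeFactorsList h0]
    exact dvd_NzL q
  rw [hq.dvd_prod_iff] at h1
  obtain ⟨a, ha, hd⟩ := h1
  rw [List.mem_map] at ha
  obtain ⟨p, hp, rfl⟩ := ha
  have hpp := Nat.prime_of_mem_primeFactorsList hp
  refine ⟨p, hpp, hd, ?_⟩
  obtain ⟨t, ht⟩ := hd
  have h3 : Nz q ∣ p ^ 2 := ⟨Nz t, by rw [← Nz_mul, ← ht, Nz_nat]⟩
  rw [Nat.dvd_prime_pow hpp] at h3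
  obtain ⟨k, hk, h4⟩ := h3
  have hk' : k = 0 ∨ k = 1 ∨ k = 2 := by omega
  rcases hk' with rfl | rfl | rfl
  · rw [pow_zero] at h4
    omega
  · rw [pow_one] at h4
    exact Or.inl h4
  · exact Or.inr h4

theorem cop3 {p q : P3} (h : p ≠ q) : IsCoprime p.1 q.1 :=
  p.2.1.irreducible.coprime_iff_not_dvd.2
    (not_dvd3 p.2.1 q.2.1 p.2.2 q.2.2 fun e => h (Subtype.ext e))

theorem no_three {p : ℕ} (hp : p.Prime) {q1 q2 q3 : P3} (h12 : q1 ≠ q2) (h13 : q1 ≠ q3)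
    (h23 : q2 ≠ q3) (d1 : q1.1 ∣ (p : 𝓞 K)) (d2 : q2.1 ∣ (p : 𝓞 K)) (d3 : q3.1 ∣ (p : 𝓞 K))
    (h1 : Nz q1.1 = p ∨ Nz q1.1 = p ^ 2) (h2 : Nz q2.1 = p ∨ Nz q2.1 = p ^ 2)
    (h3 : Nz q3.1 = p ∨ Nz q3.1 = p ^ 2) : False := by
  have hd : q1.1 * q2.1 * q3.1 ∣ (p : 𝓞 K) :=
    IsCoprime.mul_dvd (IsCoprime.mul_left (cop3 h13) (cop3 h23))
      (IsCoprime.mul_dvd (cop3 h12) d1 d2) d3
  obtain ⟨t, ht⟩ := hd
  have h4 : p ^ 2 = Nz q1.1 * Nz q2.1 * Nz q3.1 * Nz t := by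
    rw [← Nz_nat, ht, Nz_mul, Nz_mul, Nz_mul]
  have hp2 := hp.two_le
  have le : ∀ q : P3, (Nz q.1 = p ∨ Nz q.1 = p ^ 2) → p ≤ Nz q.1 := by
    intro q hq
    rcases hq with h | h <;> rw [h]
    nlinarith
  have l1 := le q1 h1
  have l2 := le q2 h2
  have l3 := le q3 h3
  have ht0 : Nz t ≠ 0 := by
    intro h0
    rw [h0, mul_zero] at h4
    have : p ^ 2 ≠ 0 := by positivity
    exact this h4
  have h6 : p * p * p ≤ Nz q1.1 * Nz q2.1 * Nz q3.1 :=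
    Nat.mul_le_mul (Nat.mul_le_mul l1 l2) l3
  have h7 : Nz q1.1 * Nz q2.1 * Nz q3.1 ≤ p ^ 2 := by
    rw [h4]
    exact Nat.le_mul_of_pos_right _ (Nat.pos_of_ne_zero ht0)
  have h8 : p * p * p ≤ p ^ 2 := h6.trans h7
  nlinarith

theorem fibP3 : Fib P3 := by
  classical
  choose π hπ using fun q : P3 => Nz_cases q.2.1
  let c : ℕ → Option P3 := fun p => if h : ∃ q, π q = p then some h.choose else none
  refine ⟨π, fun q => decide (c (π q) = some q), fun q => ⟨(hπ q).1, (hπ q).2.2⟩, ?_⟩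
  intro q q' h
  simp only [Prod.mk.injEq] at h
  obtain ⟨h1, h2⟩ := h
  obtain ⟨q0, hq0, hc⟩ : ∃ q0, π q0 = π q ∧ c (π q) = some q0 := by
    have h3 : ∃ q', π q' = π q := ⟨q, rfl⟩
    exact ⟨h3.choose, h3.choose_spec, dif_pos h3⟩
  rw [← h1, hc] at h2
  simp only [Option.some.injEq] at h2
  by_cases e : q0 = q
  · rw [decide_eq_true e] at h2
    have := of_decide_eq_true h2.symm
    exact e.symm.trans this
  · rw [decide_eq_false e] at h2
    have e' := of_decide_eq_false h2.symm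
    by_contra hne
    have a0 := (hπ q0).2
    have a1 := (hπ q').2
    rw [hq0] at a0
    rw [← h1] at a1
    exact no_three (hπ q).1 e e' hne a0.1 (hπ q).2.1 a1.1 a0.2 (hπ q).2.2 a1.2

theorem e3_one_ne : e3 1 ≠ 1 := by
  intro h
  have h1 : (ZMod.stdAddChar (N := 3) 1 : ℂ) = ZMod.stdAddChar (N := 3) 0 := by
    rw [AddChar.map_zero_eq_one]
    exact h
  have h2 := ZMod.injective_stdAddChar h1
  exact absurd h2 (by decide)

open Classical in
/-- the cubic character modulo the prime `p` -/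
noncomputable def ps3 (p : P3) (x : 𝓞 K) : ℂ := if p.1 ∣ x then 0 else e3 (cq p x)

theorem g3P (p : P3) : G3 (Ideal.span {p.1}) := g3 p.2.1 p.2.2

theorem nm3 {p : P3} {x : 𝓞 K} (h : ¬ p.1 ∣ x) : x ∉ Ideal.span {p.1} := fun h0 =>
  h (Ideal.mem_span_singleton.1 h0)

theorem sy3 : Sy3 (fun q p : P3 => e3 (d3.s q p)) (fun q : P3 => q.1) ps3 where
  comm q p h := by
    change e3 (cs (Ideal.span {p.1}) q.1) = e3 (cs (Ideal.span {q.1}) p.1)
    rw [cs_recip p.2.1 q.2.1 p.2.2 q.2.2 fun e => h (Subtype.ext e.symm)]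
  fib := fibP3
  nE_g q := nE_eq q.1
  mul q x y := by
    unfold ps3
    by_cases hx : q.1 ∣ x
    · rw [if_pos hx, if_pos (hx.mul_right y), zero_mul]
    · by_cases hy : q.1 ∣ y
      · rw [if_pos hy, if_pos (hy.mul_left x), mul_zero]
      · rw [if_neg hx, if_neg hy, if_neg, ← e3_add]
        · congr 1
          exact cs_mul (g3P q) (nm3 hx) (nm3 hy)
        · intro h
          rcases q.2.1.dvd_or_dvd h with h | h
          · exact hx h
          · exact hy h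
  one q := by
    unfold ps3
    rw [if_neg fun h => q.2.1.not_isUnit (isUnit_of_dvd_one h)]
    have : cq q 1 = 0 := cs_one (g3P q)
    rw [this, e3_zero]
  le q x := by
    unfold ps3
    split_ifs
    · rw [norm_zero]
      exact zero_le_one
    · rw [norm_e3]
  per q x y := by
    unfold ps3
    have h1 : q.1 ∣ x + q.1 * y ↔ q.1 ∣ x := by
      rw [dvd_add_left (dvd_mul_right _ _)]
    by_cases hx : q.1 ∣ x
    · rw [if_pos hx, if_pos (h1.2 hx)]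
    · rw [if_neg hx, if_neg fun h => hx (h1.1 h)]
      congr 1
      refine (cs_congr (g3P q) (nm3 hx) ?_).symm
      rw [Ideal.mem_span_singleton]
      exact ⟨-y, by ring⟩
  self q := by
    unfold ps3
    rw [if_pos dvd_rfl]
  sym q p h := by
    unfold ps3
    rw [if_neg (not_dvd3 p.2.1 q.2.1 p.2.2 q.2.2 fun e => h (Subtype.ext e.symm))]
    rfl
  non q := by
    obtain ⟨u, hu, hc⟩ := exists_cs (g3P q) 1
    have h1 : ¬ q.1 ∣ u := fun h => hu (Ideal.mem_span_singleton.2 h)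
    refine ⟨u, ?_, (q.2.1.irreducible.coprime_iff_not_dvd.2 h1).symm⟩
    unfold ps3
    rw [if_neg h1]
    have : cq q u = 1 := hc
    rw [this]
    exact e3_one_ne
  cop q p h := cop3 h

end B

/-- The bilinear bound for the cubic symbols. -/
theorem d3_bl : ∃ C K c, 0 < c ∧ d3.BL C K c := by
  obtain ⟨C, hC, h⟩ := B.bl_final B.sy3
  refine ⟨C, Pool.Agent.Lib.MP_1a91b9_ntH.B.kbl + 3, 1 / 32, by norm_num,
    fun A B X V hA hB hV hX => ?_⟩
  refine le_trans (le_of_eq ?_) (h A B X V hA hB hV hX)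
  congr 1
  refine sum_congr rfl fun S _ => sum_congr rfl fun T _ => ?_
  have e : e3 (d3.ss S T) = ∏ q ∈ S, ∏ p ∈ T, e3 (d3.s q p) := by
    unfold Dat3.ss
    rw [e3_sum]
    exact prod_congr rfl fun q _ => e3_sum _ _
  rw [e]

end Pool.Agent.Lib.MP_1a91b9_ntK
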