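import Pool.Agent.Lib.MP_1a91b9_ntK.R.Eul

/-!
# MP_1a91b9_nt (cubic twists), part R: cube-free elements

`D : Prm ι` is a system of normalised primes. The cube-free elements of the unit `u` times the
normalised elements are the `u * pd S * pd T ^ 2` with disjoint `S`, `T`, uniquely.
-/

set_option autoImplicit false

namespace Pool.Agent.Lib.MP_1a91b9_ntK

open NumberField Finset Pool.Agent.Lib.MP_1a91b9_ntT Pool.Agent.Lib.MP_1a91b9_ntH

noncomputable section

/-- Cube-free elements. -/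
def CF (x : 𝓞 K) : Prop := ∀ y : 𝓞 K, y ^ 3 ∣ x → IsUnit y

variable {ι : Type} [DecidableEq ι] [PS ι]

/-- The product of the primes of `S`. -/
def Prm.pd (D : Prm ι) (S : Finset ι) : 𝓞 K := ∏ q ∈ S, D.e q

theorem Prm.pd_insert (D : Prm ι) {q : ι} {S : Finset ι} (h : q ∉ S) :
    D.pd (insert q S) = D.e q * D.pd S := prod_insert h

theorem Prm.pd_erase (D : Prm ι) {q : ι} {S : Finset ι} (h : q ∈ S) :
    D.e q * D.pd (S.erase q) = D.pd S := mul_prod_erase S D.e h

omit [DecidableEq ι] in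
theorem Prm.pd_ne_zero (D : Prm ι) (S : Finset ι) : D.pd S ≠ 0 :=
  prod_ne_zero_iff.2 fun q _ => (D.prime q).ne_zero

theorem Prm.Nz_pd (D : Prm ι) (S : Finset ι) : Nz (D.pd S) = nm S := by
  induction S using Finset.induction_on with
  | empty => simp [Prm.pd, nm, Nz_one]
  | insert q S h ih =>
    rw [D.pd_insert h, Nz_mul, ih, nm, nm, prod_insert h, D.N_eq]

theorem Prm.P_pd (D : Prm ι) (S : Finset ι) : D.P (D.pd S) := by
  induction S using Finset.induction_on with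
  | empty => exact D.one
  | insert q S h ih =>
    rw [D.pd_insert h]
    exact (D.mul_iff q _).2 ih

theorem Prm.dvd_pd (D : Prm ι) {q : ι} {S : Finset ι} : D.e q ∣ D.pd S ↔ q ∈ S := by
  constructor
  · intro h
    obtain ⟨p, hp, hqp⟩ := (D.prime q).exists_mem_finset_dvd h
    by_contra hq
    exact D.ndvd q p (fun e => hq (e ▸ hp)) hqp
  · intro h
    exact dvd_prod_of_mem D.e h

/-- The element of a pair. -/
def Prm.pp (D : Prm ι) (S T : Finset ι) : 𝓞 K := D.pd S * D.pd T ^ 2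

omit [DecidableEq ι] in
theorem Prm.pp_empty (D : Prm ι) (S : Finset ι) : D.pp S ∅ = D.pd S := by
  simp [Prm.pp, Prm.pd]

theorem Prm.Nz_pp (D : Prm ι) (S T : Finset ι) : Nz (D.pp S T) = nm S * nm T ^ 2 := by
  rw [Prm.pp, Nz_mul, pow_two, Nz_mul, D.Nz_pd, D.Nz_pd, pow_two]

omit [DecidableEq ι] in
theorem Prm.pp_ne_zero (D : Prm ι) (S T : Finset ι) : D.pp S T ≠ 0 :=
  mul_ne_zero (D.pd_ne_zero S) (pow_ne_zero 2 (D.pd_ne_zero T))

theorem Prm.P_pp (D : Prm ι) (S T : Finset ι) : D.P (D.pp S T) := by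
  have h : ∀ (U : Finset ι) (y : 𝓞 K), D.P y → D.P (D.pd U * y) := by
    intro U
    induction U using Finset.induction_on with
    | empty => intro y hy; simpa [Prm.pd] using hy
    | insert q U hq ih =>
      intro y hy
      rw [D.pd_insert hq, mul_assoc]
      exact (D.mul_iff q _).2 (ih y hy)
  rw [Prm.pp, pow_two]
  exact h S _ (h T _ (D.P_pd T))

theorem Prm.dvd_pp (D : Prm ι) {q : ι} {S T : Finset ι} : D.e q ∣ D.pp S T ↔ q ∈ S ∨ q ∈ T := by
  rw [Prm.pp, (D.prime q).dvd_mul, (D.prime q).dvd_pow_iff_dvd (by norm_num), D.dvd_pd, D.dvd_pd]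

theorem Prm.sq_dvd_pp (D : Prm ι) {q : ι} {S T : Finset ι} :
    D.e q ^ 2 ∣ D.pp S T ↔ q ∈ T := by
  have h0 := (D.prime q).ne_zero
  constructor
  · intro h
    by_contra hT
    have h1 : q ∈ S := by
      rcases D.dvd_pp.1 ((dvd_pow_self _ (by norm_num)).trans h) with h1 | h1
      · exact h1
      · exact absurd h1 hT
    rw [Prm.pp, ← D.pd_erase h1, pow_two, mul_assoc] at h
    have h2 := (mul_dvd_mul_iff_left h0).1 h
    have h3 : D.e q ∣ D.pp (S.erase q) T := h2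
    rcases D.dvd_pp.1 h3 with h4 | h4
    · exact notMem_erase q S h4
    · exact hT h4
  · intro h
    rw [Prm.pp]
    exact Dvd.dvd.mul_left (pow_dvd_pow_of_dvd (D.dvd_pd.2 h) 2) _

theorem Prm.cube_ndvd_pp (D : Prm ι) (q : ι) {S T : Finset ι} (hST : Disjoint S T) :
    ¬ D.e q ^ 3 ∣ D.pp S T := by
  intro h
  have h0 := (D.prime q).ne_zero
  have h1 : q ∈ T := D.sq_dvd_pp.1 ((pow_dvd_pow _ (by norm_num)).trans h)
  have h2 : q ∉ S := fun h2 => (disjoint_left.1 hST h2) h1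
  have h3 : D.pp S T = D.e q ^ 2 * D.pp S (T.erase q) := by
    rw [Prm.pp, Prm.pp, ← D.pd_erase h1]
    ring
  rw [h3, show D.e q ^ 3 = D.e q ^ 2 * D.e q by ring] at h
  have h4 := (mul_dvd_mul_iff_left (pow_ne_zero 2 h0)).1 h
  rcases D.dvd_pp.1 h4 with h5 | h5
  · exact h2 h5
  · exact notMem_erase q T h5

/-- The sets are determined by the element up to a unit. -/
theorem Prm.pp_inj (D : Prm ι) {S T S' T' : Finset ι} (h : Disjoint S T) (h' : Disjoint S' T')
    (e : Associated (D.pp S T) (D.pp S' T')) : S = S' ∧ T = T' := by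
  have h1 : ∀ q, q ∈ T ↔ q ∈ T' := by
    intro q
    rw [← D.sq_dvd_pp (S := S), ← D.sq_dvd_pp (S := S'), e.dvd_iff_dvd_right]
  have h2 : ∀ q, q ∈ S ∨ q ∈ T ↔ q ∈ S' ∨ q ∈ T' := by
    intro q
    rw [← D.dvd_pp, ← D.dvd_pp, e.dvd_iff_dvd_right]
  refine ⟨?_, Finset.ext h1⟩
  ext q
  constructor
  · intro hq
    rcases (h2 q).1 (Or.inl hq) with h3 | h3
    · exact h3
    · exact absurd ((h1 q).2 h3) (disjoint_left.1 h hq)
  · intro hq
    rcases (h2 q).2 (Or.inl hq) with h3 | h3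
    · exact h3
    · exact absurd ((h1 q).1 h3) (disjoint_left.1 h' hq)

theorem CF.ne_zero {x : 𝓞 K} (h : CF x) : x ≠ 0 := by
  rintro rfl
  exact not_isUnit_zero (h 0 (by simp))

theorem CF.of_dvd {x y : 𝓞 K} (h : CF x) (hy : y ∣ x) : CF y := fun z hz => h z (hz.trans hy)

theorem CF.mul_unit {x u : 𝓞 K} (hu : IsUnit u) : CF (u * x) ↔ CF x := by
  constructor
  · intro h
    exact h.of_dvd (dvd_mul_left _ _)
  · intro h y hy
    exact h y (hu.dvd_mul_left.1 hy)

/-- The elements `pp S T` are cube-free. -/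
theorem Prm.pp_cf (D : Prm ι) {S T : Finset ι} (h : Disjoint S T) : CF (D.pp S T) := by
  intro y hy
  by_contra hu
  have hy0 : y ≠ 0 := by
    rintro rfl
    rw [zero_pow (by norm_num)] at hy
    exact D.pp_ne_zero S T (zero_dvd_iff.1 hy)
  obtain ⟨p, hp, hpy⟩ := WfDvdMonoid.exists_irreducible_factor hu hy0
  have hp' : Prime p := by
    have : IsPrincipalIdealRing (𝓞 K) := inferInstance
    exact hp.prime
  have h1 : p ∣ D.pp S T := (hpy.trans (dvd_pow_self _ (by norm_num))).trans hy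
  have h2 : ∃ q, p ∣ D.e q := by
    rw [Prm.pp] at h1
    rcases hp'.dvd_or_dvd h1 with h2 | h2
    · obtain ⟨q, _, hq⟩ := hp'.exists_mem_finset_dvd h2
      exact ⟨q, hq⟩
    · obtain ⟨q, _, hq⟩ := hp'.exists_mem_finset_dvd (hp'.dvd_of_dvd_pow h2)
      exact ⟨q, hq⟩
  obtain ⟨q, hq⟩ := h2
  have h3 : Associated p (D.e q) := hp'.associated_of_dvd (D.prime q) hq
  exact D.cube_ndvd_pp q h ((pow_dvd_pow_of_dvd (h3.symm.dvd.trans hpy) 3).trans hy)

/-- Every normalised cube-free element is some `pp S T`. -/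
theorem Prm.exists_pp (D : Prm ι) : ∀ (n : ℕ) {x : 𝓞 K}, Nz x ≤ n → D.P x → CF x →
    ∃ S T : Finset ι, Disjoint S T ∧ D.pp S T = x := by
  intro n
  induction n with
  | zero =>
    intro x hx _ hcf
    exfalso
    exact hcf.ne_zero (Nz_eq_zero.1 (Nat.le_zero.1 hx))
  | succ n ih =>
    intro x hx hP hcf
    by_cases h1 : x = 1
    · exact ⟨∅, ∅, disjoint_empty_left _, by rw [h1, D.pp_empty]; simp [Prm.pd]⟩
    obtain ⟨q, y, hy⟩ := D.ex x hP h1
    have hP' : D.P y := (D.mul_iff q y).1 (hy ▸ hP)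
    have hcf' : CF y := hcf.of_dvd ⟨D.e q, by rw [hy]; ring⟩
    have hN : Nz y ≤ n := by
      have h2 : Nz x = Nz (D.e q) * Nz y := by rw [hy, Nz_mul]
      have h3 : 2 ≤ Nz (D.e q) := Nz_two_le (D.prime q)
      have h4 : Nz y ≠ 0 := fun h => hcf'.ne_zero (Nz_eq_zero.1 h)
      have h5 : 2 * Nz y ≤ Nz x := by
        rw [h2]
        exact Nat.mul_le_mul_right _ h3
      omega
    obtain ⟨S, T, hST, rfl⟩ := ih hN hP' hcf'
    by_cases hqT : q ∈ T
    · exfalso
      refine (D.prime q).not_isUnit (hcf (D.e q) ?_)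
      rw [hy, show D.e q ^ 3 = D.e q * D.e q ^ 2 by ring]
      exact mul_dvd_mul_left _ (D.sq_dvd_pp.2 hqT)
    · by_cases hqS : q ∈ S
      · refine ⟨S.erase q, insert q T, ?_, ?_⟩
        · rw [disjoint_insert_right]
          exact ⟨notMem_erase q S, hST.mono_left (erase_subset _ _)⟩
        · rw [hy, Prm.pp, Prm.pp, D.pd_insert hqT, ← D.pd_erase hqS]
          ring
      · refine ⟨insert q S, T, ?_, ?_⟩
        · rw [disjoint_insert_left]
          exact ⟨hqT, hST⟩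
        · rw [hy, Prm.pp, Prm.pp, D.pd_insert hqS]
          ring

end

end Pool.Agent.Lib.MP_1a91b9_ntK
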