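import Pool.Agent.Lib.MP_1a91b9_ntK.R.Ring

/-!
# MP_1a91b9_nt (cubic twists), part R: Chebyshev's bound for the primes `≡ 1` modulo `3` of `ℤ[w]`, and
the sum of the squares of the inverses of the norms
-/

set_option autoImplicit false

namespace Pool.Agent.Lib.MP_1a91b9_ntK

open NumberField Finset Pool.Agent.Lib.MP_1a91b9_ntT
open Pool.Agent.Lib.MP_1a91b9_ntH (wO Nz Nz_two_le PS nm pr Cheb Nz_coords Nz_mul mem_pr)

noncomputable section

private theorem cheb_dvd {x y : 𝓞 K} (h : x ∣ y) : Nz x ∣ Nz y := by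
  obtain ⟨c, rfl⟩ := h
  rw [Nz_mul]
  exact dvd_mul_right _ _

private theorem cheb_nat (n : ℕ) : Nz (n : 𝓞 K) = n ^ 2 := by
  have h := Nz_coords (n : ℤ) 0
  have e : ((n : ℤ) : 𝓞 K) + ((0 : ℤ) : 𝓞 K) * wO = (n : 𝓞 K) := by
    push_cast
    ring
  rw [e] at h
  have h1 : (Nz (n : 𝓞 K) : ℤ) = ((n ^ 2 : ℕ) : ℤ) := by
    rw [h]
    push_cast
    ring
  exact_mod_cast h1

private theorem cheb_self (q : P3) : q.1 ∣ ((Nz q.1 : ℕ) : 𝓞 K) := by
  have h := Ideal.absNorm_mem (Ideal.span {q.1})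
  rw [Ideal.absNorm_span_singleton, Ideal.mem_span_singleton] at h
  exact h

private theorem cheb_ndvd {p q : P3} (h : p ≠ q) : ¬ p.1 ∣ q.1 := by
  intro hd
  exact P3.not_dvd h hd

/-- The norm of a prime is a rational prime, or the square of a rational prime. -/
theorem Nz_prime_cases3 (q : P3) : ∃ p : ℕ, p.Prime ∧ (Nz q.1 = p ∨ Nz q.1 = p ^ 2) := by
  have h0 : Nz q.1 ≠ 0 := by
    have := Nz_two_le q.2.1
    omega
  have h1 : q.1 ∣ (((Nz q.1).primeFactorsList.map fun p : ℕ => (p : 𝓞 K)).prod) := by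
    have e : ((Nz q.1).primeFactorsList.map fun p : ℕ => (p : 𝓞 K)).prod =
        ((Nz q.1 : ℕ) : 𝓞 K) := by
      rw [← Nat.cast_list_prod, Nat.prod_primeFactorsList h0]
    rw [e]
    exact cheb_self q
  rw [Prime.dvd_prod_iff q.2.1] at h1
  obtain ⟨a, ha, hqa⟩ := h1
  rw [List.mem_map] at ha
  obtain ⟨p, hp, rfl⟩ := ha
  have hp' : p.Prime := Nat.prime_of_mem_primeFactorsList hp
  have h2 := cheb_dvd hqa
  rw [cheb_nat, Nat.dvd_prime_pow hp'] at h2
  obtain ⟨k, hk, hN⟩ := h2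
  have h3 : Nz q.1 = p ∨ Nz q.1 = p ^ 2 := by
    have hk' : k = 0 ∨ k = 1 ∨ k = 2 := by omega
    rcases hk' with rfl | rfl | rfl
    · have := Nz_two_le q.2.1
      rw [pow_zero] at hN
      omega
    · left
      rwa [pow_one] at hN
    · right
      exact hN
  exact ⟨p, hp', h3⟩

/-- At most two primes have the same norm. -/
theorem card_Nz_eq3 (n : ℕ) (s : Finset P3) (hs : ∀ q ∈ s, Nz q.1 = n) : s.card ≤ 2 := by
  rcases s.eq_empty_or_nonempty with rfl | ⟨q₀, hq₀⟩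
  · simp
  have hn : 2 ≤ n := by
    rw [← hs q₀ hq₀]
    exact Nz_two_le q₀.2.1
  have h1 : ∏ q ∈ s, q.1 ∣ ((n : ℕ) : 𝓞 K) := by
    refine Finset.prod_dvd_of_coprime (fun p _ q _ hpq => ?_) fun q hq => ?_
    · exact p.2.1.irreducible.coprime_iff_not_dvd.2 (cheb_ndvd hpq)
    · rw [← hs q hq]
      exact cheb_self q
  have h2 := cheb_dvd h1
  have h3 : Nz (∏ q ∈ s, q.1) = ∏ q ∈ s, Nz q.1 := Nz_DD3 s
  rw [cheb_nat, h3, Finset.prod_congr rfl hs, Finset.prod_const] at h2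
  exact (Nat.pow_dvd_pow_iff_le_right (by omega)).1 h2

theorem cheb3 : ∃ C, Cheb P3 C := by
  classical
  refine ⟨4 * (Real.log 4 + 4), fun x => ?_⟩
  have h1 : ∀ q : P3, Real.log (PS.N q) ≤ 2 * ArithmeticFunction.vonMangoldt (PS.N q) := by
    intro q
    change Real.log (Nz q.1) ≤ 2 * ArithmeticFunction.vonMangoldt (Nz q.1)
    obtain ⟨p, hp, h | h⟩ := Nz_prime_cases3 q
    · rw [h, ArithmeticFunction.vonMangoldt_apply_prime hp]
      have : 0 ≤ Real.log p := Real.log_natCast_nonneg p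
      linarith
    · rw [h, ArithmeticFunction.vonMangoldt_apply_pow two_ne_zero,
        ArithmeticFunction.vonMangoldt_apply_prime hp]
      push_cast
      rw [Real.log_pow]
      push_cast
      exact le_refl _
  calc ∑ q ∈ pr P3 x, Real.log (PS.N q)
      ≤ ∑ q ∈ pr P3 x, 2 * ArithmeticFunction.vonMangoldt (PS.N q) :=
        Finset.sum_le_sum fun q _ => h1 q
    _ = ∑ n ∈ Finset.Ioc 0 x, ∑ q ∈ (pr P3 x).filter (fun q => PS.N q = n),
          2 * ArithmeticFunction.vonMangoldt (PS.N q) := by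
        rw [Finset.sum_fiberwise_of_maps_to]
        intro q hq
        rw [mem_pr] at hq
        have := PS.two_le q
        rw [Finset.mem_Ioc]
        omega
    _ ≤ ∑ n ∈ Finset.Ioc 0 x, 4 * ArithmeticFunction.vonMangoldt n := by
        refine Finset.sum_le_sum fun n _ => ?_
        have h2 : ∑ q ∈ (pr P3 x).filter (fun q => PS.N q = n),
            2 * ArithmeticFunction.vonMangoldt (PS.N q) =
            (((pr P3 x).filter (fun q => PS.N q = n)).card : ℝ) *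
              (2 * ArithmeticFunction.vonMangoldt n) := by
          rw [← nsmul_eq_mul, ← Finset.sum_const]
          refine Finset.sum_congr rfl fun q hq => ?_
          rw [(Finset.mem_filter.1 hq).2]
        have h3 : (((pr P3 x).filter (fun q => PS.N q = n)).card : ℝ) ≤ 2 := by
          exact_mod_cast card_Nz_eq3 n _ fun q hq => (Finset.mem_filter.1 hq).2
        have h4 : 0 ≤ ArithmeticFunction.vonMangoldt n := ArithmeticFunction.vonMangoldt_nonneg
        rw [h2]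
        nlinarith
    _ = 4 * Chebyshev.psi x := by
        rw [Chebyshev.psi, Nat.floor_natCast, Finset.mul_sum]
    _ ≤ 4 * ((Real.log 4 + 4) * x) := by
        have := Chebyshev.psi_le_const_mul_self (Nat.cast_nonneg (α := ℝ) x)
        linarith
    _ = 4 * (Real.log 4 + 4) * x := by ring

private theorem cheb_sq (s : Finset P3) (Y : ℕ) (hY : Y ≠ 0) (hs : ∀ q ∈ s, Y < Nz q.1) :
    ∑ q ∈ s, (1 : ℝ) / (Nz q.1 : ℝ) ^ 2 ≤ 2 / Y := by
  classical
  obtain ⟨M, hM⟩ : ∃ M : ℕ, ∀ q ∈ s, Nz q.1 ≤ M := by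
    refine ⟨s.sup fun q => Nz q.1, fun q hq => Finset.le_sup (f := fun q : P3 => Nz q.1) hq⟩
  have hYM : Y ≤ max Y M := le_max_left _ _
  calc ∑ q ∈ s, (1 : ℝ) / (Nz q.1 : ℝ) ^ 2
      = ∑ n ∈ Finset.Ioc Y (max Y M), ∑ q ∈ s.filter (fun q => Nz q.1 = n),
          (1 : ℝ) / (Nz q.1 : ℝ) ^ 2 := by
        rw [Finset.sum_fiberwise_of_maps_to]
        intro q hq
        rw [Finset.mem_Ioc]
        exact ⟨hs q hq, (hM q hq).trans (le_max_right _ _)⟩
    _ ≤ ∑ n ∈ Finset.Ioc Y (max Y M), 2 * ((n : ℝ) ^ 2)⁻¹ := by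
        refine Finset.sum_le_sum fun n _ => ?_
        have h2 : ∑ q ∈ s.filter (fun q => Nz q.1 = n), (1 : ℝ) / (Nz q.1 : ℝ) ^ 2 =
            ((s.filter (fun q => Nz q.1 = n)).card : ℝ) * ((n : ℝ) ^ 2)⁻¹ := by
          rw [← nsmul_eq_mul, ← Finset.sum_const]
          refine Finset.sum_congr rfl fun q hq => ?_
          rw [(Finset.mem_filter.1 hq).2, one_div]
        have h3 : ((s.filter (fun q => Nz q.1 = n)).card : ℝ) ≤ 2 := by
          exact_mod_cast card_Nz_eq3 n _ fun q hq => (Finset.mem_filter.1 hq).2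
        rw [h2]
        exact mul_le_mul_of_nonneg_right h3 (by positivity)
    _ ≤ 2 * ((Y : ℝ)⁻¹ - ((max Y M : ℕ) : ℝ)⁻¹) := by
        rw [← Finset.mul_sum]
        exact mul_le_mul_of_nonneg_left (sum_Ioc_inv_sq_le_sub hY hYM) (by norm_num)
    _ ≤ 2 / Y := by
        have : 0 ≤ ((max Y M : ℕ) : ℝ)⁻¹ := by positivity
        rw [div_eq_mul_inv]
        linarith

/-- The sum of `N(q)⁻²` is at most `2/3`. -/
theorem sum_inv_sq3 (s : Finset P3) : ∑ q ∈ s, (1 : ℝ) / (Nz q.1 : ℝ) ^ 2 ≤ 2 / 3 := by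
  refine (cheb_sq s 3 (by norm_num) fun q _ => ?_).trans (by norm_num)
  have h1 := Nz_two_le q.2.1
  have h2 := q.in3.Nz_mod
  omega

/-- The tail of the sum of `N(q)⁻²`. -/
theorem sum_inv_sq_tail3 (ε : ℝ) (hε : 0 < ε) : ∃ Y : ℕ, ∀ s : Finset P3, (∀ q ∈ s, Y < Nz q.1) →
    ∑ q ∈ s, (1 : ℝ) / (Nz q.1 : ℝ) ^ 2 ≤ ε := by
  obtain ⟨Y, hY⟩ := exists_nat_gt (2 / ε)
  have h0 : (0 : ℝ) < Y := lt_trans (by positivity) hY
  refine ⟨Y, fun s hs => (cheb_sq s Y (by exact_mod_cast h0.ne') hs).trans ?_⟩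
  rw [div_le_iff₀ h0]
  rw [div_lt_iff₀ hε] at hY
  linarith

end

end Pool.Agent.Lib.MP_1a91b9_ntK
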