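import Pool.Agent.Lib.MP_1a91b9_ntH.R.Lat

/-!
# MP_1a91b9_nt (cubic twists): sums of complex periodic functions over boxes and discs of `ℤ[ω]`

Complex versions of the statements of `MP_1a91b9_ntH.R.Lat`: `f` is periodic modulo `m` and
`f (u z) = c f z` with `u` invertible modulo `m` and `c ≠ 1`.
-/

set_option autoImplicit false

namespace Pool.Agent.Lib.MP_1a91b9_ntK

open Finset Pool.Agent.Lib.MP_1a91b9_ntH

theorem avg_auxC (B : Finset (ℤ × ℤ)) (F : ℤ × ℤ → ℂ) (hF : ∀ z, ‖F z‖ ≤ 1) (r : ℤ × ℤ) (K : ℕ)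
    (h1 : (B.filter fun z => z + r ∉ B).card ≤ K) (h2 : (B.filter fun z => z - r ∉ B).card ≤ K) :
    ‖∑ z ∈ B, F z - ∑ z ∈ B, F (z + r)‖ ≤ 2 * K := by
  classical
  have e1 : ∑ z ∈ B, F z = ∑ z ∈ B.filter (fun z => z - r ∈ B), F z +
      ∑ z ∈ B.filter (fun z => z - r ∉ B), F z := (sum_filter_add_sum_filter_not B _ _).symm
  have e2 : ∑ z ∈ B, F (z + r) = ∑ z ∈ B.filter (fun z => z + r ∈ B), F (z + r) +
      ∑ z ∈ B.filter (fun z => z + r ∉ B), F (z + r) := (sum_filter_add_sum_filter_not B _ _).symm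
  have e3 : ∑ z ∈ B.filter (fun z => z + r ∈ B), F (z + r) =
      ∑ z ∈ B.filter (fun z => z - r ∈ B), F z := by
    refine sum_bij' (fun z _ => z + r) (fun z _ => z - r) ?_ ?_ ?_ ?_ ?_
    · intro z hz
      rw [mem_filter] at hz ⊢
      exact ⟨hz.2, by rw [add_sub_cancel_right]; exact hz.1⟩
    · intro z hz
      rw [mem_filter] at hz ⊢
      exact ⟨hz.2, by rw [sub_add_cancel]; exact hz.1⟩
    · intro z _
      exact add_sub_cancel_right z r
    · intro z _
      exact sub_add_cancel z r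
    · intro z _
      rfl
  have b1 : ‖∑ z ∈ B.filter (fun z => z - r ∉ B), F z‖ ≤ K := by
    refine (norm_sum_le _ _).trans ((sum_le_card_nsmul _ _ 1 fun z _ => hF z).trans ?_)
    rw [nsmul_eq_mul, mul_one]
    exact_mod_cast h2
  have b2 : ‖∑ z ∈ B.filter (fun z => z + r ∉ B), F (z + r)‖ ≤ K := by
    refine (norm_sum_le _ _).trans ((sum_le_card_nsmul _ _ 1 fun z _ => hF _).trans ?_)
    rw [nsmul_eq_mul, mul_one]
    exact_mod_cast h1
  rw [e1, e2, e3, add_sub_add_left_eq_sub]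
  refine (norm_sub_le _ _).trans ?_
  linarith

theorem avgC {C : Type} [Fintype C] [Nonempty C] (B : Finset (ℤ × ℤ)) (F : ℤ × ℤ → ℂ)
    (hF : ∀ z, ‖F z‖ ≤ 1) (rep : C → ℤ × ℤ) (K : ℕ) (h0 : ∀ z, ∑ c, F (z + rep c) = 0)
    (h1 : ∀ c, (B.filter fun z => z + rep c ∉ B).card ≤ K)
    (h2 : ∀ c, (B.filter fun z => z - rep c ∉ B).card ≤ K) :
    ‖∑ z ∈ B, F z‖ ≤ 2 * K := by
  classical
  have hc : (0 : ℝ) < Fintype.card C := by exact_mod_cast Fintype.card_pos
  have e1 : (Fintype.card C : ℂ) * ∑ z ∈ B, F z =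
      ∑ c, (∑ z ∈ B, F z - ∑ z ∈ B, F (z + rep c)) := by
    rw [sum_sub_distrib, sum_const, nsmul_eq_mul, card_univ, sum_comm]
    rw [sum_eq_zero fun z _ => h0 z, sub_zero]
  have e2 : ‖(Fintype.card C : ℂ) * ∑ z ∈ B, F z‖ ≤ Fintype.card C * (2 * K) := by
    rw [e1]
    refine (norm_sum_le _ _).trans
      ((sum_le_card_nsmul _ _ (2 * K : ℝ) fun c _ => avg_auxC B F hF (rep c) K (h1 c) (h2 c)).trans ?_)
    rw [nsmul_eq_mul, card_univ]
  rw [norm_mul, Complex.norm_natCast] at e2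
  exact le_of_mul_le_mul_left e2 hc

section Per

variable {R : Type} [CommRing R] [Eis R]

/-- A complete system of small residues modulo `m`, and the vanishing of the sum of a periodic
function which is multiplied by `c ≠ 1` under multiplication with a unit modulo `m`. -/
theorem exists_repC (m : R) (hm : m ≠ 0) (f : R → ℂ) (hper : ∀ z w, f (z + m * w) = f z)
    (u v w : R) (huv : u * v = 1 + m * w) (c : ℂ) (hc : c ≠ 1) (hneg : ∀ z, f (u * z) = c * f z) :
    ∃ (C : Type) (_ : Fintype C) (_ : Nonempty C) (rep : C → R),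
      (∀ z, ∑ c, f (z + rep c) = 0) ∧
      ∀ c, |(Eis.co (rep c)).1| ≤ (Nat.sqrt (nE m) : ℤ) ∧ |(Eis.co (rep c)).2| ≤ (Nat.sqrt (nE m) : ℤ) := by
  classical
  let I : Ideal R := Ideal.span {m}
  choose g hg using fun z : R => exists_rem' m z hm
  let rep : R ⧸ I → R := fun c => Quotient.out c - m * g (Quotient.out c)
  have hrep : ∀ c : R ⧸ I, Ideal.Quotient.mk I (rep c) = c := by
    intro c
    have h1 : Ideal.Quotient.mk I (Quotient.out c) = c := Quotient.out_eq c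
    have h2 : Ideal.Quotient.mk I (m * g (Quotient.out c)) = 0 :=
      Ideal.Quotient.eq_zero_iff_mem.2 (Ideal.mem_span_singleton.2 ⟨_, rfl⟩)
    rw [show rep c = Quotient.out c - m * g (Quotient.out c) from rfl, map_sub, h1, h2, sub_zero]
  have hle : ∀ c, |(Eis.co (rep c)).1| ≤ (Nat.sqrt (nE m) : ℤ) ∧
      |(Eis.co (rep c)).2| ≤ (Nat.sqrt (nE m) : ℤ) := fun c => co_le (hg _)
  have hinj : Function.Injective rep := fun c d h => by rw [← hrep c, ← hrep d, h]
  have hfin : Finite (R ⧸ I) := by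
    let B : Finset (ℤ × ℤ) := Icc (-(Nat.sqrt (nE m) : ℤ)) (Nat.sqrt (nE m)) ×ˢ
      Icc (-(Nat.sqrt (nE m) : ℤ)) (Nat.sqrt (nE m))
    have hm' : ∀ c, Eis.co (rep c) ∈ B := fun c => by
      rw [mem_product, mem_Icc, mem_Icc]
      exact ⟨abs_le.1 (hle c).1, abs_le.1 (hle c).2⟩
    exact Finite.of_injective (fun c : R ⧸ I => (⟨Eis.co (rep c), hm' c⟩ : B)) fun c d h =>
      hinj (Eis.co.injective (congrArg Subtype.val h))
  have hft : Fintype (R ⧸ I) := Fintype.ofFinite _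
  -- the function on the quotient
  have hf : ∀ x y : R, Ideal.Quotient.mk I x = Ideal.Quotient.mk I y → f x = f y := by
    intro x y h
    rw [Ideal.Quotient.eq, Ideal.mem_span_singleton] at h
    obtain ⟨t, ht⟩ := h
    rw [show x = y + m * t by rw [← ht]; ring, hper]
  let F : R ⧸ I → ℂ := fun c => f (rep c)
  have hF : ∀ x : R, F (Ideal.Quotient.mk I x) = f x := fun x => hf _ _ (hrep _)
  have hsum : ∑ c, F c = 0 := by
    have huv' : Ideal.Quotient.mk I u * Ideal.Quotient.mk I v = 1 := by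
      rw [← map_mul, huv, map_add, map_one]
      have h2 : Ideal.Quotient.mk I (m * w) = 0 :=
        Ideal.Quotient.eq_zero_iff_mem.2 (Ideal.mem_span_singleton.2 ⟨_, rfl⟩)
      rw [h2, add_zero]
    have hbij : Function.Bijective fun c : R ⧸ I => Ideal.Quotient.mk I u * c := by
      refine Function.bijective_iff_has_inverse.2 ⟨fun c => Ideal.Quotient.mk I v * c, ?_, ?_⟩
      · intro c
        change Ideal.Quotient.mk I v * (Ideal.Quotient.mk I u * c) = c
        rw [← mul_assoc, mul_comm (Ideal.Quotient.mk I v), huv', one_mul]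
      · intro c
        change Ideal.Quotient.mk I u * (Ideal.Quotient.mk I v * c) = c
        rw [← mul_assoc, huv', one_mul]
    have h1 : ∑ c, F c = ∑ c, F (Ideal.Quotient.mk I u * c) := by
      rw [← Function.Bijective.sum_comp hbij F]
    have h2 : ∀ x, F (Ideal.Quotient.mk I u * x) = c * F x := by
      intro x
      have h3 : Ideal.Quotient.mk I u * x = Ideal.Quotient.mk I (u * rep x) := by
        rw [map_mul, hrep]
      rw [h3, hF, hneg]
    have h4 : ∑ x, F x = c * ∑ x, F x := by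
      conv_lhs => rw [h1]
      rw [mul_sum]
      exact sum_congr rfl fun x _ => h2 x
    have h5 : (1 - c) * ∑ x, F x = 0 := by
      rw [sub_mul, one_mul, ← h4, sub_self]
    exact (mul_eq_zero.1 h5).resolve_left (sub_ne_zero.2 hc.symm)
  refine ⟨R ⧸ I, hft, ⟨0⟩, rep, ?_, hle⟩
  intro z
  have h1 : ∀ c, f (z + rep c) = F (Ideal.Quotient.mk I z + c) := by
    intro c
    have h3 : Ideal.Quotient.mk I z + c = Ideal.Quotient.mk I (z + rep c) := by
      rw [map_add, hrep]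
    rw [h3, hF]
  rw [sum_congr rfl fun c _ => h1 c]
  have h2 := Function.Bijective.sum_comp (Equiv.addLeft (Ideal.Quotient.mk I z)).bijective F
  rw [← hsum, ← h2]
  rfl

/-- Sums of complex periodic functions over boxes. -/
theorem sum_boxEC (m : R) (hm : m ≠ 0) (f : R → ℂ) (hf : ∀ z, ‖f z‖ ≤ 1)
    (hper : ∀ z w, f (z + m * w) = f z)
    (u v w : R) (huv : u * v = 1 + m * w) (c : ℂ) (hc : c ≠ 1) (hneg : ∀ z, f (u * z) = c * f z)
    (x y : ℤ) (L : ℕ) :
    ‖∑ z ∈ boxE R x y L, f z‖ ≤ 4 * Nat.sqrt (nE m) * L := by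
  obtain ⟨C, hC1, hC2, rep, h0, hle⟩ := exists_repC m hm f hper u v w huv c hc hneg
  have h := avgC (boxZ x y L) (fun z => f ((Eis.co (R := R)).symm z)) (fun z => hf _)
    (fun c => Eis.co (rep c)) (2 * Nat.sqrt (nE m) * L) ?_
    (fun c => box_bdry x y L _ _ (hle c).1 (hle c).2) ?_
  · rw [boxE, sum_map]
    refine h.trans (le_of_eq ?_)
    push_cast
    ring
  · intro z
    rw [← h0 ((Eis.co (R := R)).symm z)]
    refine sum_congr rfl fun c _ => ?_
    rw [map_add, AddEquiv.symm_apply_apply]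
  · intro c
    have h := box_bdry x y L (Nat.sqrt (nE m)) (-(Eis.co (rep c)))
      (by rw [Prod.fst_neg, abs_neg]; exact (hle c).1) (by rw [Prod.snd_neg, abs_neg]; exact (hle c).2)
    simpa only [sub_eq_add_neg] using h

/-- Sums of complex periodic functions over discs. -/
theorem sum_discEC (m : R) (hm : m ≠ 0) (f : R → ℂ) (hf : ∀ z, ‖f z‖ ≤ 1)
    (hper : ∀ z w, f (z + m * w) = f z)
    (u v w : R) (huv : u * v = 1 + m * w) (c : ℂ) (hc : c ≠ 1) (hneg : ∀ z, f (u * z) = c * f z)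
    (X : ℕ) :
    ‖∑ z ∈ discE R X, f z‖ ≤ 4 * Nat.sqrt (nE m) * (4 * Nat.sqrt X + 1) := by
  obtain ⟨C, hC1, hC2, rep, h0, hle⟩ := exists_repC m hm f hper u v w huv c hc hneg
  have h := avgC (discZ X) (fun z => f ((Eis.co (R := R)).symm z)) (fun z => hf _)
    (fun c => Eis.co (rep c)) (2 * Nat.sqrt (nE m) * (4 * Nat.sqrt X + 1)) ?_
    (fun c => disc_bdry X _ _ (hle c).1 (hle c).2) ?_
  · rw [discE, sum_map]
    refine h.trans (le_of_eq ?_)
    push_cast
    ring
  · intro z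
    rw [← h0 ((Eis.co (R := R)).symm z)]
    refine sum_congr rfl fun c _ => ?_
    rw [map_add, AddEquiv.symm_apply_apply]
  · intro c
    have h := disc_bdry X (Nat.sqrt (nE m)) (-(Eis.co (rep c)))
      (by rw [Prod.fst_neg, abs_neg]; exact (hle c).1) (by rw [Prod.snd_neg, abs_neg]; exact (hle c).2)
    simpa only [sub_eq_add_neg] using h

/-- Sums of complex periodic functions over discs, with real square roots. -/
theorem sum_discEC' (m : R) (hm : m ≠ 0) (f : R → ℂ) (hf : ∀ z, ‖f z‖ ≤ 1)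
    (hper : ∀ z w, f (z + m * w) = f z)
    (u v w : R) (huv : u * v = 1 + m * w) (c : ℂ) (hc : c ≠ 1) (hneg : ∀ z, f (u * z) = c * f z)
    (X : ℕ) (hX : 1 ≤ X) :
    ‖∑ z ∈ discE R X, f z‖ ≤ 20 * Real.sqrt (nE m * X) := by
  refine (sum_discEC m hm f hf hper u v w huv c hc hneg X).trans ?_
  have h1 : ((Nat.sqrt (nE m) : ℕ) : ℝ) ≤ Real.sqrt (nE m) := Real.nat_sqrt_le_real_sqrt
  have h2 : ((Nat.sqrt X : ℕ) : ℝ) ≤ Real.sqrt X := Real.nat_sqrt_le_real_sqrt
  have h3 : (1 : ℝ) ≤ Real.sqrt X := by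
    rw [Real.one_le_sqrt]
    exact_mod_cast hX
  rw [Real.sqrt_mul (Nat.cast_nonneg _)]
  have h4 : 0 ≤ Real.sqrt (nE m) := Real.sqrt_nonneg _
  calc (4 : ℝ) * Nat.sqrt (nE m) * (4 * Nat.sqrt X + 1)
      ≤ 4 * Real.sqrt (nE m) * (4 * Real.sqrt X + Real.sqrt X) := by gcongr
    _ = 20 * (Real.sqrt (nE m) * Real.sqrt X) := by ring

end Per

end Pool.Agent.Lib.MP_1a91b9_ntK
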