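import Pool.Agent.Lib.MP_1a91b9_ntK.R.Eul
import Pool.Agent.Lib.MP_1a91b9_ntH.R.Bij

/-!
# MP_1a91b9_nt (cubic twists), part R: sums over squarefree elements

For a system `D : Prm ι` of normalised primes of `ℤ[w]`: `D.dd S` is the product of the primes in `S`.
The sums of a multiplicative function over the squarefree elements (`sqf_diff`), mean values
(`mean_zero`) and the number of the squarefree elements (`card_ge`, `card_le`).
-/

set_option autoImplicit false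

namespace Pool.Agent.Lib.MP_1a91b9_ntK

open NumberField Finset Pool.Agent.Lib.MP_1a91b9_ntT Pool.Agent.Lib.MP_1a91b9_ntH

noncomputable section

theorem Nz_dvd {x y : 𝓞 K} (h : x ∣ y) : Nz x ∣ Nz y := by
  obtain ⟨z, rfl⟩ := h
  exact ⟨Nz z, Nz_mul x z⟩

theorem Nz_pow (x : 𝓞 K) (n : ℕ) : Nz (x ^ n) = Nz x ^ n := by
  induction n with
  | zero => simp [Nz_one]
  | succ n ih => rw [pow_succ, pow_succ, Nz_mul, ih]

theorem Nz_pos' {x : 𝓞 K} (h : x ≠ 0) : 0 < Nz x :=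
  Nat.pos_of_ne_zero fun h1 => h (Nz_eq_zero.1 h1)

namespace Prm

variable {ι : Type} [DecidableEq ι] [PS ι] (D : Prm ι)

/-- The product of the primes in `S`. -/
def dd (S : Finset ι) : 𝓞 K := ∏ q ∈ S, D.e q

theorem dd_empty : D.dd ∅ = 1 := prod_empty

theorem dd_insert {q : ι} {S : Finset ι} (h : q ∉ S) : D.dd (insert q S) = D.e q * D.dd S :=
  prod_insert h

theorem dd_P (S : Finset ι) : D.P (D.dd S) := by
  induction S using Finset.induction_on with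
  | empty =>
    rw [dd_empty]
    exact D.one
  | insert q S hq ih =>
    rw [dd_insert _ hq]
    exact (D.mul_iff _ _).2 ih

theorem Nz_dd (S : Finset ι) : Nz (D.dd S) = nm S := by
  induction S using Finset.induction_on with
  | empty =>
    rw [dd_empty]
    exact Nz_one
  | insert q S hq ih =>
    rw [dd_insert _ hq, Nz_mul, ih, nm, nm, prod_insert hq, D.N_eq]

theorem e_ne_zero (q : ι) : D.e q ≠ 0 := (D.prime q).ne_zero

theorem dd_ne_zero (S : Finset ι) : D.dd S ≠ 0 := prod_ne_zero_iff.2 fun q _ => D.e_ne_zero q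

theorem dvd_dd {q : ι} {S : Finset ι} : D.e q ∣ D.dd S ↔ q ∈ S := by
  constructor
  · intro h
    obtain ⟨p, hp, hqp⟩ := ((D.prime q).dvd_finsetProd_iff _).1 h
    by_contra hq
    exact D.ndvd q p (fun e : q = p => hq (by rw [e]; exact hp)) hqp
  · intro h
    exact dvd_prod_of_mem (fun q : ι => D.e q) h

theorem dd_inj : Function.Injective D.dd := by
  intro S T h
  ext q
  rw [← dvd_dd, ← dvd_dd, h]

theorem dd_squarefree (S : Finset ι) : Squarefree (D.dd S) := by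
  rw [squarefree_iff_no_irreducibles (D.dd_ne_zero S)]
  intro p hp hpp
  have hp' : Prime p := hp.prime
  have h1 : p ∣ D.dd S := (dvd_mul_right _ _).trans hpp
  obtain ⟨q, hq, hpq⟩ := (hp'.dvd_finsetProd_iff _).1 h1
  have h2 : Associated p (D.e q) := isEis.assoc_of_dvd hp' (D.prime q) hpq
  have h3 : D.e q * D.e q ∣ D.dd S := (h2.symm.mul_mul h2.symm).dvd.trans hpp
  rw [← insert_erase hq, dd_insert _ (notMem_erase q S)] at h3
  have h4 : D.e q ∣ D.dd (S.erase q) := (mul_dvd_mul_iff_left (D.e_ne_zero q)).1 h3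
  exact notMem_erase q S (D.dvd_dd.1 h4)

/-- Unique factorisation. -/
theorem exists_dd' {x : 𝓞 K} (hx : D.P x) (h0 : x ≠ 0) (hs : ∀ q, ¬ D.e q ^ 2 ∣ x) :
    ∃ S : Finset ι, D.dd S = x := by
  obtain ⟨n, hn⟩ : ∃ n, Nz x = n := ⟨_, rfl⟩
  induction n using Nat.strong_induction_on generalizing x with
  | _ n ih =>
    by_cases h1 : x = 1
    · exact ⟨∅, by rw [dd_empty, h1]⟩
    · obtain ⟨q, y, hy⟩ := D.ex x hx h1
      have h2 : D.P y := (D.mul_iff q y).1 (hy ▸ hx)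
      have hy0 : y ≠ 0 := fun h => h0 (by rw [hy, h, mul_zero])
      have h3 : ∀ q, ¬ D.e q ^ 2 ∣ y := fun q h => hs q (h.trans ⟨_, by rw [hy, mul_comm]⟩)
      have h4 : Nz y < n := by
        rw [← hn, hy, Nz_mul]
        have h5 := D.two_le q
        nlinarith [Nz_pos' hy0]
      obtain ⟨S, hS⟩ := ih _ h4 h2 hy0 h3 rfl
      have h5 : q ∉ S := by
        intro hq
        have h6 : D.e q ∣ y := hS ▸ D.dvd_dd.2 hq
        apply hs q
        rw [hy, pow_two]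
        exact mul_dvd_mul_left _ h6
      exact ⟨insert q S, by rw [dd_insert _ h5, hS, hy]⟩

theorem exists_dd {x : 𝓞 K} (hx : D.P x) (hs : Squarefree x) : ∃ S : Finset ι, D.dd S = x := by
  refine D.exists_dd' hx hs.ne_zero fun q h => ?_
  rw [pow_two] at h
  exact (D.prime q).not_unit (hs _ h)

theorem exists_sq {x : 𝓞 K} (hx : D.P x) (h0 : x ≠ 0) (h : ¬ Squarefree x) :
    ∃ q, D.e q ^ 2 ∣ x := by
  by_contra hc
  push Not at hc
  obtain ⟨S, rfl⟩ := D.exists_dd' hx h0 hc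
  exact h (D.dd_squarefree S)

theorem coprime_e {p q : ι} (h : p ≠ q) : IsCoprime (D.e p) (D.e q) :=
  ((D.prime p).irreducible.coprime_iff_not_dvd).2 (D.ndvd p q h)

theorem dd_sq_dvd_iff (S : Finset ι) (x : 𝓞 K) :
    D.dd S ^ 2 ∣ x ↔ ∀ p ∈ S, D.e p ^ 2 ∣ x := by
  constructor
  · intro h p hp
    exact (pow_dvd_pow_of_dvd (dvd_prod_of_mem (fun q : ι => D.e q) hp) 2).trans h
  · intro h
    have e : D.dd S ^ 2 = ∏ q ∈ S, D.e q ^ 2 := by
      unfold dd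
      rw [prod_pow]
    rw [e]
    exact Finset.prod_dvd_of_coprime (fun p _ q _ hpq => (D.coprime_e hpq).pow) h

open Classical in
theorem sum_Sx (F : 𝓞 K → ℂ) (hF : ∀ x, ¬ D.P x → F x = 0) (X : ℕ) :
    ∑ S ∈ Sx ι X, F (D.dd S) = ∑ x ∈ (discE (𝓞 K) X).filter (fun x => Squarefree x), F x := by
  refine Finset.sum_of_injOn D.dd D.dd_inj.injOn ?_ ?_ (fun S _ => rfl)
  · intro S hS
    have hS' : S ∈ Sx ι X := hS
    rw [mem_coe, mem_filter, mem_disc, D.Nz_dd]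
    exact ⟨mem_Sx.1 hS', D.dd_squarefree S⟩
  · intro x hx hn
    rw [mem_filter, mem_disc] at hx
    by_cases h : D.P x
    · exfalso
      obtain ⟨S, rfl⟩ := D.exists_dd h hx.2
      apply hn
      refine ⟨S, ?_, rfl⟩
      rw [mem_coe, mem_Sx, ← D.Nz_dd]
      exact hx.1
    · exact hF x h

variable {D}

/-- The products of normalised primes. -/
inductive Pr (D : Prm ι) : 𝓞 K → Prop
  | one : Pr D 1
  | mul (q : ι) (b : 𝓞 K) : Pr D b → Pr D (D.e q * b)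

theorem Pr.P {b : 𝓞 K} (h : Pr D b) : D.P b := by
  induction h with
  | one => exact D.one
  | mul q b _ ih => exact (D.mul_iff q b).2 ih

theorem Pr.ne {b : 𝓞 K} (h : Pr D b) : b ≠ 0 := by
  induction h with
  | one => exact one_ne_zero
  | mul q b _ ih => exact mul_ne_zero (D.e_ne_zero q) ih

theorem Pr.mul_iff {b : 𝓞 K} (h : Pr D b) (y : 𝓞 K) : D.P (b * y) ↔ D.P y := by
  induction h with
  | one => rw [one_mul]
  | mul q b _ ih => rw [mul_assoc, D.mul_iff, ih]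

theorem Pr.map {F : 𝓞 K → ℂ} (hF : MulC D F) {b : 𝓞 K} (h : Pr D b) (y : 𝓞 K) :
    F (b * y) = F b * F y := by
  induction h with
  | one => rw [one_mul, hF.one, one_mul]
  | mul q b hb ih =>
    by_cases hy : D.P y
    · rw [mul_assoc, hF.mul q _ ((hb.mul_iff y).2 hy), ih, hF.mul q _ hb.P, mul_assoc]
    · rw [hF.zero y hy, hF.zero _ (fun h => hy (((Pr.mul q b hb).mul_iff y).1 h)), mul_zero]

theorem pr_mul {b c : 𝓞 K} (hb : Pr D b) (hc : Pr D c) : Pr D (b * c) := by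
  induction hb with
  | one => rwa [one_mul]
  | mul q b _ ih =>
    rw [mul_assoc]
    exact Pr.mul q _ ih

theorem pr_dd (S : Finset ι) : Pr D (D.dd S) := by
  induction S using Finset.induction_on with
  | empty =>
    rw [dd_empty]
    exact Pr.one
  | insert q S hq ih =>
    rw [dd_insert _ hq]
    exact Pr.mul q _ ih

theorem pr_e_sq (q : ι) : Pr D (D.e q ^ 2) := by
  have h : D.e q ^ 2 = D.e q * (D.e q * 1) := by ring
  rw [h]
  exact Pr.mul q _ (Pr.mul q _ Pr.one)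

theorem pr_dd_sq (S : Finset ι) : Pr D (D.dd S ^ 2) := by
  rw [pow_two]
  exact pr_mul (pr_dd S) (pr_dd S)

open Classical in
theorem sum_dvd {F : 𝓞 K → ℂ} (hF : MulC D F) {b : 𝓞 K} (hb : Pr D b) (X : ℕ) :
    ∑ y ∈ (discE (𝓞 K) X).filter (fun y => b ∣ y), F y =
      F b * ∑ x ∈ discE (𝓞 K) (X / Nz b), F x := by
  have hN : 0 < Nz b := Nz_pos' hb.ne
  rw [mul_sum]
  symm
  refine Finset.sum_of_injOn (fun x => b * x) (mul_right_injective₀ hb.ne).injOn ?_ ?_ ?_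
  · intro x hx
    rw [mem_coe, mem_disc, Nat.le_div_iff_mul_le hN] at hx
    rw [mem_coe, mem_filter, mem_disc, Nz_mul]
    exact ⟨by rw [mul_comm]; exact hx, dvd_mul_right _ _⟩
  · intro y hy hn
    exfalso
    rw [mem_filter, mem_disc] at hy
    obtain ⟨x, rfl⟩ := hy.2
    apply hn
    refine ⟨x, ?_, rfl⟩
    rw [mem_coe, mem_disc, Nat.le_div_iff_mul_le hN, mul_comm, ← Nz_mul]
    exact hy.1
  · intro x _
    change F b * F x = F (b * x)
    rw [hb.map hF x]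

theorem Nz_dd_sq (T : Finset ι) : Nz (D.dd T ^ 2) = nm T ^ 2 := by
  rw [Nz_pow, D.Nz_dd]

open Classical in
/-- Inclusion and exclusion. -/
theorem sieve_sq {F : 𝓞 K → ℂ} (hF : MulC D F) (s : Finset ι) (X : ℕ) :
    ∑ T ∈ s.powerset, (-1 : ℂ) ^ T.card * F (D.dd T ^ 2) *
      ∑ x ∈ discE (𝓞 K) (X / nm T ^ 2), F x =
    ∑ y ∈ (discE (𝓞 K) X).filter (fun y => ∀ q ∈ s, ¬ D.e q ^ 2 ∣ y), F y := by
  have h1 : ∀ T ∈ s.powerset, (-1 : ℂ) ^ T.card * F (D.dd T ^ 2) *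
      ∑ x ∈ discE (𝓞 K) (X / nm T ^ 2), F x =
      ∑ y ∈ discE (𝓞 K) X, if D.dd T ^ 2 ∣ y then (-1 : ℂ) ^ T.card * F y else 0 := by
    intro T _
    rw [mul_assoc, ← Nz_dd_sq (D := D), ← sum_dvd hF (pr_dd_sq T), mul_sum, sum_filter]
  rw [sum_congr rfl h1, sum_comm, sum_filter]
  refine sum_congr rfl fun y _ => ?_
  rw [← sum_filter, ← sum_mul]
  have h2 : s.powerset.filter (fun T => D.dd T ^ 2 ∣ y) =
      (s.filter fun q => D.e q ^ 2 ∣ y).powerset := by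
    ext T
    rw [mem_filter, mem_powerset, mem_powerset, D.dd_sq_dvd_iff, subset_iff, subset_iff]
    constructor
    · rintro ⟨h, h'⟩ q hq
      exact mem_filter.2 ⟨h hq, h' q hq⟩
    · intro h
      exact ⟨fun q hq => (mem_filter.1 (h hq)).1, fun q hq => (mem_filter.1 (h hq)).2⟩
  have h3 : ∑ T ∈ (s.filter fun q => D.e q ^ 2 ∣ y).powerset, (-1 : ℂ) ^ T.card =
      if (s.filter fun q => D.e q ^ 2 ∣ y) = ∅ then 1 else 0 := by
    have h := Finset.sum_powerset_neg_one_pow_card (x := s.filter fun q => D.e q ^ 2 ∣ y)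
    have h' := congrArg (fun z : ℤ => (z : ℂ)) h
    push_cast at h'
    exact h'
  rw [h2, h3]
  by_cases h : ∀ q ∈ s, ¬ D.e q ^ 2 ∣ y
  · rw [if_pos h, if_pos (filter_eq_empty_iff.2 h), one_mul]
  · rw [if_neg h, if_neg (fun h' => h (filter_eq_empty_iff.1 h')), zero_mul]

theorem disc_zero {x : 𝓞 K} (h : x ∈ discE (𝓞 K) 0) : x = 0 := by
  rw [mem_disc] at h
  exact Nz_eq_zero.1 (by omega)

theorem sum_disc_zero (h0 : ¬ D.P 0) {F : 𝓞 K → ℂ} (hF : MulC D F) :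
    ∑ x ∈ discE (𝓞 K) 0, F x = 0 :=
  sum_eq_zero fun x hx => by rw [disc_zero hx]; exact hF.zero 0 h0

/-- The number of the elements divisible by a square. -/
theorem card_dvd_le (q : ι) (X : ℕ) (h0 : ¬ D.P 0)
    [DecidablePred fun y : 𝓞 K => D.P y ∧ D.e q ^ 2 ∣ y] :
    (((discE (𝓞 K) X).filter (fun y => D.P y ∧ D.e q ^ 2 ∣ y)).card : ℝ) ≤
      25 * (X * ((Nz (D.e q) : ℝ) ^ (-(2 : ℝ)))) := by
  classical
  have hN : 0 < Nz (D.e q ^ 2) := Nz_pos' (pow_ne_zero 2 (D.e_ne_zero q))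
  have h1 : ((discE (𝓞 K) X).filter (fun y => D.P y ∧ D.e q ^ 2 ∣ y)).card ≤
      ((discE (𝓞 K) (X / Nz (D.e q ^ 2))).filter fun x => x ≠ 0).card := by
    refine card_le_card_of_surjOn (fun x => D.e q ^ 2 * x) ?_
    intro y hy
    rw [mem_coe, mem_filter, mem_disc] at hy
    obtain ⟨x, rfl⟩ := hy.2.2
    refine ⟨x, ?_, rfl⟩
    rw [mem_coe, mem_filter, mem_disc, Nat.le_div_iff_mul_le hN, mul_comm, ← Nz_mul]
    refine ⟨hy.1, ?_⟩
    rintro rfl
    rw [mul_zero] at hy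
    exact h0 hy.2.1
  rcases Nat.eq_zero_or_pos (X / Nz (D.e q ^ 2)) with h2 | h2
  · rw [h2] at h1
    have h3 : (discE (𝓞 K) 0).filter (fun x => x ≠ 0) = ∅ := by
      rw [filter_eq_empty_iff]
      intro x hx h
      exact h (disc_zero hx)
    rw [h3, card_empty] at h1
    have h4 : (((discE (𝓞 K) X).filter (fun y => D.P y ∧ D.e q ^ 2 ∣ y)).card : ℝ) = 0 := by
      exact_mod_cast Nat.le_zero.1 h1
    rw [h4]
    positivity
  · have h3 := h1.trans ((card_filter_le _ _).trans (card_discE_le' (R := 𝓞 K) _ h2))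
    have h4 : (((discE (𝓞 K) X).filter (fun y => D.P y ∧ D.e q ^ 2 ∣ y)).card : ℝ) ≤
        25 * ((X / Nz (D.e q ^ 2) : ℕ) : ℝ) := by exact_mod_cast h3
    refine h4.trans ?_
    have h5 : ((X / Nz (D.e q ^ 2) : ℕ) : ℝ) ≤ X / (Nz (D.e q) : ℝ) ^ 2 := by
      have := @Nat.cast_div_le ℝ _ _ _ X (Nz (D.e q ^ 2))
      rw [Nz_pow] at this ⊢
      push_cast at this
      exact this
    have h6 : (Nz (D.e q) : ℝ) ^ (-(2 : ℝ)) = 1 / (Nz (D.e q) : ℝ) ^ 2 := by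
      rw [Real.rpow_neg (Nat.cast_nonneg _), one_div]
      norm_cast
    rw [h6]
    calc (25 : ℝ) * ((X / Nz (D.e q ^ 2) : ℕ) : ℝ) ≤ 25 * (X / (Nz (D.e q) : ℝ) ^ 2) := by gcongr
      _ = 25 * (X * (1 / (Nz (D.e q) : ℝ) ^ 2)) := by ring

theorem tail (D : Prm ι) (ε : ℝ) (hε : 0 < ε) : ∃ Y : ℕ, ∀ s : Finset ι,
    (∀ q ∈ s, Y < Nz (D.e q)) → ∑ q ∈ s, (Nz (D.e q) : ℝ) ^ (-(2 : ℝ)) ≤ ε := by
  classical
  have hs := summable_Nz 2 (by norm_num)
  obtain ⟨A, hA⟩ := summable_iff_vanishing_norm.1 hs ε hε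
  refine ⟨∑ x ∈ A, Nz x, fun s hs => ?_⟩
  have h2 := hA (s.image D.e) (by
    rw [disjoint_left]
    intro x hx hxA
    obtain ⟨q, hq, rfl⟩ := mem_image.1 hx
    have h3 := hs q hq
    have h4 : Nz (D.e q) ≤ ∑ x ∈ A, Nz x := single_le_sum (fun _ _ => Nat.zero_le _) hxA
    omega)
  rw [sum_image D.e_inj.injOn] at h2
  exact ((le_abs_self _).trans h2.le)

/-- The squarefree sums and the sums over the elements not divisible by the square of a prime in a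
finite set. -/
theorem sqf_diff (h0 : ¬ D.P 0) (F : 𝓞 K → ℂ) (hF : MulC D F) (ε : ℝ) (hε : 0 < ε) :
    ∃ s : Finset ι, ∀ X : ℕ,
    ‖∑ S ∈ Sx ι X, F (D.dd S) - ∑ T ∈ s.powerset, (-1 : ℂ) ^ T.card * F (D.dd T ^ 2) *
      ∑ x ∈ discE (𝓞 K) (X / nm T ^ 2), F x‖ ≤ ε * X := by
  classical
  obtain ⟨Y, hY⟩ := tail D (ε / 25) (by positivity)
  refine ⟨pr ι Y, fun X => ?_⟩
  rw [sieve_sq hF, D.sum_Sx F hF.zero, sum_filter, sum_filter, ← sum_sub_distrib]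
  have hpt : ∀ x ∈ discE (𝓞 K) X,
      ‖(if Squarefree x then F x else 0) - (if ∀ q ∈ pr ι Y, ¬ D.e q ^ 2 ∣ x then F x else 0)‖ ≤
      ∑ q ∈ pr ι X \ pr ι Y, if D.P x ∧ D.e q ^ 2 ∣ x then (1 : ℝ) else 0 := by
    intro x hx
    rw [mem_disc] at hx
    have hnn : ∀ q ∈ pr ι X \ pr ι Y, (0 : ℝ) ≤ if D.P x ∧ D.e q ^ 2 ∣ x then (1 : ℝ) else 0 := by
      intro q _
      split_ifs
      · exact zero_le_one
      · exact le_rfl
    by_cases hP : D.P x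
    · have hx0 : x ≠ 0 := fun h => h0 (h ▸ hP)
      by_cases hs : Squarefree x
      · have h2 : ∀ q ∈ pr ι Y, ¬ D.e q ^ 2 ∣ x := by
          intro q _ h
          rw [pow_two] at h
          exact (D.prime q).not_unit (hs (D.e q) h)
        rw [if_pos hs, if_pos h2, sub_self, norm_zero]
        exact sum_nonneg hnn
      · rw [if_neg hs]
        by_cases h2 : ∀ q ∈ pr ι Y, ¬ D.e q ^ 2 ∣ x
        · rw [if_pos h2, zero_sub, norm_neg]
          obtain ⟨q, hq⟩ := D.exists_sq hP hx0 hs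
          have hq1 : q ∉ pr ι Y := fun h => h2 q h hq
          have hq2 : q ∈ pr ι X := by
            rw [mem_pr, D.N_eq]
            have h3 := Nat.le_of_dvd (Nz_pos' hx0) (Nz_dvd hq)
            rw [Nz_pow] at h3
            have h4 := D.two_le q
            nlinarith
          refine le_trans ?_ (single_le_sum hnn (mem_sdiff.2 ⟨hq2, hq1⟩))
          rw [if_pos ⟨hP, hq⟩]
          exact hF.le x
        · rw [if_neg h2, sub_self, norm_zero]
          exact sum_nonneg hnn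
    · rw [hF.zero x hP]
      simp only [ite_self, sub_self, norm_zero]
      exact sum_nonneg hnn
  refine (norm_sum_le _ _).trans ((sum_le_sum hpt).trans ?_)
  rw [sum_comm]
  have h5 : ∀ q ∈ pr ι X \ pr ι Y,
      (∑ x ∈ discE (𝓞 K) X, if D.P x ∧ D.e q ^ 2 ∣ x then (1 : ℝ) else 0) ≤
        25 * (X * ((Nz (D.e q) : ℝ) ^ (-(2 : ℝ)))) := by
    intro q _
    rw [← sum_filter, sum_const, nsmul_eq_mul, mul_one]
    exact card_dvd_le q X h0
  refine (sum_le_sum h5).trans ?_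
  rw [← mul_sum, ← mul_sum]
  have h6 := hY (pr ι X \ pr ι Y) (fun q hq => by
    rw [mem_sdiff, mem_pr, mem_pr, D.N_eq] at hq
    exact not_le.1 hq.2)
  have hX : (0 : ℝ) ≤ X := Nat.cast_nonneg X
  calc (25 : ℝ) * (X * ∑ q ∈ pr ι X \ pr ι Y, (Nz (D.e q) : ℝ) ^ (-(2 : ℝ))) ≤
        25 * (X * (ε / 25)) := by
        gcongr
    _ = ε * X := by ring

/-- A multiplicative function with small sums over the discs has mean value zero on the squarefree
elements. -/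
theorem mean_zero (h0 : ¬ D.P 0) (F : 𝓞 K → ℂ) (hF : MulC D F) {B : ℝ} (hB : 0 ≤ B)
    (hsum : ∀ X : ℕ, 1 ≤ X → ‖∑ x ∈ discE (𝓞 K) X, F x‖ ≤ B * Real.sqrt X) (ε : ℝ) (hε : 0 < ε) :
    ∃ X₀ : ℕ, ∀ X : ℕ, X₀ ≤ X → ‖∑ S ∈ Sx ι X, F (D.dd S)‖ ≤ ε * X := by
  obtain ⟨s, hs⟩ := sqf_diff h0 F hF (ε / 2) (by positivity)
  obtain ⟨M, hM⟩ := exists_nat_gt ((2 * (2 ^ s.card * B) / ε) ^ 2)
  refine ⟨M, fun X hX => ?_⟩
  have h1 := hs X
  have hnn : (0 : ℝ) ≤ 2 * (2 ^ s.card * B) / ε := by positivity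
  have h2 : ‖∑ T ∈ s.powerset, (-1 : ℂ) ^ T.card * F (D.dd T ^ 2) *
      ∑ x ∈ discE (𝓞 K) (X / nm T ^ 2), F x‖ ≤ 2 ^ s.card * B * Real.sqrt X := by
    refine (norm_sum_le _ _).trans ?_
    have h3 : ∀ T ∈ s.powerset, ‖(-1 : ℂ) ^ T.card * F (D.dd T ^ 2) *
        ∑ x ∈ discE (𝓞 K) (X / nm T ^ 2), F x‖ ≤ B * Real.sqrt X := by
      intro T _
      rw [norm_mul, norm_mul, norm_pow, norm_neg, norm_one, one_pow, one_mul]
      have h4 : ‖F (D.dd T ^ 2)‖ ≤ 1 := hF.le _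
      have h5 : ‖∑ x ∈ discE (𝓞 K) (X / nm T ^ 2), F x‖ ≤ B * Real.sqrt X := by
        rcases Nat.eq_zero_or_pos (X / nm T ^ 2) with h0' | h0'
        · rw [h0', sum_disc_zero h0 hF, norm_zero]
          positivity
        · refine (hsum _ h0').trans ?_
          gcongr
          exact Nat.div_le_self X _
      calc ‖F (D.dd T ^ 2)‖ * ‖∑ x ∈ discE (𝓞 K) (X / nm T ^ 2), F x‖
          ≤ 1 * (B * Real.sqrt X) := mul_le_mul h4 h5 (norm_nonneg _) zero_le_one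
        _ = _ := one_mul _
    refine (sum_le_sum h3).trans ?_
    rw [sum_const, card_powerset, nsmul_eq_mul]
    push_cast
    rw [mul_assoc]
  have h6 : 2 * (2 ^ s.card * B) / ε ≤ Real.sqrt X := by
    apply Real.le_sqrt_of_sq_le
    have : (M : ℝ) ≤ X := by exact_mod_cast hX
    linarith
  have h7 : 2 ^ s.card * B * Real.sqrt X ≤ ε / 2 * X := by
    rw [div_le_iff₀ hε] at h6
    have h8 : Real.sqrt X * Real.sqrt X = X := Real.mul_self_sqrt (Nat.cast_nonneg X)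
    nlinarith [Real.sqrt_nonneg (X : ℝ)]
  have h9 : ∑ S ∈ Sx ι X, F (D.dd S) = (∑ S ∈ Sx ι X, F (D.dd S) -
      ∑ T ∈ s.powerset, (-1 : ℂ) ^ T.card * F (D.dd T ^ 2) *
      ∑ x ∈ discE (𝓞 K) (X / nm T ^ 2), F x) + ∑ T ∈ s.powerset, (-1 : ℂ) ^ T.card *
      F (D.dd T ^ 2) * ∑ x ∈ discE (𝓞 K) (X / nm T ^ 2), F x := by ring
  rw [h9]
  refine (norm_add_le _ _).trans ?_
  linarith

/-- There are at most `25 X` squarefree elements of norm at most `X`. -/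
theorem card_le (D : Prm ι) (X : ℕ) : ((Sx ι X).card : ℝ) ≤ 25 * X := by
  classical
  rcases Nat.eq_zero_or_pos X with rfl | hX
  · have h : Sx ι 0 = ∅ := by
      rw [eq_empty_iff_forall_notMem]
      intro S hS
      rw [mem_Sx] at hS
      have := one_le_nm S
      omega
    rw [h]
    simp
  · have h1 : (Sx ι X).card ≤ (discE (𝓞 K) X).card := by
      refine card_le_card_of_injOn D.dd ?_ D.dd_inj.injOn
      intro S hS
      have hS' : S ∈ Sx ι X := hS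
      rw [mem_coe, mem_disc, D.Nz_dd]
      exact mem_Sx.1 hS'
    exact_mod_cast h1.trans (card_discE_le' (R := 𝓞 K) X hX)

/-- The normalised elements are the elements which are `1` modulo `m`. -/
structure Md (D : Prm ι) (m : 𝓞 K) : Prop where
  ne : m ≠ 0
  nu : ¬ IsUnit m
  iff : ∀ x, D.P x ↔ m ∣ x - 1

theorem Md.h0 {m : 𝓞 K} (h : Md D m) : ¬ D.P 0 := by
  rw [h.iff, zero_sub, dvd_neg]
  exact fun h1 => h.nu (isUnit_of_dvd_one h1)

open Classical in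
/-- The number of the normalised elements of norm at most `X`. -/
def PX (D : Prm ι) (X : ℕ) : ℕ := ((discE (𝓞 K) X).filter fun x => D.P x).card

theorem sum_ind (X : ℕ) : ∑ x ∈ discE (𝓞 K) X, D.ind x = (PX D X : ℂ) := by
  classical
  unfold PX Prm.ind
  rw [← sum_filter, sum_const, nsmul_eq_mul, mul_one]

/-- The error term. -/
def Er (m X : ℕ) : ℕ := 2 * Nat.sqrt m * (4 * Nat.sqrt X + 1)

theorem coprime_b {m : 𝓞 K} (h : Md D m) {b : 𝓞 K} (hb : D.P b) : IsCoprime m b := by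
  obtain ⟨t, ht⟩ := (h.iff b).1 hb
  exact ⟨-t, 1, by linear_combination ht⟩

theorem dvd_iff {m : 𝓞 K} (h : Md D m) {b : 𝓞 K} (hb : D.P b) (r y : 𝓞 K) :
    m * b ∣ y - (r + b * (1 - r)) ↔ D.P y ∧ b ∣ y - r := by
  have h1 : (m ∣ y - (r + b * (1 - r))) ↔ D.P y := by
    have e : y - (r + b * (1 - r)) = (y - 1) - (b - 1) * (1 - r) := by ring
    rw [e, h.iff]
    exact dvd_sub_left (Dvd.dvd.mul_right ((h.iff b).1 hb) _)
  have h2 : (b ∣ y - (r + b * (1 - r))) ↔ b ∣ y - r := by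
    have e : y - (r + b * (1 - r)) = (y - r) - b * (1 - r) := by ring
    rw [e]
    exact dvd_sub_left (dvd_mul_right _ _)
  constructor
  · intro h3
    exact ⟨h1.1 ((dvd_mul_right _ _).trans h3), h2.1 ((dvd_mul_left _ _).trans h3)⟩
  · rintro ⟨h3, h4⟩
    exact (coprime_b h hb).mul_dvd (h1.2 h3) (h2.2 h4)

open Classical in
/-- The number of the normalised elements of norm at most `X` in a residue class. -/
def cnt (D : Prm ι) (b : 𝓞 K) (X : ℕ) (r : 𝓞 K) : ℕ :=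
  ((discE (𝓞 K) X).filter fun y => D.P y ∧ b ∣ y - r).card

theorem cnt_le {m : 𝓞 K} (hm : Md D m) {b : 𝓞 K} (hb : D.P b) (hb0 : b ≠ 0) (X : ℕ) (r s : 𝓞 K) :
    cnt D b X r ≤ cnt D b X s + Er (Nz m * Nz b) X := by
  classical
  have h := class_discE (m * b) (mul_ne_zero hm.ne hb0) (r + b * (1 - r)) (s + b * (1 - s)) X
  simp only [dvd_iff hm hb] at h
  rw [nE_eq, Nz_mul] at h
  exact h

theorem cnt_zero {b : 𝓞 K} (hb : Pr D b) (X : ℕ) : cnt D b X 0 = PX D (X / Nz b) := by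
  classical
  have h := sum_dvd D.ind_mulC hb X
  have hb1 : D.ind b = 1 := if_pos hb.P
  rw [hb1, one_mul, sum_ind] at h
  have h1 : ∑ y ∈ (discE (𝓞 K) X).filter (fun y => b ∣ y), D.ind y = (cnt D b X 0 : ℂ) := by
    unfold Prm.ind cnt
    rw [← sum_filter, sum_const, nsmul_eq_mul, mul_one, filter_filter]
    congr 2
    apply filter_congr
    intro y _
    rw [sub_zero, and_comm]
  rw [h1] at h
  exact_mod_cast h

instance finite_quot (b : 𝓞 K) [NeZero b] : Finite (𝓞 K ⧸ Ideal.span {b}) := by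
  apply Nat.finite_of_card_ne_zero
  rw [card_quot]
  exact fun h => NeZero.ne b (Nz_eq_zero.1 h)

theorem PX_eq {b : 𝓞 K} (hb0 : b ≠ 0) (X : ℕ) : ∃ (κ : Type) (_ : Fintype κ) (r : κ → 𝓞 K),
    Fintype.card κ = Nz b ∧ PX D X = ∑ i, cnt D b X (r i) := by
  classical
  have : NeZero b := ⟨hb0⟩
  let _ : Fintype (𝓞 K ⧸ Ideal.span {b}) := Fintype.ofFinite _
  have hs : ∀ z : 𝓞 K ⧸ Ideal.span {b}, ∃ r : 𝓞 K, Ideal.Quotient.mk (Ideal.span {b}) r = z :=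
    Ideal.Quotient.mk_surjective
  choose r hr using hs
  refine ⟨𝓞 K ⧸ Ideal.span {b}, inferInstance, r, ?_, ?_⟩
  · rw [← Nat.card_eq_fintype_card, card_quot]
  · unfold PX
    rw [card_eq_sum_card_fiberwise (f := fun y => Ideal.Quotient.mk (Ideal.span {b}) y)
      (t := univ) (fun _ _ => mem_coe.2 (mem_univ _))]
    refine sum_congr rfl fun z _ => ?_
    unfold cnt
    rw [filter_filter]
    congr 1
    apply filter_congr
    intro y _
    have : (Ideal.Quotient.mk (Ideal.span {b}) y = z) ↔ b ∣ y - r z := by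
      conv_lhs => rw [← hr z]
      rw [Ideal.Quotient.eq, Ideal.mem_span_singleton]
    rw [this]

theorem PX_le {m : 𝓞 K} (hm : Md D m) {b : 𝓞 K} (hb : Pr D b) (X : ℕ) :
    PX D X ≤ Nz b * (PX D (X / Nz b) + Er (Nz m * Nz b) X) := by
  obtain ⟨κ, _, r, h1, h2⟩ := PX_eq (D := D) hb.ne X
  have h3 : ∑ i, cnt D b X (r i) ≤ ∑ _i : κ, (cnt D b X 0 + Er (Nz m * Nz b) X) :=
    sum_le_sum fun i _ => cnt_le hm hb.P hb.ne X _ _
  rw [sum_const, smul_eq_mul, card_univ, h1, cnt_zero hb, ← h2] at h3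
  exact h3

theorem le_PX {m : 𝓞 K} (hm : Md D m) {b : 𝓞 K} (hb : Pr D b) (X : ℕ) :
    Nz b * PX D (X / Nz b) ≤ PX D X + Nz b * Er (Nz m * Nz b) X := by
  obtain ⟨κ, _, r, h1, h2⟩ := PX_eq (D := D) hb.ne X
  rw [h2, ← cnt_zero hb]
  have h3 : ∑ i : κ, cnt D b X 0 ≤ ∑ i, (cnt D b X (r i) + Er (Nz m * Nz b) X) :=
    sum_le_sum fun i _ => cnt_le hm hb.P hb.ne X _ _
  rw [sum_add_distrib, sum_const, sum_const, smul_eq_mul, smul_eq_mul, card_univ, h1] at h3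
  exact h3

theorem Er_le (m X : ℕ) (hX : 1 ≤ X) : (Er m X : ℝ) ≤ 10 * Real.sqrt m * Real.sqrt X := by
  unfold Er
  have h1 : ((Nat.sqrt m : ℕ) : ℝ) ≤ Real.sqrt m := Real.nat_sqrt_le_real_sqrt
  have h2 : ((Nat.sqrt X : ℕ) : ℝ) ≤ Real.sqrt X := Real.nat_sqrt_le_real_sqrt
  have h3 : (1 : ℝ) ≤ Real.sqrt X := by
    rw [Real.one_le_sqrt]
    exact_mod_cast hX
  have h4 : 0 ≤ Real.sqrt m := Real.sqrt_nonneg _
  push_cast
  calc (2 : ℝ) * Nat.sqrt m * (4 * Nat.sqrt X + 1)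
      ≤ 2 * Real.sqrt m * (4 * Real.sqrt X + Real.sqrt X) := by gcongr
    _ = 10 * Real.sqrt m * Real.sqrt X := by ring

/-- The numbers of normalised elements scale. -/
theorem PX_scale {m : 𝓞 K} (hm : Md D m) {b : 𝓞 K} (hb : Pr D b) (X : ℕ) (hX : 1 ≤ X) :
    |(PX D (X / Nz b) : ℝ) - PX D X / Nz b| ≤
      10 * Real.sqrt (Nz m * Nz b : ℕ) * Real.sqrt X := by
  have h1 : (PX D X : ℝ) ≤ Nz b * (PX D (X / Nz b) + Er (Nz m * Nz b) X) := by
    exact_mod_cast PX_le hm hb X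
  have h2 : (Nz b : ℝ) * PX D (X / Nz b) ≤ PX D X + Nz b * Er (Nz m * Nz b) X := by
    exact_mod_cast le_PX hm hb X
  have h3 : (0 : ℝ) < Nz b := by exact_mod_cast Nz_pos' hb.ne
  have h4 := Er_le (Nz m * Nz b) X hX
  refine le_trans ?_ h4
  rw [abs_le]
  have e : (PX D X : ℝ) / Nz b * Nz b = PX D X := div_mul_cancel₀ _ h3.ne'
  constructor
  · nlinarith
  · nlinarith

theorem card_disc_ge (X : ℕ) : X ≤ (discE (𝓞 K) X).card := by
  classical
  let f : ℕ × ℕ → 𝓞 K := fun p => ((p.1 : ℤ) : 𝓞 K) + ((p.2 : ℤ) : 𝓞 K) * wO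
  have hf : Function.Injective f := by
    rintro ⟨a, b⟩ ⟨c, d⟩ h
    have h' := coords_inj h
    simp only [Prod.mk.injEq]
    omega
  have h1 : ((range (Nat.sqrt X + 1)) ×ˢ (range (Nat.sqrt X + 1))).card ≤
      (discE (𝓞 K) X).card := by
    refine card_le_card_of_injOn f ?_ hf.injOn
    rintro ⟨a, b⟩ hab
    rw [mem_coe, mem_product, mem_range, mem_range] at hab
    rw [mem_coe, mem_disc]
    have h2 := Nz_coords (a : ℤ) (b : ℤ)
    have h3 : Nat.sqrt X ^ 2 ≤ X := Nat.sqrt_le' X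
    have ha : a ≤ Nat.sqrt X := by have := hab.1; omega
    have hb : b ≤ Nat.sqrt X := by have := hab.2; omega
    have h4 : (Nz (f (a, b)) : ℤ) ≤ X := by
      change (Nz (((a : ℤ) : 𝓞 K) + ((b : ℤ) : 𝓞 K) * wO) : ℤ) ≤ X
      rw [h2]
      have ha' : (a : ℤ) ≤ Nat.sqrt X := by exact_mod_cast ha
      have hb' : (b : ℤ) ≤ Nat.sqrt X := by exact_mod_cast hb
      have ha0 : (0 : ℤ) ≤ a := Int.natCast_nonneg a
      have hb0 : (0 : ℤ) ≤ b := Int.natCast_nonneg b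
      have h3' : ((Nat.sqrt X : ℕ) : ℤ) ^ 2 ≤ X := by exact_mod_cast h3
      rcases le_total (a : ℤ) b with h | h
      · nlinarith
      · nlinarith
    exact_mod_cast h4
  rw [card_product, card_range] at h1
  have h5 := Nat.lt_succ_sqrt X
  rw [Nat.succ_eq_add_one] at h5
  omega

/-- A positive proportion of the elements is normalised. -/
theorem PX_ge {m : 𝓞 K} (hm : Md D m) (X : ℕ) : X ≤ Nz m * (PX D X + Er (Nz m) X) := by
  classical
  have : NeZero m := ⟨hm.ne⟩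
  let _ : Fintype (𝓞 K ⧸ Ideal.span {m}) := Fintype.ofFinite _
  have hcard : Fintype.card (𝓞 K ⧸ Ideal.span {m}) = Nz m := by
    rw [← Nat.card_eq_fintype_card, card_quot]
  refine (card_disc_ge X).trans ?_
  rw [card_eq_sum_card_fiberwise (f := fun y => Ideal.Quotient.mk (Ideal.span {m}) y)
      (t := univ) (fun _ _ => mem_coe.2 (mem_univ _))]
  have hsum : ∑ _z : 𝓞 K ⧸ Ideal.span {m}, (PX D X + Er (Nz m) X) =
      Nz m * (PX D X + Er (Nz m) X) := by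
    rw [sum_const, smul_eq_mul, card_univ, hcard]
  rw [← hsum]
  refine sum_le_sum fun z _ => ?_
  obtain ⟨r, rfl⟩ := Ideal.Quotient.mk_surjective z
  have h := class_discE m hm.ne r 1 X
  have h2 : ((discE (𝓞 K) X).filter fun y => Ideal.Quotient.mk (Ideal.span {m}) y =
      Ideal.Quotient.mk (Ideal.span {m}) r) =
      (discE (𝓞 K) X).filter fun y => m ∣ y - r := by
    apply filter_congr
    intro y _
    rw [Ideal.Quotient.eq, Ideal.mem_span_singleton]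
  have h3 : ((discE (𝓞 K) X).filter fun y => m ∣ y - 1) =
      (discE (𝓞 K) X).filter fun y => D.P y := by
    apply filter_congr
    intro y _
    rw [hm.iff]
  rw [nE_eq, h3] at h
  rw [h2]
  exact h

/-- The finite sieve. -/
theorem sieve_main {m : 𝓞 K} (hm : Md D m) (s : Finset ι) : ∃ C : ℝ, 0 ≤ C ∧ ∀ X : ℕ, 1 ≤ X →
    ‖∑ T ∈ s.powerset, (-1 : ℂ) ^ T.card * D.ind (D.dd T ^ 2) *
      ∑ x ∈ discE (𝓞 K) (X / nm T ^ 2), D.ind x -
      ((PX D X * ∏ q ∈ s, (1 - 1 / (Nz (D.e q) : ℝ) ^ 2) : ℝ) : ℂ)‖ ≤ C * Real.sqrt X := by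
  classical
  refine ⟨∑ T ∈ s.powerset, 10 * Real.sqrt (Nz m * nm T ^ 2 : ℕ), by positivity, fun X hX => ?_⟩
  have e1 : ∏ q ∈ s, (1 - 1 / (Nz (D.e q) : ℝ) ^ 2) =
      ∑ T ∈ s.powerset, (-1 : ℝ) ^ T.card / (nm T : ℝ) ^ 2 := by
    have h := Finset.prod_one_add (s := s) (f := fun q : ι => - (1 / (Nz (D.e q) : ℝ) ^ 2))
    simp only [← sub_eq_add_neg] at h
    rw [h]
    refine sum_congr rfl fun T _ => ?_
    rw [prod_neg, prod_div_distrib, prod_const_one, prod_pow]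
    have : ((nm T : ℕ) : ℝ) = ∏ q ∈ T, (Nz (D.e q) : ℝ) := by
      unfold nm
      push_cast
      exact prod_congr rfl fun q _ => by rw [D.N_eq]
    rw [this]
    ring
  rw [e1, mul_sum, Complex.ofReal_sum, ← sum_sub_distrib, sum_mul]
  refine (norm_sum_le _ _).trans (sum_le_sum fun T _ => ?_)
  have h1 : D.ind (D.dd T ^ 2) = 1 := if_pos (pr_dd_sq T).P
  rw [h1, mul_one, sum_ind]
  have h2 := PX_scale hm (pr_dd_sq (D := D) T) X hX
  rw [Nz_dd_sq] at h2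
  have e2 : (-1 : ℂ) ^ T.card * (PX D (X / nm T ^ 2) : ℂ) -
      ((PX D X * ((-1 : ℝ) ^ T.card / (nm T : ℝ) ^ 2) : ℝ) : ℂ) =
      (((-1 : ℝ) ^ T.card * ((PX D (X / nm T ^ 2) : ℝ) - PX D X / ((nm T ^ 2 : ℕ) : ℝ)) : ℝ) : ℂ) := by
    push_cast
    ring
  rw [e2, Complex.norm_real, Real.norm_eq_abs, abs_mul, abs_pow, abs_neg, abs_one, one_pow, one_mul]
  exact h2

theorem inv_sq_eq (q : ι) : (Nz (D.e q) : ℝ) ^ (-(2 : ℝ)) = 1 / (Nz (D.e q) : ℝ) ^ 2 := by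
  rw [Real.rpow_neg (Nat.cast_nonneg _), one_div]
  norm_cast

theorem prod_ge (D : Prm ι) : ∃ c : ℝ, 0 < c ∧ ∀ s : Finset ι,
    c ≤ ∏ q ∈ s, (1 - 1 / (Nz (D.e q) : ℝ) ^ 2) := by
  classical
  obtain ⟨Y, hY⟩ := tail D (1 / 2) (by norm_num)
  have hq : ∀ q : ι, 0 < 1 - 1 / (Nz (D.e q) : ℝ) ^ 2 ∧ 1 - 1 / (Nz (D.e q) : ℝ) ^ 2 ≤ 1 := by
    intro q
    have h2 : (2 : ℝ) ≤ Nz (D.e q) := by exact_mod_cast D.two_le q
    have h3 : (0 : ℝ) < 1 / (Nz (D.e q) : ℝ) ^ 2 := by positivity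
    have h4 : 1 / (Nz (D.e q) : ℝ) ^ 2 < 1 := by
      rw [div_lt_one (by positivity)]
      nlinarith
    constructor <;> linarith
  have h : ∀ s : Finset ι, 1 - ∑ q ∈ s, 1 / (Nz (D.e q) : ℝ) ^ 2 ≤
      ∏ q ∈ s, (1 - 1 / (Nz (D.e q) : ℝ) ^ 2) ∧ ∏ q ∈ s, (1 - 1 / (Nz (D.e q) : ℝ) ^ 2) ≤ 1 ∧
      0 < ∏ q ∈ s, (1 - 1 / (Nz (D.e q) : ℝ) ^ 2) := by
    intro s
    induction s using Finset.induction_on with
    | empty => simp
    | insert q s hqs ih =>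
      rw [sum_insert hqs, prod_insert hqs]
      have h3 : (0 : ℝ) ≤ 1 / (Nz (D.e q) : ℝ) ^ 2 := by positivity
      obtain ⟨h4, h5⟩ := hq q
      refine ⟨?_, ?_, mul_pos h4 ih.2.2⟩
      · nlinarith [ih.1, ih.2.1]
      · nlinarith [ih.2.1, ih.2.2]
  refine ⟨(∏ q ∈ pr ι Y, (1 - 1 / (Nz (D.e q) : ℝ) ^ 2)) * (1 / 2),
    mul_pos (h _).2.2 (by norm_num), fun s => ?_⟩
  have e : ∏ q ∈ s, (1 - 1 / (Nz (D.e q) : ℝ) ^ 2) =
      (∏ q ∈ s.filter (fun q => q ∈ pr ι Y), (1 - 1 / (Nz (D.e q) : ℝ) ^ 2)) *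
      ∏ q ∈ s.filter (fun q => q ∉ pr ι Y), (1 - 1 / (Nz (D.e q) : ℝ) ^ 2) :=
    (prod_filter_mul_prod_filter_not s _ _).symm
  rw [e]
  have h1 : ∏ q ∈ pr ι Y, (1 - 1 / (Nz (D.e q) : ℝ) ^ 2) ≤
      ∏ q ∈ s.filter (fun q => q ∈ pr ι Y), (1 - 1 / (Nz (D.e q) : ℝ) ^ 2) := by
    have hsub : s.filter (fun q => q ∈ pr ι Y) ⊆ pr ι Y := fun q hq => (mem_filter.1 hq).2
    rw [← prod_sdiff hsub]
    exact mul_le_of_le_one_left (h _).2.2.le (h _).2.1
  have h2 : (1 : ℝ) / 2 ≤ ∏ q ∈ s.filter (fun q => q ∉ pr ι Y), (1 - 1 / (Nz (D.e q) : ℝ) ^ 2) := by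
    have h3 := (h (s.filter (fun q => q ∉ pr ι Y))).1
    have h4 := hY (s.filter (fun q => q ∉ pr ι Y)) (fun q hq => by
      have := (mem_filter.1 hq).2
      rw [mem_pr, D.N_eq] at this
      exact not_le.1 this)
    simp only [inv_sq_eq] at h4
    linarith
  exact mul_le_mul h1 h2 (by norm_num) (h _).2.2.le

/-- There is a positive proportion of squarefree elements. -/
theorem card_ge {m : 𝓞 K} (hm : Md D m) : ∃ c : ℝ, 0 < c ∧ ∃ X₀ : ℕ, ∀ X : ℕ, X₀ ≤ X →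
    c * X ≤ ((Sx ι X).card : ℝ) := by
  obtain ⟨c1, hc1, hprod⟩ := prod_ge D
  have hM : (0 : ℝ) < Nz m := by exact_mod_cast Nz_pos' hm.ne
  obtain ⟨δ, hδ⟩ : ∃ δ, δ = c1 / (4 * Nz m) := ⟨_, rfl⟩
  have hδ0 : 0 < δ := by rw [hδ]; positivity
  obtain ⟨s, hs⟩ := sqf_diff hm.h0 D.ind D.ind_mulC δ hδ0
  obtain ⟨C, hC, hms⟩ := sieve_main hm s
  obtain ⟨A, hA⟩ : ∃ A, A = C + c1 * (10 * Real.sqrt (Nz m)) := ⟨_, rfl⟩
  have hA0 : 0 ≤ A := by rw [hA]; positivity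
  obtain ⟨M, hMM⟩ := exists_nat_gt ((A / δ) ^ 2)
  refine ⟨δ, hδ0, M + 1, fun X hX => ?_⟩
  have hX1 : 1 ≤ X := by omega
  have h1 := hs X
  have h2 := hms X hX1
  have h3 : (X : ℝ) ≤ Nz m * (PX D X + Er (Nz m) X) := by exact_mod_cast PX_ge hm X
  have h4 := Er_le (Nz m) X hX1
  have h5 := hprod s
  have h6 : ∑ S ∈ Sx ι X, D.ind (D.dd S) = (((Sx ι X).card : ℝ) : ℂ) := by
    have h : ∀ S ∈ Sx ι X, D.ind (D.dd S) = 1 := fun S _ => if_pos (D.dd_P S)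
    rw [sum_congr rfl h, sum_const, nsmul_eq_mul, mul_one]
    norm_cast
  rw [h6] at h1
  have h7 : ‖(((Sx ι X).card : ℝ) : ℂ) -
      ((PX D X * ∏ q ∈ s, (1 - 1 / (Nz (D.e q) : ℝ) ^ 2) : ℝ) : ℂ)‖ ≤ δ * X + C * Real.sqrt X := by
    refine le_trans ?_ (add_le_add h1 h2)
    refine le_trans (le_of_eq ?_) (norm_add_le _ _)
    congr 1
    ring
  rw [← Complex.ofReal_sub, Complex.norm_real, Real.norm_eq_abs] at h7
  have h8 := (abs_le.1 h7).1
  have h9 : A / δ ≤ Real.sqrt X := by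
    apply Real.le_sqrt_of_sq_le
    have : (M : ℝ) ≤ X := by exact_mod_cast (by omega : M ≤ X)
    linarith
  have h10 : Real.sqrt X * Real.sqrt X = X := Real.mul_self_sqrt (Nat.cast_nonneg X)
  have h11 : A * Real.sqrt X ≤ δ * X := by
    rw [div_le_iff₀ hδ0] at h9
    nlinarith [Real.sqrt_nonneg (X : ℝ)]
  have h12 : (0 : ℝ) ≤ PX D X := Nat.cast_nonneg _
  have h13 : (PX D X : ℝ) * c1 ≤ PX D X * ∏ q ∈ s, (1 - 1 / (Nz (D.e q) : ℝ) ^ 2) := by
    gcongr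
  have h14 : (X : ℝ) / Nz m ≤ PX D X + 10 * Real.sqrt (Nz m) * Real.sqrt X := by
    rw [div_le_iff₀ hM]
    nlinarith
  have h15 : 4 * (δ * X) ≤ c1 * PX D X + c1 * (10 * Real.sqrt (Nz m)) * Real.sqrt X := by
    have e : 4 * (δ * X) = c1 * (X / Nz m) := by
      rw [hδ]
      field_simp
    rw [e]
    nlinarith
  have h16 : C * Real.sqrt X + c1 * (10 * Real.sqrt (Nz m)) * Real.sqrt X ≤ δ * X := by
    rw [← add_mul, ← hA]
    exact h11
  linarith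

end Prm

end

end Pool.Agent.Lib.MP_1a91b9_ntK
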