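import Pool.Agent.Lib.MP_1a91b9_ntK.R.Ring
import Pool.Agent.Lib.MP_1a91b9_ntK.R.Lat3
import Pool.Agent.Lib.MP_1a91b9_ntK.R.SqF3

/-!
# MP_1a91b9_nt (cubic twists), part R: the cubic characters and their mean values

`chB B t c` is the character `x ↦ e3 (c * cl3 x + ∑ p ∈ B, t p * cq p x)` on the `x ≡ 1` modulo `3` prime
to `B`. Here `t` may vanish on a part of `B`.
-/

set_option autoImplicit false

namespace Pool.Agent.Lib.MP_1a91b9_ntK

open NumberField Finset Pool.Agent.Lib.MP_1a91b9_ntT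
open Pool.Agent.Lib.MP_1a91b9_ntX.R (cs G3 cs_mul cs_congr cs_one)
open Pool.Agent.Lib.MP_1a91b9_ntH (wO s3 Nz Nz_coords Nz_mul Nz_one Nz_eq_zero PS nm one_le_nm pr Sx
  CharB s3_sq discE nE_eq)

noncomputable section

/-! ### The symbols -/

theorem cq_mul {p : P3} {x y : 𝓞 K} (hx : ¬ p.1 ∣ x) (hy : ¬ p.1 ∣ y) :
    cq p (x * y) = cq p x + cq p y :=
  cs_mul p.g3 (P3.not_mem.2 hx) (P3.not_mem.2 hy)

theorem cq_congr {p : P3} {x y : 𝓞 K} (hx : ¬ p.1 ∣ x) (h : p.1 ∣ x - y) : cq p x = cq p y :=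
  cs_congr p.g3 (P3.not_mem.2 hx) (Ideal.mem_span_singleton.2 h)

theorem cq_one (p : P3) : cq p 1 = 0 := cs_one p.g3

theorem exists_cq (p : P3) (c : ZMod 3) : ∃ x : 𝓞 K, ¬ p.1 ∣ x ∧ cq p x = c := by
  obtain ⟨x, hx, h⟩ := exists_cs p.g3 c
  exact ⟨x, P3.not_mem.1 hx, h⟩

/-! ### The characters -/

/-- The exponent of the character. -/
def cx (B : Finset P3) (t : P3 → ZMod 3) (c : ZMod 3) (x : 𝓞 K) : ZMod 3 :=
  c * cl3 x + ∑ p ∈ B, t p * cq p x

open Classical in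
/-- The cubic character on the elements congruent to `1` modulo `3` and prime to `B`. -/
def chB (B : Finset P3) (t : P3 → ZMod 3) (c : ZMod 3) (x : 𝓞 K) : ℂ :=
  if In3 x ∧ ∀ p ∈ B, ¬ p.1 ∣ x then e3 (cx B t c x) else 0

theorem chB_of {B : Finset P3} {t : P3 → ZMod 3} {c : ZMod 3} {x : 𝓞 K} (h : In3 x)
    (h' : ∀ p ∈ B, ¬ p.1 ∣ x) : chB B t c x = e3 (cx B t c x) := if_pos ⟨h, h'⟩

theorem chB_of_not {B : Finset P3} {t : P3 → ZMod 3} {c : ZMod 3} {x : 𝓞 K}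
    (h : ¬ (In3 x ∧ ∀ p ∈ B, ¬ p.1 ∣ x)) : chB B t c x = 0 := if_neg h

theorem chB_one (B : Finset P3) (t : P3 → ZMod 3) (c : ZMod 3) : chB B t c 1 = 1 := by
  rw [chB_of in3_one fun p _ h => p.prime.not_unit (isUnit_of_dvd_one h), cx, cl3_one, mul_zero,
    zero_add, sum_eq_zero fun p _ => by rw [cq_one, mul_zero], e3_zero]

theorem cx_mul {B : Finset P3} (t : P3 → ZMod 3) (c : ZMod 3) {x y : 𝓞 K} (hx : In3 x)
    (hy : In3 y) (hx' : ∀ p ∈ B, ¬ p.1 ∣ x) (hy' : ∀ p ∈ B, ¬ p.1 ∣ y) :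
    cx B t c (x * y) = cx B t c x + cx B t c y := by
  unfold cx
  rw [cl3_mul hx hy, sum_congr rfl fun p hp => by rw [cq_mul (hx' p hp) (hy' p hp), mul_add],
    sum_add_distrib]
  ring

/-- Multiplicativity. -/
theorem chB_mul (B : Finset P3) (t : P3 → ZMod 3) (c : ZMod 3) {x : 𝓞 K} (hx : In3 x)
    (y : 𝓞 K) : chB B t c (x * y) = chB B t c x * chB B t c y := by
  by_cases hy : In3 y
  · by_cases hx' : ∀ p ∈ B, ¬ p.1 ∣ x
    · by_cases hy' : ∀ p ∈ B, ¬ p.1 ∣ y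
      · have hxy : ∀ p ∈ B, ¬ p.1 ∣ x * y := fun p hp h =>
          (p.prime.dvd_or_dvd h).elim (hx' p hp) (hy' p hp)
        rw [chB_of hx hx', chB_of hy hy', chB_of (hx.mul hy) hxy, cx_mul t c hx hy hx' hy',
          e3_add]
      · rw [chB_of_not (x := y) fun h => hy' h.2, mul_zero, chB_of_not]
        rintro ⟨_, h2⟩
        exact hy' fun p hp h => h2 p hp (Dvd.dvd.mul_left h x)
    · rw [chB_of_not (x := x) fun h => hx' h.2, zero_mul, chB_of_not]
      rintro ⟨_, h2⟩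
      exact hx' fun p hp h => h2 p hp (Dvd.dvd.mul_right h y)
  · rw [chB_of_not (x := y) fun h => hy h.1, mul_zero,
      chB_of_not fun h => hy (In3.of_mul hx h.1)]

theorem norm_chB_le (B : Finset P3) (t : P3 → ZMod 3) (c : ZMod 3) (x : 𝓞 K) :
    ‖chB B t c x‖ ≤ 1 := by
  unfold chB
  split_ifs
  · rw [norm_e3]
  · rw [norm_zero]
    exact zero_le_one

/-- The value at a prime. -/
theorem chB_q (B : Finset P3) (t : P3 → ZMod 3) (c : ZMod 3) (q : P3) :
    chB B t c q.1 = d3.ch B t c q := by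
  unfold Dat3.ch
  split_ifs with h
  · exact chB_of_not fun h' => h'.2 q h (dvd_refl _)
  · rw [chB_of q.in3 fun p hp => P3.not_dvd fun e => h (e ▸ hp)]
    unfold cx Dat3.ex
    rw [cl3_q]
    rfl

theorem chB_congr {B : Finset P3} {t : P3 → ZMod 3} {c : ZMod 3} {x y : 𝓞 K}
    (h : 9 * DD3 B ∣ x - y) : chB B t c x = chB B t c y := by
  have h3 : (9 : 𝓞 K) ∣ x - y := (dvd_mul_right _ _).trans h
  have h1 : (3 : 𝓞 K) ∣ x - y := dvd_trans ⟨3, by norm_num⟩ h3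
  have h2 : DD3 B ∣ x - y := (dvd_mul_left _ _).trans h
  have h4 : ∀ p ∈ B, (p.1 ∣ x ↔ p.1 ∣ y) := by
    intro p hp
    have h5 := (dvd_DD3.2 hp).trans h2
    constructor
    · intro hx
      have := dvd_sub hx h5
      rwa [sub_sub_cancel] at this
    · intro hy
      have := dvd_add h5 hy
      rwa [sub_add_cancel] at this
  by_cases hx : In3 x ∧ ∀ p ∈ B, ¬ p.1 ∣ x
  · have hy : In3 y ∧ ∀ p ∈ B, ¬ p.1 ∣ y :=
      ⟨(in3_congr h1).1 hx.1, fun p hp h' => hx.2 p hp ((h4 p hp).2 h')⟩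
    rw [chB_of hx.1 hx.2, chB_of hy.1 hy.2]
    unfold cx
    rw [cl3_congr hx.1 h3, sum_congr rfl fun p hp => by
      rw [cq_congr (hx.2 p hp) ((dvd_DD3.2 hp).trans h2)]]
  · have hy : ¬ (In3 y ∧ ∀ p ∈ B, ¬ p.1 ∣ y) := fun hy =>
      hx ⟨(in3_congr h1).2 hy.1, fun p hp h' => hy.2 p hp ((h4 p hp).1 h')⟩
    rw [chB_of_not hx, chB_of_not hy]

theorem chB_per (B : Finset P3) (t : P3 → ZMod 3) (c : ZMod 3) (x y : 𝓞 K) :
    chB B t c (x + 9 * DD3 B * y) = chB B t c x :=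
  chB_congr ⟨y, by ring⟩

/-! ### Existence of a class with a nontrivial value -/

theorem P3.coprime {p q : P3} (h : p ≠ q) : IsCoprime p.1 q.1 :=
  (p.prime.irreducible.coprime_iff_not_dvd).2 (P3.not_dvd h)

/-- The Chinese remainder theorem. -/
theorem crt3 (S : Finset P3) (g : P3 → 𝓞 K) : ∃ r : 𝓞 K, ∀ p ∈ S, p.1 ∣ r - g p := by
  have h := Ideal.exists_forall_sub_mem_ideal (I := fun p : S => Ideal.span {p.1.1})
    (fun p q hpq => (Ideal.isCoprime_span_singleton_iff _ _).2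
      (P3.coprime (fun e => hpq (Subtype.ext e)))) (fun p => g p.1)
  obtain ⟨r, hr⟩ := h
  exact ⟨r, fun p hp => Ideal.mem_span_singleton.1 (hr ⟨p, hp⟩)⟩

theorem In3.coprime_nine {x : 𝓞 K} (h : In3 x) : IsCoprime x 9 := by
  obtain ⟨t, ht⟩ := h
  have h1 : IsCoprime x (3 : 𝓞 K) := ⟨1, -t, by linear_combination ht⟩
  have e : (9 : 𝓞 K) = 3 * 3 := by norm_num
  rw [e]
  exact h1.mul_right h1

/-- Existence of a unit modulo `9 * DD3 B` with given class and residues. -/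
theorem exists_res3 (B : Finset P3) (a : ZMod 3) (g : P3 → 𝓞 K) (hg : ∀ p ∈ B, ¬ p.1 ∣ g p) :
    ∃ u : 𝓞 K, In3 u ∧ cl3 u = a ∧ (∀ p ∈ B, p.1 ∣ u - g p) ∧
      ∃ v w : 𝓞 K, u * v = 1 + 9 * DD3 B * w := by
  obtain ⟨r, hr⟩ := crt3 B g
  obtain ⟨b, hb⟩ := cl3_surj a
  obtain ⟨α, β, hαβ⟩ := (DD3_in3 B).coprime_nine
  have hcls : (9 : 𝓞 K) ∣ (r * (β * 9) + (1 + 3 * (b : 𝓞 K)) * (α * DD3 B)) -
      (1 + 3 * (b : 𝓞 K)) := by
    refine ⟨r * β - (1 + 3 * (b : 𝓞 K)) * β, ?_⟩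
    linear_combination (1 + 3 * (b : 𝓞 K)) * hαβ
  have hres : ∀ p ∈ B, p.1 ∣ (r * (β * 9) + (1 + 3 * (b : 𝓞 K)) * (α * DD3 B)) - g p := by
    intro p hp
    have h1 : p.1 ∣ DD3 B := dvd_DD3.2 hp
    have h3 := dvd_add (hr p hp) (Dvd.dvd.mul_left h1 ((1 + 3 * (b : 𝓞 K)) * α - r * α))
    have e : r - g p + ((1 + 3 * (b : 𝓞 K)) * α - r * α) * DD3 B =
        (r * (β * 9) + (1 + 3 * (b : 𝓞 K)) * (α * DD3 B)) - g p := by
      linear_combination -r * hαβ
    rwa [e] at h3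
  obtain ⟨u, hue⟩ : ∃ u : 𝓞 K, u = r * (β * 9) + (1 + 3 * (b : 𝓞 K)) * (α * DD3 B) := ⟨_, rfl⟩
  rw [← hue] at hcls hres
  have h31 : (3 : 𝓞 K) ∣ 9 := ⟨3, by norm_num⟩
  have hu : In3 u := (in3_congr (h31.trans hcls)).2 ⟨b, by ring⟩
  refine ⟨u, hu, ?_, hres, ?_⟩
  · rw [cl3_congr hu hcls, hb]
  · have hc2 : IsCoprime u (DD3 B) := by
      unfold DD3
      apply IsCoprime.prod_right
      intro p hp
      rw [isCoprime_comm]
      refine (p.prime.irreducible.coprime_iff_not_dvd).2 ?_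
      intro h
      apply hg p hp
      have := dvd_sub h (hres p hp)
      rwa [sub_sub_cancel] at this
    obtain ⟨v, w, hvw⟩ := hu.coprime_nine.mul_right hc2
    exact ⟨v, -w, by linear_combination hvw⟩

private theorem Chi3_e3_ne_one {x : ZMod 3} (h : x ≠ 0) : e3 x ≠ 1 := by
  intro h1
  apply h
  exact (ZMod.injective_stdAddChar (N := 3))
    ((show ZMod.stdAddChar (N := 3) x = 1 from h1).trans (AddChar.map_zero_eq_one _).symm)

/-- A nontrivial character takes a value different from `1`. -/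
theorem chB_exists (B : Finset P3) (t : P3 → ZMod 3) (c : ZMod 3)
    (h : (∃ p ∈ B, t p ≠ 0) ∨ c ≠ 0) :
    ∃ (u v w : 𝓞 K) (z : ℂ), u * v = 1 + 9 * DD3 B * w ∧ z ≠ 1 ∧
      ∀ x, chB B t c (u * x) = z * chB B t c x := by
  classical
  obtain ⟨u, hu, hu', ⟨v, w, hvw⟩, hval⟩ : ∃ u : 𝓞 K, In3 u ∧ (∀ p ∈ B, ¬ p.1 ∣ u) ∧
      (∃ v w : 𝓞 K, u * v = 1 + 9 * DD3 B * w) ∧ cx B t c u ≠ 0 := by
    rcases h with ⟨p, hp, htp⟩ | hc
    · obtain ⟨g, hg0, hg⟩ := exists_cq p 1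
      have h0 : ∀ q ∈ B, ¬ q.1 ∣ (if q = p then g else 1) := by
        intro q _
        by_cases hqp : q = p
        · rw [if_pos hqp, hqp]
          exact hg0
        · rw [if_neg hqp]
          exact fun hd => q.prime.not_unit (isUnit_of_dvd_one hd)
      obtain ⟨u, h1, h2, h3, h4⟩ := exists_res3 B 0 (fun q => if q = p then g else 1) h0
      have hn : ∀ q ∈ B, ¬ q.1 ∣ u := by
        intro q hq hd
        apply h0 q hq
        have := dvd_sub hd (h3 q hq)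
        rwa [sub_sub_cancel] at this
      refine ⟨u, h1, hn, h4, ?_⟩
      unfold cx
      rw [h2, mul_zero, zero_add, ← add_sum_erase _ _ hp]
      have h6 : cq p u = 1 := by
        rw [cq_congr (hn p hp) (h3 p hp)]
        simp [hg]
      have h7 : ∑ q ∈ B.erase p, t q * cq q u = 0 := by
        apply sum_eq_zero
        intro q hq
        rw [mem_erase] at hq
        rw [cq_congr (hn q hq.2) (h3 q hq.2)]
        simp [hq.1, cq_one]
      rw [h6, h7, mul_one, add_zero]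
      exact htp
    · have h0 : ∀ q ∈ B, ¬ q.1 ∣ (1 : 𝓞 K) := fun q _ hd =>
        q.prime.not_unit (isUnit_of_dvd_one hd)
      obtain ⟨u, h1, h2, h3, h4⟩ := exists_res3 B 1 (fun _ => 1) h0
      have hn : ∀ q ∈ B, ¬ q.1 ∣ u := by
        intro q hq hd
        apply h0 q hq
        have := dvd_sub hd (h3 q hq)
        rwa [sub_sub_cancel] at this
      refine ⟨u, h1, hn, h4, ?_⟩
      unfold cx
      have h7 : ∑ q ∈ B, t q * cq q u = 0 := by
        apply sum_eq_zero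
        intro q hq
        rw [cq_congr (hn q hq) (h3 q hq), cq_one, mul_zero]
      rw [h2, h7, mul_one, add_zero]
      exact hc
  refine ⟨u, v, w, e3 (cx B t c u), hvw, Chi3_e3_ne_one hval, fun x => ?_⟩
  rw [chB_mul B t c hu x, chB_of hu hu']

/-! ### The mean values -/

theorem Nz_nine : Nz 9 = 81 := by
  have h := Nz_coords 9 0
  have e : ((9 : ℤ) : 𝓞 K) + ((0 : ℤ) : 𝓞 K) * wO = 9 := by push_cast; ring
  rw [e] at h
  norm_num at h
  exact_mod_cast h

theorem Nz_mod9 (B : Finset P3) : Nz (9 * DD3 B) = 81 * nm B := by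
  rw [Nz_mul, Nz_nine, Nz_DD3]

theorem chB_sum (B : Finset P3) (t : P3 → ZMod 3) (c : ZMod 3)
    (h : (∃ p ∈ B, t p ≠ 0) ∨ c ≠ 0) (X : ℕ) (hX : 1 ≤ X) :
    ‖∑ x ∈ discE (𝓞 K) X, chB B t c x‖ ≤ 20 * Real.sqrt ((81 * nm B : ℕ) * X) := by
  obtain ⟨u, v, w, z, h1, h2, h3⟩ := chB_exists B t c h
  have h4 := sum_discEC' (9 * DD3 B) (by
    intro h0
    have h4 := Nz_mod9 B
    rw [h0] at h4
    have h5 := one_le_nm B
    have h6 : Nz 0 = 0 := Nz_eq_zero.2 rfl
    omega) (chB B t c) (norm_chB_le B t c) (chB_per B t c) u v w h1 z h2 h3 X hX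
  rw [nE_eq, Nz_mod9] at h4
  exact h4

theorem chB_mulC (B : Finset P3) (t : P3 → ZMod 3) (c : ZMod 3) : MulC prm3 (chB B t c) where
  one := chB_one B t c
  mul q y _ := chB_mul B t c q.in3 y
  zero _ hx := chB_of_not fun h => hx h.1
  le := norm_chB_le B t c

/-- **The nontrivial cubic characters have bounded Euler products.** -/
theorem d3_cb : ∃ C, d3.CB C := by
  obtain ⟨C, hC, hmain⟩ := prm3.charB_of 20 (by norm_num)
  refine ⟨C * (1 + Real.log 81), fun T t c ht h => ?_⟩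
  have h' : (∃ p ∈ T, t p ≠ 0) ∨ c ≠ 0 := by
    rcases h with h | h
    · obtain ⟨p, hp⟩ := Finset.nonempty_iff_ne_empty.2 h
      exact Or.inl ⟨p, hp, ht p hp⟩
    · exact Or.inr h
  have h1 := hmain (chB T t c) (81 * nm T) (chB_mulC T t c) (by
    have := one_le_nm T
    omega) (fun X hX => chB_sum T t c h' X hX)
  have h2 : (fun q : P3 => (chB T t c (prm3.e q)).re) = fun q => (d3.ch T t c q).re := by
    funext q
    exact congrArg Complex.re (chB_q T t c q)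
  rw [h2] at h1
  have h3 : (1 : ℝ) ≤ nm T := by exact_mod_cast one_le_nm T
  have h4 : Real.log ((81 * nm T : ℕ) : ℝ) = Real.log 81 + Real.log (nm T) := by
    push_cast
    rw [Real.log_mul (by norm_num) (by positivity)]
  rw [h4] at h1
  have h5 : 0 ≤ Real.log (nm T) := Real.log_nonneg h3
  have h6 : 0 ≤ Real.log 81 := Real.log_nonneg (by norm_num)
  have h7 : 0 ≤ C * (Real.log 81 * Real.log (nm T)) := by positivity
  have hle : C * (1 + (Real.log 81 + Real.log (nm T))) ≤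
      C * (1 + Real.log 81) * (1 + Real.log (nm T)) := by nlinarith
  exact ⟨h1.le, h1.hB.trans hle, fun σ g1 g2 => (h1.bound σ g1 g2).mono fun x hx => hx.trans hle⟩

theorem cq_prod {p : P3} {S : Finset P3} (h : p ∉ S) : cq p (DD3 S) = ∑ q ∈ S, cq p q.1 := by
  induction S using Finset.induction_on with
  | empty => rw [DD3_empty, cq_one, sum_empty]
  | insert q S hq ih =>
    rw [mem_insert, not_or] at h
    rw [DD3_insert hq, cq_mul (P3.not_dvd h.1) (fun h' => h.2 (dvd_DD3.1 h')), ih h.2,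
      sum_insert hq]

/-- The value at a squarefree element. -/
theorem chB_DD3 (B : Finset P3) (t : P3 → ZMod 3) (c : ZMod 3) (S : Finset P3) :
    chB B t c (DD3 S) = if Disjoint S B then ∏ q ∈ S, e3 (d3.ex B t c q) else 0 := by
  split_ifs with h
  · have h1 : ∀ p ∈ B, p ∉ S := fun p hp hpS => (Finset.disjoint_left.1 h) hpS hp
    rw [chB_of (DD3_in3 S) fun p hp h' => h1 p hp (dvd_DD3.1 h'), ← e3_sum]
    congr 1
    unfold cx Dat3.ex
    rw [cl3_DD3, sum_add_distrib, mul_sum, sum_comm]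
    congr 1
    refine sum_congr rfl fun p hp => ?_
    rw [cq_prod (h1 p hp), mul_sum]
    rfl
  · apply chB_of_not
    rintro ⟨_, h'⟩
    apply h
    rw [Finset.disjoint_left]
    intro p hpS hpB
    exact h' p hpB (dvd_DD3.2 hpS)

/-- **The nontrivial cubic characters have mean value zero on the squarefree elements.** -/
theorem d3_h3 : d3.H3 := by
  classical
  intro B T t c hTB ht h ε hε
  -- extend `t` by zero
  obtain ⟨t', ht'⟩ : ∃ t' : P3 → ZMod 3, t' = fun p => if p ∈ T then t p else 0 := ⟨_, rfl⟩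
  have h' : (∃ p ∈ B, t' p ≠ 0) ∨ c ≠ 0 := by
    rcases h with h | h
    · obtain ⟨p, hp⟩ := Finset.nonempty_iff_ne_empty.2 h
      refine Or.inl ⟨p, hTB hp, ?_⟩
      rw [ht']
      simp only [hp, if_true]
      exact ht p hp
    · exact Or.inr h
  have h0 : ¬ prm3.P 0 := fun h => In3.ne_zero h rfl
  obtain ⟨X₀, hX₀⟩ := prm3.mean_zero h0 (chB B t' c) (chB_mulC B t' c)
    (B := 20 * Real.sqrt (81 * nm B : ℕ)) (by positivity) (fun X hX => by
      have h1 := chB_sum B t' c h' X hX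
      rw [Real.sqrt_mul (Nat.cast_nonneg _)] at h1
      rw [mul_assoc]
      exact h1) ε hε
  refine ⟨X₀, fun X hX => ?_⟩
  have h1 := hX₀ X hX
  have h2 : ∑ S ∈ Sx P3 X, chB B t' c (prm3.dd S) =
      ∑ S ∈ (Sx P3 X).filter (fun S => Disjoint S B), ∏ q ∈ S, e3 (d3.ex T t c q) := by
    rw [sum_filter]
    refine sum_congr rfl fun S _ => ?_
    have h3 : chB B t' c (prm3.dd S) = chB B t' c (DD3 S) := rfl
    rw [h3, chB_DD3]
    have h4 : ∀ q, d3.ex B t' c q = d3.ex T t c q := by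
      intro q
      unfold Dat3.ex
      congr 1
      rw [ht', ← sum_subset hTB (fun p _ hp => by simp only [hp, if_false, zero_mul])]
      exact sum_congr rfl fun p hp => by simp only [hp, if_true]
    simp only [h4]
  rw [h2] at h1
  exact h1

end

end Pool.Agent.Lib.MP_1a91b9_ntK
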