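import Pool.Agent.Lib.MP_1a91b9_ntK.R.OK3
import Pool.Agent.Lib.MP_1a91b9_ntK.D.Defsb

/-!
# MP_1a91b9_nt (cubic twists), part R: the cubic characters of conductor `9`, with both class coordinates

`chBb B t c d` is the character `x ↦ e3 (c * cl3 x + d * cn3 x + ∑ p ∈ B, t p * cq p x)` on the `x ≡ 1`
modulo `3` prime to `B`; `cn3` is the symbol of `√-3`. Here `t` may vanish on a part of `B`.
-/

set_option autoImplicit false

namespace Pool.Agent.Lib.MP_1a91b9_ntK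

open NumberField Finset Pool.Agent.Lib.MP_1a91b9_ntT
open Pool.Agent.Lib.MP_1a91b9_ntX.R (cs G3 cs_mul cs_congr cs_one)
open Pool.Agent.Lib.MP_1a91b9_ntH (wO s3 Nz Nz_coords Nz_mul Nz_one Nz_eq_zero PS nm one_le_nm pr Sx
  CharB s3_sq discE nE_eq cp cp_coords eq_cp)

noncomputable section

/-- The second class coordinate modulo `9`: `cn3 (1 + 3 (m + n w)) = -n`. -/
def cn3 (x : 𝓞 K) : ZMod 3 := ((-((cp x).2 / 3) : ℤ) : ZMod 3)

theorem cn3_of (m n : ℤ) : cn3 (1 + 3 * ((m : 𝓞 K) + n * wO)) = -(n : ZMod 3) := by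
  have e : (1 : 𝓞 K) + 3 * ((m : 𝓞 K) + n * wO) =
      ((1 + 3 * m : ℤ) : 𝓞 K) + ((3 * n : ℤ) : 𝓞 K) * wO := by
    push_cast
    ring
  have h : cp (1 + 3 * ((m : 𝓞 K) + n * wO)) = (1 + 3 * m, 3 * n) := by
    rw [e]
    exact cp_coords _ _
  unfold cn3
  rw [h]
  dsimp only
  have h2 : 3 * n / 3 = n := by omega
  rw [h2]
  push_cast
  rfl

theorem cn3_one : cn3 1 = 0 := by
  have h := cn3_of 0 0
  simpa using h

private theorem three_zmodb : (3 : ZMod 3) = 0 := rfl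

/-- The class of a product. -/
theorem cn3_mul {x y : 𝓞 K} (hx : In3 x) (hy : In3 y) : cn3 (x * y) = cn3 x + cn3 y := by
  obtain ⟨a, b, rfl⟩ := in3_form hx
  obtain ⟨c, d, rfl⟩ := in3_form hy
  have e : (1 + 3 * ((a : 𝓞 K) + b * wO)) * (1 + 3 * ((c : 𝓞 K) + d * wO)) =
      1 + 3 * (((a + c + 3 * (a * c - b * d) : ℤ) : 𝓞 K) +
        ((b + d + 3 * (a * d + b * c - b * d) : ℤ) : 𝓞 K) * wO) := by
    push_cast
    linear_combination 9 * (b : 𝓞 K) * d * MP_1a91b9_ntH.wO_quad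
  rw [e, cn3_of, cn3_of, cn3_of]
  push_cast
  rw [three_zmodb]
  ring

/-- The class only depends on the residue modulo `9`. -/
theorem cn3_congr {x y : 𝓞 K} (hx : In3 x) (h : (9 : 𝓞 K) ∣ x - y) : cn3 x = cn3 y := by
  obtain ⟨t, ht⟩ := h
  obtain ⟨a, b, rfl⟩ := in3_form hx
  have h1 : y = 1 + 3 * (((a - 3 * (cp t).1 : ℤ) : 𝓞 K) + ((b - 3 * (cp t).2 : ℤ) : 𝓞 K) * wO) := by
    have h2 := eq_cp t
    push_cast
    linear_combination -ht - 9 * h2
  rw [h1, cn3_of, cn3_of]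
  push_cast
  rw [three_zmodb]
  ring

/-- The class of a prime is the symbol of `√-3`. -/
theorem cn3_q (q : P3) : cn3 q.1 = cq q s3 := by
  obtain ⟨m, n, h⟩ := in3_form q.in3
  have h1 : cn3 q.1 = -(n : ZMod 3) := by rw [h, cn3_of]
  rw [h1]
  exact (cs_s3 q.prime m n h).symm

theorem cn3_DD3 (S : Finset P3) : cn3 (DD3 S) = ∑ q ∈ S, cq q s3 := by
  induction S using Finset.induction_on with
  | empty =>
    rw [DD3_empty, cn3_one, sum_empty]
  | insert q S hq ih =>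
    rw [DD3_insert hq, cn3_mul q.in3 (DD3_in3 S), ih, cn3_q, sum_insert hq]

/-- Every pair of classes is the pair of the classes of an element `1 + 3 (m + n w)`. -/
theorem cl3_cn3_surj (c d : ZMod 3) :
    ∃ b : 𝓞 K, cl3 (1 + 3 * b) = c ∧ cn3 (1 + 3 * b) = d := by
  refine ⟨((-(ZMod.val c : ℤ) + ZMod.val d : ℤ) : 𝓞 K) + ((-(ZMod.val d : ℤ) : ℤ) : 𝓞 K) * wO,
    ?_, ?_⟩
  · rw [cl3_of]
    push_cast
    rw [ZMod.natCast_zmod_val, ZMod.natCast_zmod_val]
    ring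
  · rw [cn3_of]
    push_cast
    rw [ZMod.natCast_zmod_val, neg_neg]

/-- Two classes together determine the residue modulo `9`. -/
theorem nine_dvd_of_cls {x y : 𝓞 K} (hx : In3 x) (hy : In3 y) (h1 : cl3 x = cl3 y)
    (h2 : cn3 x = cn3 y) : (9 : 𝓞 K) ∣ x - y := by
  obtain ⟨a, b, rfl⟩ := in3_form hx
  obtain ⟨c, d, rfl⟩ := in3_form hy
  rw [cl3_of, cl3_of, neg_inj] at h1
  rw [cn3_of, cn3_of, neg_inj] at h2
  have h3 : ((a : ℤ) : ZMod 3) = ((c : ℤ) : ZMod 3) := by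
    rw [h2] at h1
    exact add_right_cancel h1
  have h4 := (ZMod.intCast_eq_intCast_iff_dvd_sub _ _ _).1 h3
  have h5 := (ZMod.intCast_eq_intCast_iff_dvd_sub _ _ _).1 h2
  obtain ⟨e, he⟩ := h4
  obtain ⟨f, hf⟩ := h5
  refine ⟨-((e : 𝓞 K) + f * wO), ?_⟩
  have he' : (c : 𝓞 K) = a + 3 * e := by
    have : c = a + 3 * e := by push_cast at he; linarith
    rw [this]
    push_cast
    ring
  have hf' : (d : 𝓞 K) = b + 3 * f := by
    have : d = b + 3 * f := by push_cast at hf; linarith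
    rw [this]
    push_cast
    ring
  rw [he', hf']
  ring

/-- The system of the cubic symbols and of both classes modulo `9` of the primes. -/
def d3b : Dat3b P3 where
  toDat3 := d3
  b q := cq q s3

/-! ### The characters -/

/-- The exponent of the character. -/
def cxb (B : Finset P3) (t : P3 → ZMod 3) (c d : ZMod 3) (x : 𝓞 K) : ZMod 3 :=
  c * cl3 x + d * cn3 x + ∑ p ∈ B, t p * cq p x

open Classical in
/-- The cubic character on the elements congruent to `1` modulo `3` and prime to `B`. -/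
def chBb (B : Finset P3) (t : P3 → ZMod 3) (c d : ZMod 3) (x : 𝓞 K) : ℂ :=
  if In3 x ∧ ∀ p ∈ B, ¬ p.1 ∣ x then e3 (cxb B t c d x) else 0

theorem chBb_of {B : Finset P3} {t : P3 → ZMod 3} {c d : ZMod 3} {x : 𝓞 K} (h : In3 x)
    (h' : ∀ p ∈ B, ¬ p.1 ∣ x) : chBb B t c d x = e3 (cxb B t c d x) := if_pos ⟨h, h'⟩

theorem chBb_of_not {B : Finset P3} {t : P3 → ZMod 3} {c d : ZMod 3} {x : 𝓞 K}
    (h : ¬ (In3 x ∧ ∀ p ∈ B, ¬ p.1 ∣ x)) : chBb B t c d x = 0 := if_neg h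

/-- The character as a product. -/
theorem chBb_eq (B : Finset P3) (t : P3 → ZMod 3) (c d : ZMod 3) (x : 𝓞 K) :
    chBb B t c d x = chB B t c x * e3 (d * cn3 x) := by
  by_cases h : In3 x ∧ ∀ p ∈ B, ¬ p.1 ∣ x
  · rw [chBb_of h.1 h.2, chB_of h.1 h.2, ← e3_add]
    congr 1
    unfold cxb cx
    ring
  · rw [chBb_of_not h, chB_of_not h, zero_mul]

theorem chBb_one (B : Finset P3) (t : P3 → ZMod 3) (c d : ZMod 3) : chBb B t c d 1 = 1 := by
  rw [chBb_eq, chB_one, cn3_one, mul_zero, e3_zero, one_mul]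

/-- Multiplicativity. -/
theorem chBb_mul (B : Finset P3) (t : P3 → ZMod 3) (c d : ZMod 3) {x : 𝓞 K} (hx : In3 x)
    (y : 𝓞 K) : chBb B t c d (x * y) = chBb B t c d x * chBb B t c d y := by
  rw [chBb_eq, chBb_eq, chBb_eq, chB_mul B t c hx y]
  by_cases hy : In3 y
  · rw [cn3_mul hx hy, mul_add, e3_add]
    ring
  · rw [chB_of_not (x := y) fun h => hy h.1]
    ring

theorem norm_chBb_le (B : Finset P3) (t : P3 → ZMod 3) (c d : ZMod 3) (x : 𝓞 K) :
    ‖chBb B t c d x‖ ≤ 1 := by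
  rw [chBb_eq, norm_mul, norm_e3, mul_one]
  exact norm_chB_le B t c x

/-- The value at a prime. -/
theorem chBb_q (B : Finset P3) (t : P3 → ZMod 3) (c d : ZMod 3) (q : P3) :
    chBb B t c d q.1 = d3b.chb B t c d q := by
  unfold Dat3b.chb
  split_ifs with h
  · exact chBb_of_not fun h' => h'.2 q h (dvd_refl _)
  · rw [chBb_of q.in3 fun p hp => P3.not_dvd fun e => h (e ▸ hp)]
    unfold cxb Dat3b.exb
    rw [cl3_q, cn3_q]
    rfl

theorem chBb_congr {B : Finset P3} {t : P3 → ZMod 3} {c d : ZMod 3} {x y : 𝓞 K}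
    (h : 9 * DD3 B ∣ x - y) : chBb B t c d x = chBb B t c d y := by
  rw [chBb_eq, chBb_eq, chB_congr h]
  by_cases hy : In3 y
  · have h3 : (9 : 𝓞 K) ∣ x - y := (dvd_mul_right _ _).trans h
    have h1 : (3 : 𝓞 K) ∣ x - y := dvd_trans ⟨3, by norm_num⟩ h3
    rw [cn3_congr ((in3_congr h1).2 hy) h3]
  · rw [chB_of_not (x := y) fun h => hy h.1, zero_mul, zero_mul]

theorem chBb_per (B : Finset P3) (t : P3 → ZMod 3) (c d : ZMod 3) (x y : 𝓞 K) :
    chBb B t c d (x + 9 * DD3 B * y) = chBb B t c d x :=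
  chBb_congr ⟨y, by ring⟩

/-- Existence of a unit modulo `9 * DD3 B` with given classes and residues. -/
theorem exists_res3b (B : Finset P3) (a a' : ZMod 3) (g : P3 → 𝓞 K) (hg : ∀ p ∈ B, ¬ p.1 ∣ g p) :
    ∃ u : 𝓞 K, In3 u ∧ cl3 u = a ∧ cn3 u = a' ∧ (∀ p ∈ B, p.1 ∣ u - g p) ∧
      ∃ v w : 𝓞 K, u * v = 1 + 9 * DD3 B * w := by
  obtain ⟨r, hr⟩ := crt3 B g
  obtain ⟨b, hb, hb'⟩ := cl3_cn3_surj a a'
  obtain ⟨α, β, hαβ⟩ := (DD3_in3 B).coprime_nine
  have hcls : (9 : 𝓞 K) ∣ (r * (β * 9) + (1 + 3 * b) * (α * DD3 B)) - (1 + 3 * b) := by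
    refine ⟨r * β - (1 + 3 * b) * β, ?_⟩
    linear_combination (1 + 3 * b) * hαβ
  have hres : ∀ p ∈ B, p.1 ∣ (r * (β * 9) + (1 + 3 * b) * (α * DD3 B)) - g p := by
    intro p hp
    have h1 : p.1 ∣ DD3 B := dvd_DD3.2 hp
    have h3 := dvd_add (hr p hp) (Dvd.dvd.mul_left h1 ((1 + 3 * b) * α - r * α))
    have e : r - g p + ((1 + 3 * b) * α - r * α) * DD3 B =
        (r * (β * 9) + (1 + 3 * b) * (α * DD3 B)) - g p := by
      linear_combination -r * hαβ
    rwa [e] at h3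
  obtain ⟨u, hue⟩ : ∃ u : 𝓞 K, u = r * (β * 9) + (1 + 3 * b) * (α * DD3 B) := ⟨_, rfl⟩
  rw [← hue] at hcls hres
  have h31 : (3 : 𝓞 K) ∣ 9 := ⟨3, by norm_num⟩
  have hu : In3 u := (in3_congr (h31.trans hcls)).2 ⟨b, by ring⟩
  refine ⟨u, hu, ?_, ?_, hres, ?_⟩
  · rw [cl3_congr hu hcls, hb]
  · rw [cn3_congr hu hcls, hb']
  · have hc2 : IsCoprime u (DD3 B) := by
      unfold DD3
      apply IsCoprime.prod_right
      intro p hp
      rw [isCoprime_comm]
      refine (p.prime.irreducible.coprime_iff_not_dvd).2 ?_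
      intro h
      apply hg p hp
      have := dvd_sub h (hres p hp)
      rwa [sub_sub_cancel] at this
    obtain ⟨v, w, hvw⟩ := hu.coprime_nine.mul_right hc2
    exact ⟨v, -w, by linear_combination hvw⟩

private theorem Chi3b_e3_ne_one {x : ZMod 3} (h : x ≠ 0) : e3 x ≠ 1 := by
  intro h1
  apply h
  exact (ZMod.injective_stdAddChar (N := 3))
    ((show ZMod.stdAddChar (N := 3) x = 1 from h1).trans (AddChar.map_zero_eq_one _).symm)

private theorem Chi3b_lin {c d : ZMod 3} (h : c ≠ 0 ∨ d ≠ 0) : ∃ a a' : ZMod 3, c * a + d * a' = 1 := by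
  revert c d
  decide

/-- A nontrivial character takes a value different from `1`. -/
theorem chBb_exists (B : Finset P3) (t : P3 → ZMod 3) (c d : ZMod 3)
    (h : (∃ p ∈ B, t p ≠ 0) ∨ c ≠ 0 ∨ d ≠ 0) :
    ∃ (u v w : 𝓞 K) (z : ℂ), u * v = 1 + 9 * DD3 B * w ∧ z ≠ 1 ∧
      ∀ x, chBb B t c d (u * x) = z * chBb B t c d x := by
  classical
  obtain ⟨u, hu, hu', ⟨v, w, hvw⟩, hval⟩ : ∃ u : 𝓞 K, In3 u ∧ (∀ p ∈ B, ¬ p.1 ∣ u) ∧
      (∃ v w : 𝓞 K, u * v = 1 + 9 * DD3 B * w) ∧ cxb B t c d u ≠ 0 := by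
    rcases h with ⟨p, hp, htp⟩ | hc
    · obtain ⟨g, hg0, hg⟩ := exists_cq p 1
      have h0 : ∀ q ∈ B, ¬ q.1 ∣ (if q = p then g else 1) := by
        intro q _
        by_cases hqp : q = p
        · rw [if_pos hqp, hqp]
          exact hg0
        · rw [if_neg hqp]
          exact fun hd => q.prime.not_unit (isUnit_of_dvd_one hd)
      obtain ⟨u, h1, h2, h2', h3, h4⟩ :=
        exists_res3b B 0 0 (fun q => if q = p then g else 1) h0
      have hn : ∀ q ∈ B, ¬ q.1 ∣ u := by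
        intro q hq hd
        apply h0 q hq
        have := dvd_sub hd (h3 q hq)
        rwa [sub_sub_cancel] at this
      refine ⟨u, h1, hn, h4, ?_⟩
      unfold cxb
      rw [h2, h2', mul_zero, mul_zero, zero_add, zero_add, ← add_sum_erase _ _ hp]
      have h6 : cq p u = 1 := by
        rw [cq_congr (hn p hp) (h3 p hp)]
        simp [hg]
      have h7 : ∑ q ∈ B.erase p, t q * cq q u = 0 := by
        apply sum_eq_zero
        intro q hq
        rw [mem_erase] at hq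
        rw [cq_congr (hn q hq.2) (h3 q hq.2)]
        simp [hq.1, cq_one]
      rw [h6, h7, mul_one, add_zero]
      exact htp
    · have h0 : ∀ q ∈ B, ¬ q.1 ∣ (1 : 𝓞 K) := fun q _ hd =>
        q.prime.not_unit (isUnit_of_dvd_one hd)
      obtain ⟨a, a', haa⟩ := Chi3b_lin hc
      obtain ⟨u, h1, h2, h2', h3, h4⟩ := exists_res3b B a a' (fun _ => 1) h0
      have hn : ∀ q ∈ B, ¬ q.1 ∣ u := by
        intro q hq hd
        apply h0 q hq
        have := dvd_sub hd (h3 q hq)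
        rwa [sub_sub_cancel] at this
      refine ⟨u, h1, hn, h4, ?_⟩
      unfold cxb
      have h7 : ∑ q ∈ B, t q * cq q u = 0 := by
        apply sum_eq_zero
        intro q hq
        rw [cq_congr (hn q hq) (h3 q hq), cq_one, mul_zero]
      rw [h2, h2', h7, add_zero, haa]
      exact one_ne_zero
  refine ⟨u, v, w, e3 (cxb B t c d u), hvw, Chi3b_e3_ne_one hval, fun x => ?_⟩
  rw [chBb_mul B t c d hu x, chBb_of hu hu']

/-! ### The mean values -/

theorem chBb_sum (B : Finset P3) (t : P3 → ZMod 3) (c d : ZMod 3)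
    (h : (∃ p ∈ B, t p ≠ 0) ∨ c ≠ 0 ∨ d ≠ 0) (X : ℕ) (hX : 1 ≤ X) :
    ‖∑ x ∈ discE (𝓞 K) X, chBb B t c d x‖ ≤ 20 * Real.sqrt ((81 * nm B : ℕ) * X) := by
  obtain ⟨u, v, w, z, h1, h2, h3⟩ := chBb_exists B t c d h
  have h4 := sum_discEC' (9 * DD3 B) (by
    intro h0
    have h4 := Nz_mod9 B
    rw [h0] at h4
    have h5 := one_le_nm B
    have h6 : Nz 0 = 0 := Nz_eq_zero.2 rfl
    omega) (chBb B t c d) (norm_chBb_le B t c d) (chBb_per B t c d) u v w h1 z h2 h3 X hX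
  rw [nE_eq, Nz_mod9] at h4
  exact h4

theorem chBb_mulC (B : Finset P3) (t : P3 → ZMod 3) (c d : ZMod 3) :
    MulC prm3 (chBb B t c d) where
  one := chBb_one B t c d
  mul q y _ := chBb_mul B t c d q.in3 y
  zero _ hx := chBb_of_not fun h => hx h.1
  le := norm_chBb_le B t c d

/-- **The nontrivial cubic characters have bounded Euler products.** -/
theorem d3b_cb : ∃ C, d3b.CBb C := by
  obtain ⟨C, hC, hmain⟩ := prm3.charB_of 20 (by norm_num)
  refine ⟨C * (1 + Real.log 81), fun T t c d ht h => ?_⟩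
  have h' : (∃ p ∈ T, t p ≠ 0) ∨ c ≠ 0 ∨ d ≠ 0 := by
    rcases h with h | h
    · obtain ⟨p, hp⟩ := Finset.nonempty_iff_ne_empty.2 h
      exact Or.inl ⟨p, hp, ht p hp⟩
    · exact Or.inr h
  have h1 := hmain (chBb T t c d) (81 * nm T) (chBb_mulC T t c d) (by
    have := one_le_nm T
    omega) (fun X hX => chBb_sum T t c d h' X hX)
  have h2 : (fun q : P3 => (chBb T t c d (prm3.e q)).re) =
      fun q => (d3b.chb T t c d q).re := by
    funext q
    exact congrArg Complex.re (chBb_q T t c d q)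
  rw [h2] at h1
  have h3 : (1 : ℝ) ≤ nm T := by exact_mod_cast one_le_nm T
  have h4 : Real.log ((81 * nm T : ℕ) : ℝ) = Real.log 81 + Real.log (nm T) := by
    push_cast
    rw [Real.log_mul (by norm_num) (by positivity)]
  rw [h4] at h1
  have h5 : 0 ≤ Real.log (nm T) := Real.log_nonneg h3
  have h6 : 0 ≤ Real.log 81 := Real.log_nonneg (by norm_num)
  have h7 : 0 ≤ C * (Real.log 81 * Real.log (nm T)) := by positivity
  have hle : C * (1 + (Real.log 81 + Real.log (nm T))) ≤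
      C * (1 + Real.log 81) * (1 + Real.log (nm T)) := by nlinarith
  exact ⟨h1.le, h1.hB.trans hle, fun σ g1 g2 => (h1.bound σ g1 g2).mono fun x hx => hx.trans hle⟩

/-- The value at a squarefree element. -/
theorem chBb_DD3 (B : Finset P3) (t : P3 → ZMod 3) (c d : ZMod 3) (S : Finset P3) :
    chBb B t c d (DD3 S) =
      if Disjoint S B then ∏ q ∈ S, e3 (d3b.exb B t c d q) else 0 := by
  rw [chBb_eq, chB_DD3]
  split_ifs with h
  · rw [cn3_DD3, mul_sum, e3_sum, ← prod_mul_distrib]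
    refine prod_congr rfl fun q _ => ?_
    rw [← e3_add]
    congr 1
    change c * d3.a q + ∑ p ∈ B, t p * d3.s q p + d * cq q s3 =
      c * d3.a q + d * cq q s3 + ∑ p ∈ B, t p * d3.s q p
    ring
  · rw [zero_mul]

/-- **The nontrivial cubic characters have mean value zero on the squarefree elements.** -/
theorem d3b_h3 : d3b.H3b := by
  classical
  intro B T t c d hTB ht h ε hε
  -- extend `t` by zero
  obtain ⟨t', ht'⟩ : ∃ t' : P3 → ZMod 3, t' = fun p => if p ∈ T then t p else 0 := ⟨_, rfl⟩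
  have h' : (∃ p ∈ B, t' p ≠ 0) ∨ c ≠ 0 ∨ d ≠ 0 := by
    rcases h with h | h
    · obtain ⟨p, hp⟩ := Finset.nonempty_iff_ne_empty.2 h
      refine Or.inl ⟨p, hTB hp, ?_⟩
      rw [ht']
      simp only [hp, if_true]
      exact ht p hp
    · exact Or.inr h
  have h0 : ¬ prm3.P 0 := fun h => In3.ne_zero h rfl
  obtain ⟨X₀, hX₀⟩ := prm3.mean_zero h0 (chBb B t' c d) (chBb_mulC B t' c d)
    (B := 20 * Real.sqrt (81 * nm B : ℕ)) (by positivity) (fun X hX => by
      have h1 := chBb_sum B t' c d h' X hX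
      rw [Real.sqrt_mul (Nat.cast_nonneg _)] at h1
      rw [mul_assoc]
      exact h1) ε hε
  refine ⟨X₀, fun X hX => ?_⟩
  have h1 := hX₀ X hX
  have h2 : ∑ S ∈ Sx P3 X, chBb B t' c d (prm3.dd S) =
      ∑ S ∈ (Sx P3 X).filter (fun S => Disjoint S B), ∏ q ∈ S, e3 (d3b.exb T t c d q) := by
    rw [sum_filter]
    refine sum_congr rfl fun S _ => ?_
    have h3 : chBb B t' c d (prm3.dd S) = chBb B t' c d (DD3 S) := rfl
    rw [h3, chBb_DD3]
    have h4 : ∀ q, d3b.exb B t' c d q = d3b.exb T t c d q := by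
      intro q
      unfold Dat3b.exb
      congr 1
      rw [ht', ← sum_subset hTB (fun p _ hp => by simp only [hp, if_false, zero_mul])]
      exact sum_congr rfl fun p hp => by simp only [hp, if_true]
    simp only [h4]
  rw [h2] at h1
  exact h1

theorem d3b_OK : d3b.OKb where
  ok := d3_OK
  cbb := d3b_cb
  h3b := d3b_h3

end

end Pool.Agent.Lib.MP_1a91b9_ntK
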