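import Pool.Agent.Lib.MP_1a91b9_ntH.D.Defs

/-!
# MP_1a91b9_nt, phase 3 (cubic twists), part R: summing densities over the square part

`T` runs over the squarefree integers with `nm T ^ 2 ≤ X`; for every fixed `T` a lower bound for the
density in `Y = X / nm T ^ 2` is known. As `∑ 1 / nm T ^ 2` converges, the densities can be summed.
-/

set_option autoImplicit false

namespace Pool.Agent.Lib.MP_1a91b9_ntK

open Finset Pool.Agent.Lib.MP_1a91b9_ntH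

noncomputable section

variable {ι : Type} [DecidableEq ι] [PS ι]

/-- The series of the `1 / nm T ^ 2` converges if there are at most `C Y` squarefree integers of norm
at most `Y`. -/
theorem tail_sq {C : ℝ} (hC : ∀ Y : ℕ, ((Sx ι Y).card : ℝ) ≤ C * Y) {ε : ℝ} (hε : 0 < ε) :
    ∃ T₀ : ℕ, ∀ F : Finset (Finset ι), (∀ T ∈ F, T₀ < nm T) →
      ∑ T ∈ F, (1 : ℝ) / (nm T : ℝ) ^ 2 ≤ ε := by
  classical
  have hC0 : 0 ≤ C := by
    have := hC 1
    have h1 : (0 : ℝ) ≤ ((Sx ι 1).card : ℝ) := Nat.cast_nonneg _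
    simp only [Nat.cast_one, mul_one] at this
    linarith
  obtain ⟨k₀, hk₀⟩ := exists_nat_ge (4 * C / ε)
  have hk₁ : 4 * C / ε < (2 : ℝ) ^ k₀ := by
    have h1 : (k₀ : ℝ) < (2 : ℝ) ^ k₀ := by exact_mod_cast k₀.lt_two_pow_self
    linarith
  have hk : 4 * C / (2 : ℝ) ^ k₀ ≤ ε := by
    rw [div_lt_iff₀ hε] at hk₁
    rw [div_le_iff₀ (by positivity)]
    linarith
  refine ⟨2 ^ k₀, fun F hF => le_trans ?_ hk⟩
  -- the dyadic pieces
  set lg : Finset ι → ℕ := fun T => Nat.log 2 (nm T) with hlg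
  obtain ⟨K, hK⟩ : ∃ K : ℕ, ∀ T ∈ F, lg T < k₀ + K := by
    refine ⟨∑ T ∈ F, (lg T + 1), fun T hT => ?_⟩
    have : lg T + 1 ≤ ∑ T ∈ F, (lg T + 1) :=
      single_le_sum (f := fun T => lg T + 1) (fun _ _ => Nat.zero_le _) hT
    omega
  have hmaps : ∀ T ∈ F, lg T ∈ Ico k₀ (k₀ + K) := by
    intro T hT
    refine mem_Ico.2 ⟨?_, hK T hT⟩
    exact Nat.le_log_of_pow_le (by norm_num) (hF T hT).le
  rw [← sum_fiberwise_of_maps_to hmaps]
  have h1 : ∀ k ∈ Ico k₀ (k₀ + K), ∑ T ∈ F.filter (fun T => lg T = k), (1 : ℝ) / (nm T : ℝ) ^ 2 ≤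
      2 * C * (1 / 2) ^ k := by
    intro k _
    have h2 : ∀ T ∈ F.filter (fun T => lg T = k), (1 : ℝ) / (nm T : ℝ) ^ 2 ≤ 1 / (2 ^ k) ^ 2 := by
      intro T hT
      have h3 := (mem_filter.1 hT).2
      have h4 : 2 ^ k ≤ nm T := by
        rw [← h3]
        exact Nat.pow_log_le_self 2 (by have := one_le_nm T; omega)
      have h5 : (2 : ℝ) ^ k ≤ nm T := by exact_mod_cast h4
      gcongr
    have h3 : ((F.filter (fun T => lg T = k)).card : ℝ) ≤ C * 2 ^ (k + 1) := by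
      have h4 : F.filter (fun T => lg T = k) ⊆ Sx ι (2 ^ (k + 1)) := by
        intro T hT
        rw [mem_Sx]
        have h5 := (mem_filter.1 hT).2
        rw [← h5]
        exact (Nat.lt_pow_succ_log_self (by norm_num) _).le
      have h5 : ((F.filter (fun T => lg T = k)).card : ℝ) ≤ ((Sx ι (2 ^ (k + 1))).card : ℝ) := by
        exact_mod_cast card_le_card h4
      have h6 := hC (2 ^ (k + 1))
      push_cast at h6
      linarith
    calc ∑ T ∈ F.filter (fun T => lg T = k), (1 : ℝ) / (nm T : ℝ) ^ 2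
        ≤ ∑ T ∈ F.filter (fun T => lg T = k), 1 / ((2 : ℝ) ^ k) ^ 2 := sum_le_sum h2
      _ = ((F.filter (fun T => lg T = k)).card : ℝ) * (1 / ((2 : ℝ) ^ k) ^ 2) := by
          rw [sum_const, nsmul_eq_mul]
      _ ≤ C * 2 ^ (k + 1) * (1 / ((2 : ℝ) ^ k) ^ 2) :=
          mul_le_mul_of_nonneg_right h3 (by positivity)
      _ = 2 * C * (1 / 2) ^ k := by
          have : (2 : ℝ) ^ k ≠ 0 := by positivity
          rw [one_div_pow]
          field_simp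
          ring
  refine (sum_le_sum h1).trans ?_
  rw [← mul_sum]
  have h2 : ∑ k ∈ Ico k₀ (k₀ + K), ((1 : ℝ) / 2) ^ k ≤ 2 * (1 / 2) ^ k₀ := by
    rw [sum_Ico_eq_sum_range]
    simp only [pow_add, ← mul_sum, Nat.add_sub_cancel_left]
    have h3 : ∑ i ∈ range K, ((1 : ℝ) / 2) ^ i ≤ 2 := by
      have h4 := geom_sum_eq (show (1 / 2 : ℝ) ≠ 1 by norm_num) K
      rw [h4]
      have h5 : (0 : ℝ) ≤ (1 / 2) ^ K := by positivity
      rw [div_le_iff_of_neg (by norm_num)]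
      linarith
    have h6 : (0 : ℝ) ≤ (1 / 2) ^ k₀ := by positivity
    nlinarith
  calc 2 * C * ∑ k ∈ Ico k₀ (k₀ + K), ((1 : ℝ) / 2) ^ k ≤ 2 * C * (2 * (1 / 2) ^ k₀) :=
        mul_le_mul_of_nonneg_left h2 (by positivity)
    _ = 4 * C / 2 ^ k₀ := by
        rw [one_div_pow]
        ring

/-- Summing over the square part. -/
theorem fix_sum {C κ : ℝ} (hC : ∀ Y : ℕ, ((Sx ι Y).card : ℝ) ≤ C * Y) (hκ : 0 ≤ κ)
    (b g : Finset ι → ℕ → ℝ) (hb : ∀ T Y, b T Y ≤ C * Y) (hg : ∀ T Y, 0 ≤ g T Y)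
    (h : ∀ T : Finset ι, ∀ ε : ℝ, 0 < ε → ∃ Y₀ : ℕ, ∀ Y : ℕ, Y₀ ≤ Y →
      κ * b T Y - ε * Y ≤ g T Y) (ε : ℝ) (hε : 0 < ε) : ∃ X₀ : ℕ, ∀ X : ℕ, X₀ ≤ X →
    κ * ∑ T ∈ Sx ι X, b T (X / nm T ^ 2) - ε * X ≤ ∑ T ∈ Sx ι X, g T (X / nm T ^ 2) := by
  classical
  have hC0 : 0 ≤ C := by
    have := hC 1
    have h1 : (0 : ℝ) ≤ ((Sx ι 1).card : ℝ) := Nat.cast_nonneg _
    simp only [Nat.cast_one, mul_one] at this
    linarith
  have hε1 : 0 < ε / (2 * (κ * C + 1)) := by positivity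
  obtain ⟨T₀, hT₀⟩ := tail_sq hC hε1
  set m : ℝ := ((Sx ι T₀).card : ℝ) with hm
  have hm0 : 0 ≤ m := Nat.cast_nonneg _
  have hε2 : 0 < ε / (2 * (m + 1)) := by positivity
  choose Y₀ hY₀ using fun T : Finset ι => h T _ hε2
  refine ⟨T₀ + ∑ T ∈ Sx ι T₀, Y₀ T * nm T ^ 2, fun X hX => ?_⟩
  have hXT : T₀ ≤ X := by omega
  have hsub : Sx ι T₀ ⊆ Sx ι X := fun T hT => mem_Sx.2 ((mem_Sx.1 hT).trans hXT)
  have hdiv : ∀ T : Finset ι, ((X / nm T ^ 2 : ℕ) : ℝ) ≤ X * (1 / (nm T : ℝ) ^ 2) := by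
    intro T
    have h1 := Nat.cast_div_le (α := ℝ) (m := X) (n := nm T ^ 2)
    push_cast at h1
    rw [mul_one_div]
    exact h1
  have h1 : ∀ T ∈ Sx ι T₀, κ * b T (X / nm T ^ 2) - g T (X / nm T ^ 2) ≤ ε / (2 * (m + 1)) * X := by
    intro T hT
    have h2 : Y₀ T ≤ X / nm T ^ 2 := by
      rw [Nat.le_div_iff_mul_le (by have := one_le_nm T; positivity)]
      have h3 : Y₀ T * nm T ^ 2 ≤ ∑ T ∈ Sx ι T₀, Y₀ T * nm T ^ 2 :=
        single_le_sum (f := fun T => Y₀ T * nm T ^ 2) (fun _ _ => Nat.zero_le _) hT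
      omega
    have h3 := hY₀ T _ h2
    have h4 : ((X / nm T ^ 2 : ℕ) : ℝ) ≤ X := by exact_mod_cast Nat.div_le_self X _
    have h5 : ε / (2 * (m + 1)) * ((X / nm T ^ 2 : ℕ) : ℝ) ≤ ε / (2 * (m + 1)) * X :=
      mul_le_mul_of_nonneg_left h4 hε2.le
    linarith
  have h2 : ∀ T ∈ Sx ι X \ Sx ι T₀, κ * b T (X / nm T ^ 2) - g T (X / nm T ^ 2) ≤
      κ * C * X * (1 / (nm T : ℝ) ^ 2) := by
    intro T _
    have h3 := hb T (X / nm T ^ 2)
    have h4 := hg T (X / nm T ^ 2)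
    have h5 : C * ((X / nm T ^ 2 : ℕ) : ℝ) ≤ C * (X * (1 / (nm T : ℝ) ^ 2)) :=
      mul_le_mul_of_nonneg_left (hdiv T) hC0
    have h6 : κ * b T (X / nm T ^ 2) ≤ κ * (C * (X * (1 / (nm T : ℝ) ^ 2))) :=
      mul_le_mul_of_nonneg_left (h3.trans h5) hκ
    linarith
  have h3 := sum_le_sum h1
  have h4 := sum_le_sum h2
  rw [sum_const, nsmul_eq_mul, ← hm] at h3
  rw [← mul_sum] at h4
  have h5 : ∑ T ∈ Sx ι X \ Sx ι T₀, (1 : ℝ) / (nm T : ℝ) ^ 2 ≤ ε / (2 * (κ * C + 1)) := by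
    refine hT₀ _ fun T hT => ?_
    have := (mem_sdiff.1 hT).2
    rw [mem_Sx] at this
    omega
  have h6 : κ * C * X * ∑ T ∈ Sx ι X \ Sx ι T₀, (1 : ℝ) / (nm T : ℝ) ^ 2 ≤ ε / 2 * X := by
    have hκC : 0 ≤ κ * C * X := by positivity
    have h7 := mul_le_mul_of_nonneg_left h5 hκC
    have h8 : κ * C * X * (ε / (2 * (κ * C + 1))) ≤ ε / 2 * X := by
      have h9 : κ * C * X * (ε / (2 * (κ * C + 1))) = ε / 2 * X * (κ * C / (κ * C + 1)) := by
        field_simp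
      rw [h9]
      have h10 : κ * C / (κ * C + 1) ≤ 1 := by
        rw [div_le_one (by positivity)]
        linarith
      have h11 : 0 ≤ ε / 2 * (X : ℝ) := by positivity
      nlinarith
    linarith
  have h7 : m * (ε / (2 * (m + 1)) * X) ≤ ε / 2 * X := by
    have h9 : m * (ε / (2 * (m + 1)) * X) = ε / 2 * X * (m / (m + 1)) := by
      field_simp
    rw [h9]
    have h10 : m / (m + 1) ≤ 1 := by
      rw [div_le_one (by positivity)]
      linarith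
    have h11 : 0 ≤ ε / 2 * (X : ℝ) := by positivity
    nlinarith
  have h8 : ∑ T ∈ Sx ι X, (κ * b T (X / nm T ^ 2) - g T (X / nm T ^ 2)) =
      ∑ T ∈ Sx ι X \ Sx ι T₀, (κ * b T (X / nm T ^ 2) - g T (X / nm T ^ 2)) +
      ∑ T ∈ Sx ι T₀, (κ * b T (X / nm T ^ 2) - g T (X / nm T ^ 2)) :=
    (sum_sdiff hsub).symm
  rw [sum_sub_distrib, ← mul_sum] at h8
  linarith

end

end Pool.Agent.Lib.MP_1a91b9_ntK
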