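import Pool.Agent.Lib.MP_1a91b9_ntK.R.Bij3
import Pool.Agent.Lib.MP_1a91b9_ntK.R.Fix
import Pool.Agent.Lib.MP_1a91b9_ntH.R.Density

/-!
# MP_1a91b9_nt (cubic twists), part R: transfer of the density to the cube-free elements

`D : Prm ι` is a system of normalised primes, `u` a unit, `F` a property (a class) which implies
`x = u * y` with `y` normalised. The cube-free `x` with `F x` and norm at most `X` are the
`u * pp S T` with disjoint `S`, `T`, `nm S ≤ X / nm T ^ 2` and `F (u * pp S T)`. A lower bound for the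
density for every fixed `T` gives the same lower bound for the density among the cube-free `x`.
-/

set_option autoImplicit false

namespace Pool.Agent.Lib.MP_1a91b9_ntK

open NumberField Finset Pool.Agent.Lib.MP_1a91b9_ntT Pool.Agent.Lib.MP_1a91b9_ntH

noncomputable section

variable {ι : Type} [DecidableEq ι] [PS ι]

open Classical in
/-- Counting the cube-free elements of a family. -/
theorem Prm.cf_card (D : Prm ι) {u : 𝓞 K} (hu : IsUnit u) (F Q : 𝓞 K → Prop)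
    (hF : ∀ x, F x → ∃ y, D.P y ∧ x = u * y) (n : ℕ) :
    Nat.card {x : 𝓞 K // CF x ∧ F x ∧ Nz x ≤ n ∧ Q x} =
      ∑ T ∈ Sx ι n, ((Sx ι (n / nm T ^ 2)).filter
        fun S => Disjoint S T ∧ F (u * D.pp S T) ∧ Q (u * D.pp S T)).card := by
  have hN : ∀ x : 𝓞 K, Nz (u * x) = Nz x := by
    intro x
    rw [Nz_mul, isUnit_iff_Nz.1 hu, one_mul]
  set A : Finset (Σ _ : Finset ι, Finset ι) := (Sx ι n).sigma fun T => (Sx ι (n / nm T ^ 2)).filter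
    fun S => Disjoint S T ∧ F (u * D.pp S T) ∧ Q (u * D.pp S T) with hA
  have hmem : ∀ S T : Finset ι, (⟨T, S⟩ : Σ _ : Finset ι, Finset ι) ∈ A ↔
      nm S * nm T ^ 2 ≤ n ∧ Disjoint S T ∧ F (u * D.pp S T) ∧ Q (u * D.pp S T) := by
    intro S T
    have h1 : 0 < nm T ^ 2 := by have := one_le_nm T; positivity
    rw [hA, mem_sigma, mem_filter, mem_Sx, mem_Sx, Nat.le_div_iff_mul_le h1]
    constructor
    · rintro ⟨_, h2, h3⟩
      exact ⟨h2, h3⟩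
    · rintro ⟨h2, h3⟩
      refine ⟨?_, h2, h3⟩
      have h4 := one_le_nm S
      have h5 := one_le_nm T
      show nm T ≤ n
      calc nm T = 1 * (nm T * 1) := by ring
        _ ≤ nm S * (nm T * nm T) := Nat.mul_le_mul h4 (Nat.mul_le_mul_left _ h5)
        _ = nm S * nm T ^ 2 := by ring
        _ ≤ n := h2
  have e : Nat.card {x : 𝓞 K // CF x ∧ F x ∧ Nz x ≤ n ∧ Q x} = Nat.card {p // p ∈ A} := by
    symm
    refine Nat.card_congr (Equiv.ofBijective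
      (fun p => ⟨u * D.pp p.1.2 p.1.1, ?_⟩) ⟨?_, ?_⟩)
    · obtain ⟨⟨T, S⟩, hp⟩ := p
      obtain ⟨h1, h2, h3, h4⟩ := (hmem S T).1 hp
      refine ⟨(CF.mul_unit hu).2 (D.pp_cf h2), h3, ?_, h4⟩
      rw [hN, D.Nz_pp]
      exact h1
    · rintro ⟨⟨T, S⟩, hp⟩ ⟨⟨T', S'⟩, hp'⟩ h
      have h1 : u * D.pp S T = u * D.pp S' T' := congrArg Subtype.val h
      have h2 : D.pp S T = D.pp S' T' := hu.mul_left_cancel h1
      obtain ⟨rfl, rfl⟩ := D.pp_inj ((hmem S T).1 hp).2.1 ((hmem S' T').1 hp').2.1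
        (h2 ▸ Associated.refl _)
      rfl
    · rintro ⟨x, h1, h2, h3, h4⟩
      obtain ⟨y, hy, rfl⟩ := hF x h2
      obtain ⟨S, T, hST, rfl⟩ := D.exists_pp _ le_rfl hy ((CF.mul_unit hu).1 h1)
      refine ⟨⟨⟨T, S⟩, (hmem S T).2 ⟨?_, hST, h2, h4⟩⟩, rfl⟩
      rw [hN, D.Nz_pp] at h3
      exact h3
  rw [e, Nat.card_eq_fintype_card, Fintype.card_coe, hA, card_sigma]

open Classical in
/-- The density among the cube-free elements of the family, product form. -/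
theorem Prm.cf_density (D : Prm ι) {u : 𝓞 K} (hu : IsUnit u) (F : 𝓞 K → Prop)
    (hF : ∀ x, F x → ∃ y, D.P y ∧ x = u * y) {C : ℝ}
    (hC : ∀ Y : ℕ, ((Sx ι Y).card : ℝ) ≤ C * Y) (κ κ' : ℝ) (hκ0 : 0 ≤ κ) (hκ : κ' < κ)
    (Good : Finset ι → Finset ι → Prop)
    (h : ∀ T : Finset ι, ∀ ε : ℝ, 0 < ε → ∃ Y₀ : ℕ, ∀ Y : ℕ, Y₀ ≤ Y →
      κ * (((Sx ι Y).filter fun S => Disjoint S T ∧ F (u * D.pp S T)).card : ℝ) - ε * Y ≤
        (((Sx ι Y).filter fun S => Disjoint S T ∧ F (u * D.pp S T) ∧ Good S T).card : ℝ))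
    (hpos : ∃ c : ℝ, 0 < c ∧ ∃ X₀ : ℕ, ∀ X : ℕ, X₀ ≤ X →
      c * X ≤ (((Sx ι X).filter fun S => F (u * D.pd S)).card : ℝ))
    (Pr : 𝓞 K → Prop) (hPr : ∀ S T, Disjoint S T → F (u * D.pp S T) → Good S T →
      Pr (u * D.pp S T)) :
    ∀ᶠ X : ℝ in Filter.atTop,
      κ' * (Nat.card {x : 𝓞 K // CF x ∧ F x ∧ |Algebra.norm ℤ x| ≤ X} : ℝ) ≤
        (Nat.card {x : 𝓞 K // CF x ∧ F x ∧ |Algebra.norm ℤ x| ≤ X ∧ Pr x} : ℝ) ∧
      0 < Nat.card {x : 𝓞 K // CF x ∧ F x ∧ |Algebra.norm ℤ x| ≤ X} := by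
  obtain ⟨c, hc, X₁, hpos⟩ := hpos
  have hε : 0 < (κ - κ') * c / 2 := by
    have : 0 < κ - κ' := by linarith
    positivity
  obtain ⟨X₂, hX₂⟩ := fix_sum hC hκ0
    (fun T Y => (((Sx ι Y).filter fun S => Disjoint S T ∧ F (u * D.pp S T)).card : ℝ))
    (fun T Y => (((Sx ι Y).filter fun S => Disjoint S T ∧ F (u * D.pp S T) ∧ Good S T).card : ℝ))
    (fun T Y => (Nat.cast_le.2 (card_filter_le _ _)).trans (hC Y)) (fun T Y => Nat.cast_nonneg _)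
    h _ hε
  filter_upwards [Filter.eventually_ge_atTop ((X₁ + X₂ + 1 : ℕ) : ℝ)] with X hX
  have hX0 : 0 ≤ X := (Nat.cast_nonneg _).trans hX
  set n := ⌊X⌋₊ with hn
  have hn1 : X₁ + X₂ + 1 ≤ n := Nat.le_floor hX
  have hXn : ∀ x : 𝓞 K, ((|Algebra.norm ℤ x| : ℤ) : ℝ) ≤ X ↔ Nz x ≤ n := by
    intro x
    rw [abs_norm_le, hn, Nat.le_floor_iff hX0]
  simp only [hXn]
  have hall : (Nat.card {x : 𝓞 K // CF x ∧ F x ∧ Nz x ≤ n} : ℝ) =
      ∑ T ∈ Sx ι n, (((Sx ι (n / nm T ^ 2)).filter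
        fun S => Disjoint S T ∧ F (u * D.pp S T)).card : ℝ) := by
    have h1 := D.cf_card hu F (fun _ => True) hF n
    simp only [and_true] at h1
    rw [h1]
    push_cast
    rfl
  have hgood : ∑ T ∈ Sx ι n, (((Sx ι (n / nm T ^ 2)).filter
      fun S => Disjoint S T ∧ F (u * D.pp S T) ∧ Good S T).card : ℝ) ≤
      (Nat.card {x : 𝓞 K // CF x ∧ F x ∧ Nz x ≤ n ∧ Pr x} : ℝ) := by
    rw [D.cf_card hu F Pr hF n]
    push_cast
    refine sum_le_sum fun T _ => Nat.cast_le.2 (card_le_card ?_)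
    intro S hS
    obtain ⟨h1, h2, h3, h4⟩ := mem_filter.1 hS
    exact mem_filter.2 ⟨h1, h2, h3, hPr S T h2 h3 h4⟩
  have hge : c * (n : ℝ) ≤ (Nat.card {x : 𝓞 K // CF x ∧ F x ∧ Nz x ≤ n} : ℝ) := by
    rw [hall]
    refine (hpos n (by omega)).trans ?_
    have h1 : (∅ : Finset ι) ∈ Sx ι n := mem_Sx.2 (by rw [nm_empty]; omega)
    have h2 := single_le_sum (f := fun T => (((Sx ι (n / nm T ^ 2)).filter
      fun S => Disjoint S T ∧ F (u * D.pp S T)).card : ℝ)) (fun _ _ => Nat.cast_nonneg _) h1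
    refine le_trans (le_of_eq ?_) h2
    simp only [nm_empty, one_pow, Nat.div_one, disjoint_empty_right, true_and, D.pp_empty]
  have hn0 : (0 : ℝ) < n := by
    have : 0 < n := by omega
    exact_mod_cast this
  refine ⟨?_, ?_⟩
  · have h1 := hX₂ n (by omega)
    rw [← hall] at h1
    have h2 : (κ - κ') * (c * n) ≤ (κ - κ') * (Nat.card {x : 𝓞 K // CF x ∧ F x ∧ Nz x ≤ n} : ℝ) :=
      mul_le_mul_of_nonneg_left hge (by linarith)
    have h3 : 0 ≤ (κ - κ') * c * n := by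
      have : 0 < κ - κ' := by linarith
      positivity
    linarith
  · have h1 : (0 : ℝ) < (Nat.card {x : 𝓞 K // CF x ∧ F x ∧ Nz x ≤ n} : ℝ) :=
      lt_of_lt_of_le (by positivity) hge
    exact_mod_cast h1

open Classical in
/-- The density among the cube-free elements of the family, in the form of the final statements. -/
theorem Prm.cf_ratio (D : Prm ι) {u : 𝓞 K} (hu : IsUnit u) (F : 𝓞 K → Prop)
    (hF : ∀ x, F x → ∃ y, D.P y ∧ x = u * y) {C : ℝ}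
    (hC : ∀ Y : ℕ, ((Sx ι Y).card : ℝ) ≤ C * Y) (κ κ' : ℝ) (hκ0 : 0 ≤ κ) (hκ : κ' < κ)
    (Good : Finset ι → Finset ι → Prop)
    (h : ∀ T : Finset ι, ∀ ε : ℝ, 0 < ε → ∃ Y₀ : ℕ, ∀ Y : ℕ, Y₀ ≤ Y →
      κ * (((Sx ι Y).filter fun S => Disjoint S T ∧ F (u * D.pp S T)).card : ℝ) - ε * Y ≤
        (((Sx ι Y).filter fun S => Disjoint S T ∧ F (u * D.pp S T) ∧ Good S T).card : ℝ))
    (hpos : ∃ c : ℝ, 0 < c ∧ ∃ X₀ : ℕ, ∀ X : ℕ, X₀ ≤ X →
      c * X ≤ (((Sx ι X).filter fun S => F (u * D.pd S)).card : ℝ))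
    (Pr : 𝓞 K → Prop) (hPr : ∀ S T, Disjoint S T → F (u * D.pp S T) → Good S T →
      Pr (u * D.pp S T)) :
    ∀ᶠ X : ℝ in Filter.atTop,
      κ' ≤ (Nat.card {x : 𝓞 K // CF x ∧ F x ∧ |Algebra.norm ℤ x| ≤ X ∧ Pr x} : ℝ) /
        (Nat.card {x : 𝓞 K // CF x ∧ F x ∧ |Algebra.norm ℤ x| ≤ X} : ℝ) := by
  filter_upwards [D.cf_density hu F hF hC κ κ' hκ0 hκ Good h hpos Pr hPr] with X hX
  rw [le_div_iff₀ (by exact_mod_cast hX.2)]
  exact hX.1

end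

end Pool.Agent.Lib.MP_1a91b9_ntK
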