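import Pool.Agent.Lib.MP_1a91b9_ntK.R.Chi3
import Pool.Agent.Lib.MP_1a91b9_ntK.R.Cheb
import Pool.Agent.Lib.MP_1a91b9_ntK.R.BL3

/-!
# MP_1a91b9_nt (cubic twists), part R: the system of the cubic symbols satisfies all the hypotheses
-/

set_option autoImplicit false

namespace Pool.Agent.Lib.MP_1a91b9_ntK

theorem d3_OK : d3.OK where
  sym := d3_sym
  cheb := cheb3
  zt := zt3
  cb := d3_cb
  h3 := d3_h3
  bl := d3_bl

end Pool.Agent.Lib.MP_1a91b9_ntK
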